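import Pool.Agent.H62.TB.Rel
import Pool.Agent.H62.TV.Asm

/-!
The representation of the mapping class group of the torus with one hole.
-/

set_option autoImplicit false

namespace Pool.Agent.H62.TB

open Finset Matrix Polynomial
open Pool.Agent.H550R3.Jones (br brf)
open Pool.Agent.Y482.CY (LL UU sb Nz)
open Pool.Agent.H62.TV (vlu sh sh_ne sh_norm sh_pow)

/-- `{n}` -/
noncomputable def bA (A : ℂ) (n : ℤ) : ℂ := A ^ (2 * n) - A ^ (-(2 * n))

/-- twist coefficient -/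
noncomputable def mu (A : ℂ) (a : ℕ) : ℂ := (-1) ^ a * A ^ (a ^ 2 + 2 * a)

/-- eigenvalue of a curve operator -/
noncomputable def ev (A : ℂ) (a : ℕ) : ℂ := -A ^ (2 * a + 2) - (A ^ (2 * a + 2))⁻¹

/-- the twist along the meridian -/
noncomputable def mer (n c : ℕ) (A : ℂ) : Matrix (Fin n) (Fin n) ℂ :=
  diagonal fun i : Fin n => mu A (c + i)

/-- the curve operator of the core -/
noncomputable def crv (n c : ℕ) (A : ℂ) : Matrix (Fin n) (Fin n) ℂ := fun i j =>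
  if (i : ℕ) = j + 1 then 1
  else if (i : ℕ) + 1 = j then
    bA A (j : ℕ) * bA A (2 * c + (j : ℕ) + 1) / (bA A (c + (j : ℕ)) * bA A (c + (j : ℕ) + 1))
  else if (i : ℕ) = j ∧ (i : ℕ) + 1 = n then (A ^ (2 * c + 1) - (A ^ (2 * c + 1))⁻¹) / (A - A⁻¹)
  else 0

/-- the twist along the core -/
noncomputable def cor (n c : ℕ) (A : ℂ) : Matrix (Fin n) (Fin n) ℂ :=
  aeval (crv n c A) (Lagrange.interpolate Finset.univ (fun i : Fin n => ev A (c + i))
    fun i : Fin n => mu A (c + i))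

/-- a letter -/
noncomputable def ltr (n c : ℕ) (A : ℂ) (l : Bool × Bool) : Matrix (Fin n) (Fin n) ℂ :=
  if l.1 then (if l.2 then mer n c A else (mer n c A)⁻¹)
  else (if l.2 then cor n c A else (cor n c A)⁻¹)

/-- a word -/
noncomputable def rho (n c : ℕ) (A : ℂ) (w : List (Bool × Bool)) : Matrix (Fin n) (Fin n) ℂ :=
  (w.map (ltr n c A)).prod

section
variable {M K : ℕ}

lemma sh_half (M : ℕ) : sh M ^ (2 * (M : ℤ) + 1) = -1 := by
  have := sh_pow M
  rw [← zpow_natCast] at this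
  push_cast at this
  exact this

lemma sh_full (M : ℕ) (n : ℤ) : sh M ^ (2 * (2 * (M : ℤ) + 1) + n) = sh M ^ n := by
  rw [zpow_add₀ (sh_ne M), mul_comm 2 (2 * (M : ℤ) + 1), _root_.zpow_mul, sh_half]
  norm_num

lemma sh_refl (M : ℕ) (n : ℤ) : sh M ^ (2 * (M : ℤ) + 1 - n) = -sh M ^ (-n) := by
  rw [sub_eq_add_neg, zpow_add₀ (sh_ne M), sh_half]
  ring

lemma sh_refl' (M : ℕ) (n : ℤ) : sh M ^ (-(2 * (M : ℤ) + 1 - n)) = -sh M ^ n := by
  rw [_root_.zpow_neg, sh_refl, inv_neg, ← _root_.zpow_neg, neg_neg]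

/-- nonvanishing -/
lemma sh_br {M : ℕ} {n : ℤ} (h0 : n ≠ 0) (h1 : |n| < 2 * M + 1) : br (sh M) n ≠ 0 := by
  intro h
  have h2 : sh M ^ (2 * n) = 1 := by
    unfold br at h
    have h3 : sh M ^ n = sh M ^ (-n) := sub_eq_zero.1 h
    rw [two_mul, zpow_add₀ (sh_ne M)]
    conv_lhs => rw [h3]
    rw [← zpow_add₀ (sh_ne M)]
    have : -n + -n + (n + n) = 0 := by ring
    have h4 : sh M ^ (-n) * sh M ^ (-n) = sh M ^ (-n) * sh M ^ n := by rw [h3]
    rw [← zpow_add₀ (sh_ne M), ← zpow_add₀ (sh_ne M), neg_add_cancel, _root_.zpow_zero] at h4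
    exact h4
  unfold sh at h2
  rw [← Complex.exp_int_mul, Complex.exp_eq_one_iff] at h2
  obtain ⟨k, hk⟩ := h2
  have hpi : (Real.pi : ℂ) ≠ 0 := by exact_mod_cast Real.pi_ne_zero
  have hM : ((2 * M + 1 : ℕ) : ℂ) ≠ 0 := by exact_mod_cast Nat.succ_ne_zero (2 * M)
  have h5 : (n : ℂ) = k * (2 * M + 1 : ℕ) := by
    push_cast at hk hM ⊢
    field_simp at hk
    linear_combination hk
  have h6 : n = k * (2 * M + 1 : ℕ) := by exact_mod_cast h5
  have h7 : k ≠ 0 := by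
    rintro rfl
    apply h0
    rw [h6, zero_mul]
  have h8 : (2 * (M : ℤ) + 1) ≤ |n| := by
    rw [h6, abs_mul]
    have h9 : 1 ≤ |k| := Int.one_le_abs h7
    have h10 : |((2 * M + 1 : ℕ) : ℤ)| = 2 * (M : ℤ) + 1 := by
      rw [abs_of_nonneg (by omega)]
      push_cast
      ring
    rw [h10]
    nlinarith
  omega

lemma sh_Nz (hK : K + 1 ≤ M) : Nz (sh M) (2 * K + 2) := fun l h0 hl => by
  refine sh_br (by omega) ?_
  rw [abs_of_pos (by omega)]
  omega

lemma sh_br2 (hK : K + 1 ≤ M) (n : ℤ) (h0 : n ≠ 0) (h1 : |n| ≤ 2 * K + 2) :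
    br (sh M) (2 * n) ≠ 0 := by
  rw [abs_le] at h1
  rcases lt_or_ge |2 * n| (2 * (M : ℤ) + 1) with h | h
  · exact sh_br (by omega) h
  · have key : ∀ m : ℤ, br (sh M) (2 * (2 * (M : ℤ) + 1) + m) = br (sh M) m := by
      intro m
      unfold br
      rw [sh_full]
      congr 1
      have h6 : -(2 * (2 * (M : ℤ) + 1) + m) = -m - 2 * (2 * (M : ℤ) + 1) := by ring
      have h5 := sh_full M 0
      rw [add_zero, _root_.zpow_zero] at h5
      rw [h6, zpow_sub₀ (sh_ne M), h5, div_one]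
    rcases lt_or_gt_of_ne h0 with h2 | h2
    · rw [← key]
      refine sh_br ?_ ?_
      · omega
      · rw [abs_of_neg (by omega)] at h
        rw [abs_lt]
        constructor <;> omega
    · have h3 := key (2 * n - 2 * (2 * (M : ℤ) + 1))
      have e1 : 2 * (2 * (M : ℤ) + 1) + (2 * n - 2 * (2 * (M : ℤ) + 1)) = 2 * n := by ring
      rw [e1] at h3
      rw [h3]
      rw [abs_of_pos (by omega)] at h
      refine sh_br (by omega) ?_
      rw [abs_lt]
      constructor <;> omega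

/-- the scalar -/
noncomputable def xi (M : ℕ) : ℂ := mu (sh M) (M - 1)

lemma xi_norm (M : ℕ) : ‖xi M‖ = 1 := by
  unfold xi mu
  rw [norm_mul, norm_pow, norm_pow, sh_norm, norm_neg, norm_one, one_pow, one_pow, one_mul]

lemma mu_eq {c : ℕ} (hc : c + (K + 1) = M) {i : ℕ} (hi : i ≤ K) : mu (sh M) (c + i) =
    xi M * sh M ^ (((K : ℤ) - i) * ((K : ℤ) - i + 1)) := by
  obtain ⟨j, hj⟩ : ∃ j, K = i + j := ⟨K - i, by omega⟩
  have hM : M = c + i + j + 1 := by omega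
  unfold xi mu
  have e1 : M - 1 = c + i + j := by omega
  rw [e1, pow_add (-1 : ℂ) (c + i) j]
  have e2 : (K : ℤ) - i = j := by omega
  rw [e2]
  have h0 := sh_ne M
  have e3 : sh M ^ ((c + i) ^ 2 + 2 * (c + i)) = (-1) ^ j * (sh M ^ ((c + i + j) ^ 2 + 2 * (c + i + j)) *
      sh M ^ ((j : ℤ) * (j + 1))) := by
    have h1 : (-1 : ℂ) ^ j = sh M ^ (-((2 * (M : ℤ) + 1) * j)) := by
      rw [_root_.zpow_neg, _root_.zpow_mul, sh_half, zpow_natCast, ← inv_pow]
      norm_num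
    rw [h1, ← zpow_natCast (sh M) ((c + i) ^ 2 + 2 * (c + i)),
      ← zpow_natCast (sh M) ((c + i + j) ^ 2 + 2 * (c + i + j)), ← zpow_add₀ h0, ← zpow_add₀ h0]
    congr 1
    rw [hM]
    push_cast
    ring
  rw [e3]
  ring

lemma ev_eq {c : ℕ} (hc : c + (K + 1) = M) {i : ℕ} (hi : i ≤ K) : ev (sh M) (c + i) =
    la (sh M) ((K : ℤ) - i) := by
  unfold ev la
  have e1 : sh M ^ (2 * (c + i) + 2) = -sh M ^ (-(2 * ((K : ℤ) - i) + 1)) := by
    rw [← sh_refl, ← zpow_natCast]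
    congr 1
    push_cast
    omega
  rw [e1, inv_neg, ← _root_.zpow_neg, neg_neg, neg_neg]
  ring

lemma bA_eq (v : ℂ) (n : ℤ) : bA v n = br v (2 * n) := rfl

lemma br_refl (n : ℤ) : br (sh M) (2 * (M : ℤ) + 1 - n) = br (sh M) n := by
  unfold br
  rw [sh_refl, sh_refl']
  ring

lemma br_full (n : ℤ) : br (sh M) (2 * (2 * (M : ℤ) + 1) - n) = -br (sh M) n := by
  have e1 : 2 * (2 * (M : ℤ) + 1) - n = 2 * (M : ℤ) + 1 - (n - (2 * (M : ℤ) + 1)) := by ring
  have e2 : n - (2 * (M : ℤ) + 1) = -(2 * (M : ℤ) + 1 - n) := by ring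
  rw [e1, br_refl, e2, br_neg, br_refl]

lemma crv_eq {c : ℕ} (hc : c + (K + 1) = M) : crv (K + 1) c (sh M) = Zt (sh M) K := by
  ext i j
  have hi := i.2
  have hj := j.2
  unfold crv Zt
  by_cases h1 : (i : ℕ) = j + 1
  · rw [if_pos h1, if_pos h1]
  · rw [if_neg h1, if_neg h1]
    by_cases h2 : (i : ℕ) + 1 = j
    · rw [if_pos h2, if_pos h2]
      unfold Pf
      simp only [bA_eq]
      have hz : ((j : ℕ) : ℤ) = (i : ℕ) + 1 := by omega
      have hcz : (c : ℤ) = (M : ℤ) - K - 1 := by omega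
      have e1 : 2 * ((j : ℕ) : ℤ) = 2 * ((K : ℤ) - ((K : ℤ) - 1 - (i : ℕ))) := by omega
      have e2 : 2 * (2 * (c : ℤ) + (j : ℕ) + 1) =
          2 * (2 * (M : ℤ) + 1) - 2 * ((K : ℤ) + ((K : ℤ) - 1 - (i : ℕ)) + 2) := by omega
      have e3 : 2 * ((c : ℤ) + (j : ℕ)) = 2 * (M : ℤ) + 1 - (2 * ((K : ℤ) - 1 - (i : ℕ)) + 3) + 2 - 2 := by
        omega
      have e4 : 2 * ((c : ℤ) + (j : ℕ) + 1) = 2 * (M : ℤ) + 1 - (2 * ((K : ℤ) - 1 - (i : ℕ)) + 1) := by
        omega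
      rw [e1, e2, e3, e4, add_sub_cancel_right, br_full, br_refl, br_refl]
      ring
    · rw [if_neg h2, if_neg h2]
      by_cases h3 : (i : ℕ) = j ∧ (i : ℕ) = K
      · rw [if_pos ⟨h3.1, by omega⟩, if_pos h3]
        have e1 : sh M ^ (2 * c + 1) = -sh M ^ (-(2 * (K : ℤ) + 2)) := by
          rw [← sh_refl, ← zpow_natCast]
          congr 1
          push_cast
          omega
        rw [e1, inv_neg, ← _root_.zpow_neg, neg_neg]
        unfold br
        rw [_root_.zpow_neg (sh M) 1, _root_.zpow_one]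
        congr 1
        ring
      · rw [if_neg (fun h => h3 ⟨h.1, by omega⟩), if_neg h3]

/-- the interpolation polynomial -/
noncomputable def PI (M K c : ℕ) : ℂ[X] :=
  Lagrange.interpolate Finset.univ (fun i : Fin (K + 1) => ev (sh M) (c + i))
    fun i : Fin (K + 1) => mu (sh M) (c + i)

lemma PI_eval {c : ℕ} (hc : c + (K + 1) = M) (j : ℕ) (hj : j ≤ K) :
    (PI M K c).eval (la (sh M) j) = xi M * sh M ^ ((j : ℤ) * (j + 1)) := by
  have hN := sh_Nz (M := M) (K := K) (by omega)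
  set i : Fin (K + 1) := ⟨K - j, by omega⟩ with hi
  have hz : (K : ℤ) - ((i : ℕ) : ℤ) = j := by
    rw [hi]
    simp only
    omega
  have h1 : la (sh M) j = ev (sh M) (c + i) := by
    rw [ev_eq hc (by omega), hz]
  have hinj : Set.InjOn (fun i : Fin (K + 1) => ev (sh M) (c + i))
      ((Finset.univ : Finset (Fin (K + 1))) : Set (Fin (K + 1))) := by
    intro a _ b _ hab
    by_contra hne
    have ha := a.2
    have hb := b.2
    have h2 : (a : ℕ) ≠ b := fun h => hne (Fin.ext h)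
    simp only at hab
    rw [ev_eq hc (by omega), ev_eq hc (by omega)] at hab
    exact la_ne (K := K) (sh_ne M) hN (i := a) (e := b) (by omega) (by omega) h2
      (sub_eq_zero.2 hab)
  have h3 := Lagrange.eval_interpolate_at_node (fun i : Fin (K + 1) => mu (sh M) (c + i)) hinj
    (Finset.mem_univ i)
  rw [h1]
  unfold PI
  rw [h3, mu_eq hc (by omega), hz]

/-- the twists in the model -/
lemma mer_Sm {c : ℕ} (hc : c + (K + 1) = M) : Sm (sh M) K * mer (K + 1) c (sh M) =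
    (xi M • T1 (sh M) K) * Sm (sh M) K := by
  have hN := sh_Nz (M := M) (K := K) (by omega)
  have hK : Nz (sh M) K := fun l h0 hl => hN l h0 (by omega)
  rw [Matrix.smul_mul, T1_Sm (sh_ne M) hN, ← Matrix.mul_smul]
  congr 1
  unfold mer
  ext i j
  have hi := i.2
  rw [Matrix.smul_apply]
  by_cases h : i = j
  · subst h
    rw [Matrix.diagonal_apply_eq, Matrix.diagonal_apply_eq, mu_eq hc (by omega), smul_eq_mul,
      T1_diag (sh_ne M) hK]
  · rw [Matrix.diagonal_apply_ne _ h, Matrix.diagonal_apply_ne _ h, smul_zero]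

lemma cor_Sm {c : ℕ} (hc : c + (K + 1) = M) : Sm (sh M) K * cor (K + 1) c (sh M) =
    (xi M • (tp (sh M) K ^ K • (T2 (sh M) K)⁻¹)) * Sm (sh M) K := by
  have hN := sh_Nz (M := M) (K := K) (by omega)
  have hK : Nz (sh M) K := fun l h0 hl => hN l h0 (by omega)
  have h1 := T2_Sm (sh_ne M) hN (fun j hj => PI_eval hc j hj)
  have h2 : aeval (Um (sh M) K) (PI M K c) =
      xi M • (tp (sh M) K ^ K • (T2 (sh M) K)⁻¹) := by
    have h3 := congrArg (fun X => (T2 (sh M) K)⁻¹ * X) h1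
    simp only [← Matrix.mul_assoc, Matrix.nonsing_inv_mul _ (T2_unit (sh_ne M) hK),
      Matrix.one_mul, Matrix.mul_smul, Matrix.mul_one] at h3
    rw [h3, smul_smul]
    congr 2
    unfold tp
    rw [← pow_mul, ← zpow_natCast]
    congr 1
    push_cast
    ring
  have h4 := aeval_conj (Um_Sm (sh_ne M) hN) (PI M K c)
  rw [← h2, h4]
  congr 1
  unfold cor
  rw [crv_eq hc]
  rfl

/-- **the traces** -/
theorem rho_trace {c : ℕ} (hc : c + (K + 1) = M) (hK : Nz (sh M) K) (w : List (Bool × Bool)) :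
    ‖(rho (K + 1) c (sh M) w).trace‖ = ‖gT (sh_ne M) hK w‖ := by
  have hN := sh_Nz (M := M) (K := K) (by omega)
  have hS := Sm_unit (sh_ne M) hN (sh_br2 (M := M) (K := K) (by omega))
  have hx : xi M ≠ 0 := by
    intro h
    have := xi_norm M
    rw [h, norm_zero] at this
    exact zero_ne_one this
  set S := Sm (sh M) K with hSdef
  set a := gA (sh_ne M) hK with ha
  set b := gB (sh_ne M) hK with hb
  have hm : S * mer (K + 1) c (sh M) = (xi M • (b : Matrix (Fin (K + 1)) (Fin (K + 1)) ℂ)) * S :=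
    mer_Sm hc
  have hc' : S * cor (K + 1) c (sh M) = (xi M • (a : Matrix (Fin (K + 1)) (Fin (K + 1)) ℂ)) * S :=
    cor_Sm hc
  have hinv : ∀ (X : Matrix (Fin (K + 1)) (Fin (K + 1)) ℂ)
      (g : (Matrix (Fin (K + 1)) (Fin (K + 1)) ℂ)ˣ),
      S * X = (xi M • (g : Matrix (Fin (K + 1)) (Fin (K + 1)) ℂ)) * S →
      S * X⁻¹ = ((xi M)⁻¹ • ((g⁻¹ : (Matrix (Fin (K + 1)) (Fin (K + 1)) ℂ)ˣ) :
        Matrix (Fin (K + 1)) (Fin (K + 1)) ℂ)) * S := by
    intro X g hX
    have h1 : X = S⁻¹ * ((xi M • (g : Matrix (Fin (K + 1)) (Fin (K + 1)) ℂ)) * S) := by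
      rw [← hX, ← Matrix.mul_assoc, Matrix.nonsing_inv_mul _ hS, Matrix.one_mul]
    have h2 : X * (S⁻¹ * (((xi M)⁻¹ • ((g⁻¹ : (Matrix (Fin (K + 1)) (Fin (K + 1)) ℂ)ˣ) :
        Matrix (Fin (K + 1)) (Fin (K + 1)) ℂ)) * S)) = 1 := by
      rw [h1]
      calc S⁻¹ * ((xi M • (g : Matrix (Fin (K + 1)) (Fin (K + 1)) ℂ)) * S) *
            (S⁻¹ * (((xi M)⁻¹ • ((g⁻¹ : (Matrix (Fin (K + 1)) (Fin (K + 1)) ℂ)ˣ) :
              Matrix (Fin (K + 1)) (Fin (K + 1)) ℂ)) * S))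
          = S⁻¹ * ((xi M • (g : Matrix (Fin (K + 1)) (Fin (K + 1)) ℂ)) * (S * S⁻¹) *
            ((xi M)⁻¹ • ((g⁻¹ : (Matrix (Fin (K + 1)) (Fin (K + 1)) ℂ)ˣ) :
              Matrix (Fin (K + 1)) (Fin (K + 1)) ℂ))) * S := by simp only [Matrix.mul_assoc]
        _ = 1 := by
          rw [Matrix.mul_nonsing_inv _ hS, Matrix.mul_one]
          simp only [Matrix.smul_mul, Matrix.mul_smul, smul_smul, mul_inv_cancel₀ hx,
            inv_mul_cancel₀ hx, one_smul, Units.mul_inv, Matrix.mul_one,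
            Matrix.nonsing_inv_mul _ hS]
    rw [Matrix.inv_eq_right_inv h2, ← Matrix.mul_assoc, Matrix.mul_nonsing_inv _ hS, Matrix.one_mul]
  have hxi : ∀ z : ℂ, ‖(xi M)⁻¹ * z‖ = ‖z‖ := fun z => by
    rw [norm_mul, norm_inv, xi_norm, inv_one, one_mul]
  have key : ∃ s : ℂ, ‖s‖ = 1 ∧ S * rho (K + 1) c (sh M) w =
      (s • ((vlu a b w : (Matrix (Fin (K + 1)) (Fin (K + 1)) ℂ)ˣ) :
        Matrix (Fin (K + 1)) (Fin (K + 1)) ℂ)) * S := by
    induction w with
    | nil => exact ⟨1, norm_one, by simp [rho, vlu]⟩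
    | cons l w ih =>
      obtain ⟨s, hs, hs2⟩ := ih
      have e1 : vlu a b (l :: w) = (if l.1 then b else a) ^ (if l.2 then (1 : ℤ) else -1) *
          vlu a b w := by simp [vlu]
      have e2 : rho (K + 1) c (sh M) (l :: w) = ltr (K + 1) c (sh M) l * rho (K + 1) c (sh M) w := by
        simp [rho]
      have h3 : ∃ z : ℂ, ‖z‖ = 1 ∧ S * ltr (K + 1) c (sh M) l =
          (z • (((if l.1 then b else a) ^ (if l.2 then (1 : ℤ) else -1) :
            (Matrix (Fin (K + 1)) (Fin (K + 1)) ℂ)ˣ) :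
              Matrix (Fin (K + 1)) (Fin (K + 1)) ℂ)) * S := by
        unfold ltr
        rcases l with ⟨_ | _, _ | _⟩
        · refine ⟨(xi M)⁻¹, by rw [norm_inv, xi_norm, inv_one], ?_⟩
          simp only [Bool.false_eq_true, if_false, _root_.zpow_neg, _root_.zpow_one]
          exact hinv _ _ hc'
        · refine ⟨xi M, xi_norm M, ?_⟩
          simp only [Bool.false_eq_true, if_false, if_true, _root_.zpow_one]
          exact hc'
        · refine ⟨(xi M)⁻¹, by rw [norm_inv, xi_norm, inv_one], ?_⟩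
          simp only [Bool.false_eq_true, if_false, if_true, _root_.zpow_neg, _root_.zpow_one]
          exact hinv _ _ hm
        · refine ⟨xi M, xi_norm M, ?_⟩
          simp only [if_true, _root_.zpow_one]
          exact hm
      obtain ⟨z, hz, hz2⟩ := h3
      refine ⟨z * s, by rw [norm_mul, hz, hs, one_mul], ?_⟩
      rw [e1, e2, ← Matrix.mul_assoc, hz2, Matrix.mul_assoc, hs2, Units.val_mul, Matrix.smul_mul,
        Matrix.smul_mul, Matrix.mul_smul, smul_smul, Matrix.smul_mul, Matrix.mul_assoc]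
  obtain ⟨s, hs, hs2⟩ := key
  have h4 : rho (K + 1) c (sh M) w = S⁻¹ *
      ((s • ((vlu a b w : (Matrix (Fin (K + 1)) (Fin (K + 1)) ℂ)ˣ) :
        Matrix (Fin (K + 1)) (Fin (K + 1)) ℂ)) * S) := by
    rw [← hs2, ← Matrix.mul_assoc, Matrix.nonsing_inv_mul _ hS, Matrix.one_mul]
  rw [h4, Matrix.trace_mul_comm, Matrix.mul_assoc, Matrix.mul_nonsing_inv _ hS, Matrix.mul_one,
    Matrix.trace_smul, norm_smul, hs, one_mul]
  rfl

end

end Pool.Agent.H62.TB
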