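import Pool.Agent.H62.TB.Brg
import Pool.Agent.H62.TV.Red

/-!
Exponential growth for the bundles of tori with one hole.
-/

set_option autoImplicit false

namespace Pool.Agent.H62.TB

open Finset Matrix
open Pool.Agent.Y482.CY (Nz)
open Pool.Agent.H62.TV (vlu sh sh_ne sh_norm sh_sub Xm Bm Pr alt wd Ok)
open scoped Real

section
variable {M K : ℕ}

/-- the trace of a word in `s_2`, `s_1⁻¹` -/
lemma gT_Bm {v : ℂ} (hv1 : ‖v‖ = 1) (hv : v ≠ 0) (hK : Nz v K) (w : List Bool) :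
    ‖gT hv hK (w.map fun c => (c, c))‖ = ‖∑ d ∈ range (K + 1), Bm v (tp v K) K w d d‖ := by
  have ht1 : ‖(tp v K ^ K)⁻¹‖ = 1 := by
    unfold tp
    rw [norm_inv, norm_pow, norm_pow, hv1, one_pow, one_pow, inv_one]
  have key : ∃ s : ℂ, ‖s‖ = 1 ∧
      ((vlu (gA hv hK) (gB hv hK) (w.map fun c => (c, c)) :
        (Matrix (Fin (K + 1)) (Fin (K + 1)) ℂ)ˣ) : Matrix (Fin (K + 1)) (Fin (K + 1)) ℂ) =
      s • (w.map fun l => Xm v K l * diagonal fun d : Fin (K + 1) => tp v K ^ (K - (d : ℕ))).prod := by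
    induction w with
    | nil => exact ⟨1, norm_one, by simp [vlu]⟩
    | cons l w ih =>
      obtain ⟨s, hs, hs2⟩ := ih
      have e1 : vlu (gA hv hK) (gB hv hK) ((l :: w).map fun c => (c, c)) =
          (if l then gB hv hK else gA hv hK) ^ (if l then (1 : ℤ) else -1) *
          vlu (gA hv hK) (gB hv hK) (w.map fun c => (c, c)) := by simp [vlu]
      rw [e1, Units.val_mul, hs2, List.map_cons, List.prod_cons]
      cases l
      · refine ⟨(tp v K ^ K)⁻¹ * s, by rw [norm_mul, ht1, hs, one_mul], ?_⟩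
        simp only [Bool.false_eq_true, if_false, _root_.zpow_neg, _root_.zpow_one]
        change ((tp v K ^ K)⁻¹ • T2 v K) * _ = _
        rw [Matrix.smul_mul, Matrix.mul_smul, smul_smul]
        rfl
      · refine ⟨s, hs, ?_⟩
        simp only [if_true, _root_.zpow_one]
        rw [Matrix.mul_smul]
        rfl
  obtain ⟨s, hs, hs2⟩ := key
  unfold gT
  rw [hs2, Pool.Agent.H62.TV.prod_Bm, Matrix.trace_smul, norm_smul, hs, one_mul, Matrix.trace]
  simp only [Matrix.diag_apply, Matrix.of_apply]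
  rw [Fin.sum_univ_eq_sum_range fun d => Bm v (tp v K) K w d d]

lemma norm_pow_sub_one_le {v : ℂ} (hv : ‖v‖ = 1) (n : ℕ) : ‖v ^ n - 1‖ ≤ n * ‖v - 1‖ := by
  induction n with
  | zero => simp
  | succ n ih =>
    have e1 : v ^ (n + 1) - 1 = v ^ n * (v - 1) + (v ^ n - 1) := by ring
    rw [e1]
    refine (norm_add_le _ _).trans ?_
    rw [norm_mul, norm_pow, hv, one_pow, one_mul]
    push_cast
    linarith

/-- the parameters -/
lemma pr_sh {e : ℝ} (he0 : 0 < e) (he1 : e ≤ 1 / 40)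
    (hK : (K : ℝ) + 1 ≤ e ^ 2 * (2 * M + 1) / 1000) (hN : Nz (sh M) K) :
    Pr (sh M) (tp (sh M) K) K e := by
  have hr : (0 : ℝ) < 2 * M + 1 := by positivity
  have hpi := Real.pi_lt_d2
  have hpi0 := Real.pi_pos
  have h0 : (0 : ℝ) ≤ K := Nat.cast_nonneg K
  have h1 := sh_sub M
  have hb : ((K : ℝ) + 1) * ‖sh M - 1‖ ≤ e ^ 2 * π / 1000 := by
    calc ((K : ℝ) + 1) * ‖sh M - 1‖ ≤ (e ^ 2 * (2 * M + 1) / 1000) * (π / (2 * M + 1 : ℝ)) :=
          mul_le_mul hK h1 (norm_nonneg _) (by positivity)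
      _ = e ^ 2 * π / 1000 := by field_simp
  have hs : e ^ 2 * π / 1000 ≤ e / 8 := by nlinarith
  refine ⟨sh_norm M, hN, ?_, he0, he1, ?_, ?_, ?_⟩
  · unfold tp
    rw [norm_pow, sh_norm, one_pow]
  · unfold tp
    have h2 := norm_pow_sub_one_le (sh_norm M) (K + 1)
    push_cast at h2
    linarith
  · have h2 := norm_pow_sub_one_le (sh_norm M) 2
    push_cast at h2
    have h3 : (K : ℝ) * ‖sh M ^ 2 - 1‖ ≤ 2 * (((K : ℝ) + 1) * ‖sh M - 1‖) := by
      calc (K : ℝ) * ‖sh M ^ 2 - 1‖ ≤ (K : ℝ) * (2 * ‖sh M - 1‖) :=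
            mul_le_mul_of_nonneg_left h2 h0
        _ ≤ 2 * (((K : ℝ) + 1) * ‖sh M - 1‖) := by
          have := norm_nonneg (sh M - 1)
          nlinarith
    have h4 : 0 < e ^ 2 := by positivity
    nlinarith
  · have := norm_nonneg (sh M - 1)
    nlinarith

/-- the Turaev-Viro invariant of the bundle -/
noncomputable def tvt (w : List (Bool × Bool)) (r : ℕ) : ℝ :=
  ∑ c ∈ range ((r - 1) / 2), ‖(rho ((r - 1) / 2 - c) c (Complex.exp (Complex.I * ((π / (r : ℝ) : ℝ) : ℂ)))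
    w).trace‖ ^ 2

lemma tvt_eq (w : List (Bool × Bool)) (M : ℕ) : tvt w (2 * M + 1) =
    ∑ c ∈ range M, ‖(rho (M - c) c (sh M) w).trace‖ ^ 2 := by
  unfold tvt sh
  have e1 : (2 * M + 1 - 1) / 2 = M := by omega
  rw [e1]
  push_cast
  rfl

lemma tvt_ge (w : List (Bool × Bool)) (hKM : K + 1 ≤ M) (hK : Nz (sh M) K) :
    ‖gT (sh_ne M) hK w‖ ^ 2 ≤ tvt w (2 * M + 1) := by
  rw [tvt_eq, ← rho_trace (M := M) (K := K) (c := M - (K + 1)) (by omega) hK w]
  have h := Finset.single_le_sum (f := fun c => ‖(rho (M - c) c (sh M) w).trace‖ ^ 2)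
    (fun c _ => by positivity) (Finset.mem_range.2 (show M - (K + 1) < M by omega))
  have e1 : M - (M - (K + 1)) = K + 1 := by omega
  rw [e1] at h
  exact h

/-- one level -/
theorem tvt_one {A : ℕ} (hA : 1 ≤ A) {l : List (ℕ × ℕ)} (hl : Ok A l) (hne : l ≠ [])
    {u : List (Bool × Bool)} {i : ℤ}
    (h : ∀ (G : Type) [Group G] (x y : G), x * y * x = y * x * y → ∃ g : G,
      vlu x y u = g * ((x * y * x) ^ (2 * i) * vlu x y (wd l)) * g⁻¹)
    {e : ℝ} (he : e = 1 / (10 ^ 11 * ((A : ℝ) + 1) ^ 3))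
    (hK : (K : ℝ) + 1 ≤ e ^ 2 * (2 * M + 1) / 1000) (hK2 : 1000000 ≤ K) :
    ((1 / 10) * ((5 / 3) ^ l.length) ^ K) ^ 2 ≤ tvt u (2 * M + 1) := by
  have hA0 : (0 : ℝ) ≤ A := Nat.cast_nonneg A
  have hA1 : (1 : ℝ) ≤ (A : ℝ) + 1 := by linarith
  have hA3 : (1 : ℝ) ≤ ((A : ℝ) + 1) ^ 3 := one_le_pow₀ hA1
  have he0 : 0 < e := by rw [he]; positivity
  have he1 : e ≤ 1 / 40 := by
    rw [he, div_le_div_iff₀ (by positivity) (by norm_num)]
    nlinarith
  have heA : e * ((A : ℝ) + 1) ^ 3 ≤ 1 / 10 ^ 11 := by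
    rw [he]
    apply le_of_eq
    field_simp
  have hKM : 2 * (K + 1) ≤ 2 * M + 1 := by
    have h1 : e ^ 2 ≤ 1 := by nlinarith
    have h2 : (0 : ℝ) ≤ 2 * M + 1 := by positivity
    have : (2 : ℝ) * (K + 1) ≤ 2 * M + 1 := by nlinarith
    exact_mod_cast this
  have hN : Nz (sh M) K := fun l h0 hl => sh_Nz (M := M) (K := K) (by omega) l h0 (by omega)
  have hpr := pr_sh he0 he1 hK hN
  have h1 := Pool.Agent.H62.TV.trace_alt hpr hK2 hA heA hl hne
  rw [← gT_Bm (sh_norm M) (sh_ne M) hN] at h1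
  have h3 : ‖gT (sh_ne M) hN u‖ = ‖gT (sh_ne M) hN (wd l)‖ := gT_conj (sh_norm M) (sh_ne M) hN h
  unfold wd at h3
  rw [← h3] at h1
  exact (pow_le_pow_left₀ (by positivity) h1 2).trans (tvt_ge u (by omega) hN)

lemma log_ten : Real.log 10 ≤ 5 / 2 := by
  rw [Real.log_le_iff_le_exp (by norm_num)]
  have h5 : Real.exp (5 / 2) = Real.exp 1 ^ 2 * Real.exp (1 / 2) := by
    rw [← Real.exp_nat_mul, ← Real.exp_add]; norm_num
  have h6 := Real.exp_one_gt_d9
  have h7 := Real.add_one_le_exp (1 / 2 : ℝ)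
  rw [h5]
  nlinarith

lemma log_five_thirds : 1 / 2 ≤ Real.log (5 / 3) := by
  rw [Real.le_log_iff_exp_le (by norm_num)]
  have h5 : Real.exp (1 / 2) ^ 2 = Real.exp 1 := by
    rw [← Real.exp_nat_mul]; norm_num
  have h6 := Real.exp_one_lt_d9
  have h7 := Real.exp_pos (1 / 2)
  by_contra hcon
  push Not at hcon
  nlinarith

/-- **exponential growth** -/
theorem tvt_growth {A : ℕ} (hA : 1 ≤ A) {l : List (ℕ × ℕ)} (hl : Ok A l) (hne : l ≠ [])
    {u : List (Bool × Bool)} {i : ℤ}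
    (h : ∀ (G : Type) [Group G] (x y : G), x * y * x = y * x * y → ∃ g : G,
      vlu x y u = g * ((x * y * x) ^ (2 * i) * vlu x y (wd l)) * g⁻¹)
    {r : ℕ} (hodd : Odd r) (hr : 10 ^ 32 * (A + 1) ^ 6 ≤ r) :
    (l.length : ℝ) / (2 * 10 ^ 24 * ((A : ℝ) + 1) ^ 6) ≤
      2 * π / ((r : ℝ) - 2) * Real.log (tvt u r) := by
  have hA0 : (0 : ℝ) ≤ A := Nat.cast_nonneg A
  obtain ⟨M, rfl⟩ := hodd
  set e : ℝ := 1 / (10 ^ 11 * ((A : ℝ) + 1) ^ 3) with he
  have he0 : 0 < e := by rw [he]; positivity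
  have hn1 : (1 : ℝ) ≤ l.length := by exact_mod_cast List.length_pos_iff.2 hne
  set n : ℝ := (l.length : ℝ) with hn
  have hrc : ((2 * M + 1 : ℕ) : ℝ) = 2 * (M : ℝ) + 1 := by push_cast; ring
  have he2 : e ^ 2 = 1 / (10 ^ 22 * ((A : ℝ) + 1) ^ 6) := by
    rw [he]
    field_simp
  have hr1 : (10 : ℝ) ^ 32 * ((A : ℝ) + 1) ^ 6 ≤ 2 * (M : ℝ) + 1 := by
    rw [← hrc]
    exact_mod_cast hr
  clear hr
  set X : ℝ := e ^ 2 * (2 * (M : ℝ) + 1) / 1000 with hX
  have hX7 : 10 ^ 7 ≤ X := by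
    rw [hX, he2]
    have h1 : (0 : ℝ) < 10 ^ 22 * ((A : ℝ) + 1) ^ 6 := by positivity
    rw [le_div_iff₀ (by norm_num), one_div, inv_mul_eq_div, le_div_iff₀ h1]
    have h2 : (10 : ℝ) ^ 7 * 1000 * (10 ^ 22 * ((A : ℝ) + 1) ^ 6) = 10 ^ 32 * ((A : ℝ) + 1) ^ 6 := by
      ring
    rw [h2]
    exact hr1
  set K : ℕ := ⌊X⌋₊ - 1 with hKdef
  have hfl1 : (⌊X⌋₊ : ℝ) ≤ X := Nat.floor_le (by linarith)
  have hfl2 : X < ⌊X⌋₊ + 1 := Nat.lt_floor_add_one X
  have hfl3 : 1000001 ≤ ⌊X⌋₊ := by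
    have : (1000001 : ℝ) < ⌊X⌋₊ := by linarith
    have : 1000001 < ⌊X⌋₊ := by exact_mod_cast this
    omega
  have hK0 : (K : ℝ) + 1 = ⌊X⌋₊ := by
    rw [hKdef]
    push_cast [Nat.cast_sub (show 1 ≤ ⌊X⌋₊ by omega)]
    ring
  have key := tvt_one (M := M) (K := K) hA hl hne h he (by rw [hK0]; exact hfl1) (by omega)
  have hlhs : 0 < ((1 / 10) * ((5 / 3 : ℝ) ^ l.length) ^ K) ^ 2 := by positivity
  have hlg := Real.log_le_log hlhs key
  have e1 : Real.log (((1 / 10) * ((5 / 3 : ℝ) ^ l.length) ^ K) ^ 2) =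
      2 * (-Real.log 10 + K * (l.length * Real.log (5 / 3))) := by
    rw [Real.log_pow, Real.log_mul (by norm_num) (by positivity), Real.log_pow, Real.log_pow,
      one_div, Real.log_inv]
    push_cast
    ring
  rw [e1] at hlg
  have hl10 := log_ten
  have hl53 := log_five_thirds
  have hKn : n * K ≤ 2 * (K * (l.length * Real.log (5 / 3))) := by
    have h5 : 0 ≤ n * K := by positivity
    have h6 : n * K * (1 / 2) ≤ n * K * Real.log (5 / 3) := mul_le_mul_of_nonneg_left hl53 h5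
    have h7 : 2 * (K * (l.length * Real.log (5 / 3))) = 2 * (n * K * Real.log (5 / 3)) := by
      rw [hn]; ring
    rw [h7]
    linarith
  have hKX : n * (X - 2) ≤ n * K := mul_le_mul_of_nonneg_left (by linarith) (by linarith)
  have hfin : n * (X - 7) ≤ Real.log (tvt u (2 * M + 1)) := by nlinarith
  set r : ℝ := ((2 * M + 1 : ℕ) : ℝ) with hrdef
  have hA6 : (1 : ℝ) ≤ ((A : ℝ) + 1) ^ 6 := one_le_pow₀ (by linarith)
  have hr2 : 0 < r - 2 := by
    rw [hrc]
    nlinarith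
  have hpi := Real.pi_gt_three
  have e3 : n / (2 * 10 ^ 24 * ((A : ℝ) + 1) ^ 6) = n * e ^ 2 / 200 := by
    rw [he2]
    field_simp
    norm_num
  rw [e3]
  have h6 : 2 * π / (r - 2) * (n * (X - 7)) ≤
      2 * π / (r - 2) * Real.log (tvt u (2 * M + 1)) :=
    mul_le_mul_of_nonneg_left hfin (by positivity)
  refine le_trans ?_ h6
  rw [div_mul_eq_mul_div, le_div_iff₀ hr2]
  have h7 : 0 ≤ n * e ^ 2 := by positivity
  have hXr : X = e ^ 2 * r / 1000 := by rw [hX, hrc]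
  have h8 : n * e ^ 2 / 200 * (r - 2) ≤ n * e ^ 2 / 200 * r :=
    mul_le_mul_of_nonneg_left (by linarith) (by positivity)
  have h9 : n * e ^ 2 / 200 * r = 5 * (n * X) := by rw [hXr]; ring
  have h10 : 5 * (n * X) ≤ 2 * π * (n * (X - 7)) := by
    have h11 : 5 * X ≤ 2 * π * (X - 7) := by nlinarith
    have h12 := mul_le_mul_of_nonneg_left h11 (show 0 ≤ n by linarith)
    linarith
  linarith

/-- **growth for the powers** -/
theorem tvt_pow (u : List (Bool × Bool))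
    (htr : 2 < |(Pool.Agent.V11115.VC.mat (u.map Pool.Agent.H62.TV.enc)).trace|) (k : ℕ)
    (hk : 1 ≤ k) {r : ℕ} (hodd : Odd r) (hr : 10 ^ 32 * (u.length + 1) ^ 6 ≤ r) :
    (k : ℝ) / (2 * 10 ^ 24 * ((u.length : ℝ) + 1) ^ 6) ≤ 2 * π / ((r : ℝ) - 2) *
      Real.log (tvt (List.replicate k u).flatten r) := by
  obtain ⟨i, l, h1, h2, h3⟩ := Pool.Agent.H62.TV.pA_pow u htr
  have hA : 1 ≤ u.length := by
    cases l with
    | nil => exact absurd rfl h1
    | cons a l =>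
      have := h2 a List.mem_cons_self
      omega
  have hlen : (List.replicate k l).flatten.length = k * l.length := by
    simp [List.length_flatten]
  have hl1 : 1 ≤ l.length := List.length_pos_iff.2 h1
  have hne : (List.replicate k l).flatten ≠ [] := by
    intro h
    have h4 := congrArg List.length h
    rw [hlen, List.length_nil] at h4
    have := Nat.mul_pos hk hl1
    omega
  have hok : Ok u.length (List.replicate k l).flatten := by
    intro a ha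
    rw [List.mem_flatten] at ha
    obtain ⟨l', hl', ha'⟩ := ha
    rw [List.eq_of_mem_replicate hl'] at ha'
    exact h2 a ha'
  have h4 := tvt_growth hA hok hne (h3 k) hodd hr
  refine le_trans ?_ h4
  refine div_le_div_of_nonneg_right ?_ (by positivity)
  rw [hlen]
  exact_mod_cast Nat.le_mul_of_pos_right k hl1

end

end Pool.Agent.H62.TB
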