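import Pool.Agent.H62.TV.QB

/-!
Two bidiagonal matrices which satisfy the Askey-Wilson relations.
-/

set_option autoImplicit false

namespace Pool.Agent.H62.TB

open Finset Matrix
open Pool.Agent.H550R3.Jones (br brf)
open Pool.Agent.Y482.CY (sb Nz)

variable {v : ℂ} {K : ℕ}

/-- the eigenvalues -/
noncomputable def la (v : ℂ) (j : ℤ) : ℂ := v ^ (2 * j + 1) + v ^ (-(2 * j + 1))

/-- the entry below the diagonal -/
noncomputable def lo (v : ℂ) (K : ℕ) (d : ℤ) : ℂ :=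
  v ^ (K : ℤ) * br v d * (v ^ ((K : ℤ) - d + 1) + v ^ (-((K : ℤ) - d + 1)))

/-- the entry above the diagonal -/
noncomputable def hi (v : ℂ) (K : ℕ) (d : ℤ) : ℂ :=
  -(v ^ (-(K : ℤ)) * br v ((K : ℤ) - d) * (v ^ (d + 1) + v ^ (-(d + 1))))

/-- the lower operator on functions -/
noncomputable def Lf (v : ℂ) (K : ℕ) (y : ℤ → ℂ) (d : ℤ) : ℂ :=
  la v ((K : ℤ) - d) * y d + lo v K d * y (d - 1)

/-- the upper operator on functions -/
noncomputable def Uf (v : ℂ) (K : ℕ) (y : ℤ → ℂ) (d : ℤ) : ℂ :=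
  la v d * y d + hi v K d * y (d + 1)

lemma coefP (hv : v ≠ 0) (n : ℤ) : ∃ X : ℂ, X ≠ 0 ∧ v ^ n = X := ⟨v ^ n, zpow_ne_zero _ hv, rfl⟩

/-- the first relation -/
lemma awf1 (hv : v ≠ 0) (y : ℤ → ℂ) (d : ℤ) : Lf v K (Lf v K (Uf v K y)) d -
    (v ^ 2 + (v ^ 2)⁻¹) * Lf v K (Uf v K (Lf v K y)) d + Uf v K (Lf v K (Lf v K y)) d =
    -(v ^ 2 - (v ^ 2)⁻¹) ^ 2 * Uf v K y d := by
  unfold Lf Uf
  have e1 : d - 1 + 1 = d := by ring
  have e2 : d + 1 - 1 = d := by ring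
  have e3 : d - 1 - 1 = d - 2 := by ring
  simp only [e1, e2, e3]
  unfold la lo hi br
  have hX : v ^ d ≠ 0 := zpow_ne_zero _ hv
  have hZ : v ^ (K : ℤ) ≠ 0 := zpow_ne_zero _ hv
  simp only [mul_sub, mul_add, two_mul, neg_add_rev, neg_sub, zpow_add₀ hv, zpow_sub₀ hv,
    _root_.zpow_neg, _root_.zpow_one, mul_one]
  generalize v ^ d = X at *
  generalize v ^ (K : ℤ) = Z at *
  field_simp
  ring

/-- the second relation -/
lemma awf2 (hv : v ≠ 0) (y : ℤ → ℂ) (d : ℤ) : Uf v K (Uf v K (Lf v K y)) d -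
    (v ^ 2 + (v ^ 2)⁻¹) * Uf v K (Lf v K (Uf v K y)) d + Lf v K (Uf v K (Uf v K y)) d =
    -(v ^ 2 - (v ^ 2)⁻¹) ^ 2 * Lf v K y d := by
  unfold Lf Uf
  have e1 : d - 1 + 1 = d := by ring
  have e2 : d + 1 - 1 = d := by ring
  have e3 : d + 1 + 1 = d + 2 := by ring
  simp only [e1, e2, e3]
  unfold la lo hi br
  have hX : v ^ d ≠ 0 := zpow_ne_zero _ hv
  have hZ : v ^ (K : ℤ) ≠ 0 := zpow_ne_zero _ hv
  simp only [mul_sub, mul_add, two_mul, neg_add_rev, neg_sub, zpow_add₀ hv, zpow_sub₀ hv,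
    _root_.zpow_neg, _root_.zpow_one, mul_one]
  generalize v ^ d = X at *
  generalize v ^ (K : ℤ) = Z at *
  field_simp
  ring

/-- the lower bidiagonal matrix -/
noncomputable def Lm (v : ℂ) (K : ℕ) : Matrix (Fin (K + 1)) (Fin (K + 1)) ℂ := fun d e =>
  if (d : ℕ) = e then la v ((K : ℤ) - (d : ℕ)) else if (d : ℕ) = e + 1 then lo v K (d : ℕ) else 0

/-- the upper bidiagonal matrix -/
noncomputable def Um (v : ℂ) (K : ℕ) : Matrix (Fin (K + 1)) (Fin (K + 1)) ℂ := fun d e =>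
  if (d : ℕ) = e then la v (d : ℕ) else if (d : ℕ) + 1 = e then hi v K (d : ℕ) else 0

/-- a vector as a function -/
noncomputable def ex {K : ℕ} (x : Fin (K + 1) → ℂ) (d : ℤ) : ℂ :=
  if h : 0 ≤ d ∧ d ≤ K then x ⟨d.toNat, by omega⟩ else 0

lemma ex_nat (x : Fin (K + 1) → ℂ) (d : Fin (K + 1)) : ex x ((d : ℕ) : ℤ) = x d := by
  unfold ex
  have := d.2
  rw [dif_pos (by omega)]
  congr 1

lemma br_zero (v : ℂ) : br v 0 = 0 := by simp [br]

lemma Lm_ex (x : Fin (K + 1) → ℂ) (d : Fin (K + 1)) : (Lm v K *ᵥ x) d = Lf v K (ex x) (d : ℕ) := by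
  unfold Lf
  rw [ex_nat]
  change ∑ e, Lm v K d e * x e = _
  by_cases hd : (d : ℕ) = 0
  · have h1 : lo v K ((d : ℕ) : ℤ) = 0 := by
      unfold lo
      rw [hd]
      simp [br_zero]
    rw [h1, zero_mul, add_zero, Finset.sum_eq_single d]
    · unfold Lm
      rw [if_pos rfl]
    · intro e _ he
      unfold Lm
      rw [if_neg (fun h => he (Fin.ext h.symm)), if_neg (by omega), zero_mul]
    · intro h
      exact absurd (mem_univ _) h
  · have hd2 := d.2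
    set d' : Fin (K + 1) := ⟨d - 1, by omega⟩ with hd'
    have h1 : ex x (((d : ℕ) : ℤ) - 1) = x d' := by
      rw [← ex_nat x d', hd']
      congr 1
      push_cast [Nat.cast_sub (show 1 ≤ (d : ℕ) by omega)]
      rfl
    have hne : d ≠ d' := by
      intro h
      have := congrArg Fin.val h
      rw [hd'] at this
      simp only at this
      omega
    rw [h1, Finset.sum_eq_add d d' hne]
    · unfold Lm
      rw [if_pos rfl, if_neg (by rw [hd']; simp only; omega), if_pos (by rw [hd']; simp only; omega)]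
    · intro e _ he
      unfold Lm
      rw [if_neg (fun h => he.1 (Fin.ext h.symm)), if_neg (fun h => he.2 (by
        ext
        rw [hd']
        simp only
        omega)), zero_mul]
    · intro h
      exact absurd (mem_univ _) h
    · intro h
      exact absurd (mem_univ _) h

lemma Um_ex (x : Fin (K + 1) → ℂ) (d : Fin (K + 1)) : (Um v K *ᵥ x) d = Uf v K (ex x) (d : ℕ) := by
  unfold Uf
  rw [ex_nat]
  change ∑ e, Um v K d e * x e = _
  have hd2 := d.2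
  by_cases hd : (d : ℕ) = K
  · have h1 : hi v K ((d : ℕ) : ℤ) = 0 := by
      unfold hi
      rw [hd]
      simp [br_zero]
    rw [h1, zero_mul, add_zero, Finset.sum_eq_single d]
    · unfold Um
      rw [if_pos rfl]
    · intro e _ he
      have := e.2
      unfold Um
      rw [if_neg (fun h => he (Fin.ext h.symm)), if_neg (by omega), zero_mul]
    · intro h
      exact absurd (mem_univ _) h
  · set d' : Fin (K + 1) := ⟨d + 1, by omega⟩ with hd'
    have h1 : ex x (((d : ℕ) : ℤ) + 1) = x d' := by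
      rw [← ex_nat x d', hd']
      congr 1
    have hne : d ≠ d' := by
      intro h
      have := congrArg Fin.val h
      rw [hd'] at this
      simp only at this
      omega
    rw [h1, Finset.sum_eq_add d d' hne]
    · unfold Um
      rw [if_pos rfl, if_neg (by rw [hd']; simp only; omega), if_pos (by rw [hd'])]
    · intro e _ he
      unfold Um
      rw [if_neg (fun h => he.1 (Fin.ext h.symm)), if_neg (fun h => he.2 (by
        ext
        rw [hd']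
        simp only
        omega)), zero_mul]
    · intro h
      exact absurd (mem_univ _) h
    · intro h
      exact absurd (mem_univ _) h

lemma Lf_loc {y y' : ℤ → ℂ} (h : ∀ d : ℤ, 0 ≤ d → d ≤ K → y d = y' d) {d : ℤ} (h0 : 0 ≤ d)
    (h1 : d ≤ K) : Lf v K y d = Lf v K y' d := by
  unfold Lf
  rw [h d h0 h1]
  rcases h0.lt_or_eq with h2 | h2
  · rw [h (d - 1) (by omega) (by omega)]
  · subst h2
    have h1 : lo v K 0 = 0 := by
      unfold lo
      simp [br_zero]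
    rw [h1, zero_mul, zero_mul]

lemma Uf_loc {y y' : ℤ → ℂ} (h : ∀ d : ℤ, 0 ≤ d → d ≤ K → y d = y' d) {d : ℤ} (h0 : 0 ≤ d)
    (h1 : d ≤ K) : Uf v K y d = Uf v K y' d := by
  unfold Uf
  rw [h d h0 h1]
  rcases h1.lt_or_eq with h2 | h2
  · rw [h (d + 1) (by omega) (by omega)]
  · have h1 : hi v K d = 0 := by
      unfold hi
      rw [h2]
      simp [br_zero]
    rw [h1, zero_mul, zero_mul]

lemma ex_Lm (x : Fin (K + 1) → ℂ) (d : ℤ) (h0 : 0 ≤ d) (h1 : d ≤ K) :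
    ex (Lm v K *ᵥ x) d = Lf v K (ex x) d := by
  obtain ⟨n, rfl⟩ := Int.eq_ofNat_of_zero_le h0
  have h2 := Lm_ex (v := v) x ⟨n, by omega⟩
  rw [← h2, ← ex_nat (Lm v K *ᵥ x) ⟨n, by omega⟩]

lemma ex_Um (x : Fin (K + 1) → ℂ) (d : ℤ) (h0 : 0 ≤ d) (h1 : d ≤ K) :
    ex (Um v K *ᵥ x) d = Uf v K (ex x) d := by
  obtain ⟨n, rfl⟩ := Int.eq_ofNat_of_zero_le h0
  have h2 := Um_ex (v := v) x ⟨n, by omega⟩
  rw [← h2, ← ex_nat (Um v K *ᵥ x) ⟨n, by omega⟩]

lemma mat_ext {n : Type} [Fintype n] [DecidableEq n] {A B : Matrix n n ℂ}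
    (h : ∀ x d, (A *ᵥ x) d = (B *ᵥ x) d) : A = B := by
  ext i j
  have := h (Pi.single j 1) i
  rwa [Matrix.mulVec_single_one, Matrix.mulVec_single_one, Matrix.col_apply, Matrix.col_apply] at this

/-- **the Askey-Wilson relations** -/
theorem aw1 (hv : v ≠ 0) : Lm v K * Lm v K * Um v K -
    (v ^ 2 + (v ^ 2)⁻¹) • (Lm v K * Um v K * Lm v K) + Um v K * Lm v K * Lm v K =
    (-(v ^ 2 - (v ^ 2)⁻¹) ^ 2) • Um v K := by
  apply mat_ext
  intro x d
  have hd := d.2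
  have h0 : (0 : ℤ) ≤ ((d : ℕ) : ℤ) := by omega
  have h1 : ((d : ℕ) : ℤ) ≤ K := by omega
  rw [Matrix.add_mulVec, Matrix.sub_mulVec, Matrix.smul_mulVec, Matrix.smul_mulVec,
    ← Matrix.mulVec_mulVec, ← Matrix.mulVec_mulVec, ← Matrix.mulVec_mulVec, ← Matrix.mulVec_mulVec,
    ← Matrix.mulVec_mulVec, ← Matrix.mulVec_mulVec, Pi.add_apply, Pi.sub_apply, Pi.smul_apply,
    Pi.smul_apply, smul_eq_mul, smul_eq_mul, Um_ex, Um_ex, Lm_ex, Lm_ex]
  rw [← awf1 hv (ex x) (d : ℕ)]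
  congr 1
  · congr 1
    · refine Lf_loc (fun e he0 he1 => ?_) h0 h1
      rw [ex_Lm _ _ he0 he1]
      exact Lf_loc (fun f hf0 hf1 => ex_Um _ _ hf0 hf1) he0 he1
    · congr 1
      refine Lf_loc (fun e he0 he1 => ?_) h0 h1
      rw [ex_Um _ _ he0 he1]
      exact Uf_loc (fun f hf0 hf1 => ex_Lm _ _ hf0 hf1) he0 he1
  · refine Uf_loc (fun e he0 he1 => ?_) h0 h1
    rw [ex_Lm _ _ he0 he1]
    exact Lf_loc (fun f hf0 hf1 => ex_Lm _ _ hf0 hf1) he0 he1

theorem aw2 (hv : v ≠ 0) : Um v K * Um v K * Lm v K -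
    (v ^ 2 + (v ^ 2)⁻¹) • (Um v K * Lm v K * Um v K) + Lm v K * Um v K * Um v K =
    (-(v ^ 2 - (v ^ 2)⁻¹) ^ 2) • Lm v K := by
  apply mat_ext
  intro x d
  have hd := d.2
  have h0 : (0 : ℤ) ≤ ((d : ℕ) : ℤ) := by omega
  have h1 : ((d : ℕ) : ℤ) ≤ K := by omega
  rw [Matrix.add_mulVec, Matrix.sub_mulVec, Matrix.smul_mulVec, Matrix.smul_mulVec,
    ← Matrix.mulVec_mulVec, ← Matrix.mulVec_mulVec, ← Matrix.mulVec_mulVec, ← Matrix.mulVec_mulVec,
    ← Matrix.mulVec_mulVec, ← Matrix.mulVec_mulVec, Pi.add_apply, Pi.sub_apply, Pi.smul_apply,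
    Pi.smul_apply, smul_eq_mul, smul_eq_mul, Um_ex, Um_ex, Lm_ex, Lm_ex]
  rw [← awf2 hv (ex x) (d : ℕ)]
  congr 1
  · congr 1
    · refine Uf_loc (fun e he0 he1 => ?_) h0 h1
      rw [ex_Um _ _ he0 he1]
      exact Uf_loc (fun f hf0 hf1 => ex_Lm _ _ hf0 hf1) he0 he1
    · congr 1
      refine Uf_loc (fun e he0 he1 => ?_) h0 h1
      rw [ex_Lm _ _ he0 he1]
      exact Lf_loc (fun f hf0 hf1 => ex_Um _ _ hf0 hf1) he0 he1
  · refine Lf_loc (fun e he0 he1 => ?_) h0 h1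
    rw [ex_Um _ _ he0 he1]
    exact Uf_loc (fun f hf0 hf1 => ex_Um _ _ hf0 hf1) he0 he1

end Pool.Agent.H62.TB
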