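import Pool.Agent.H62.TB.Bi
import Pool.Agent.H62.TV.Conn

/-!
The two letters commute with the bidiagonal matrices.
-/

set_option autoImplicit false

namespace Pool.Agent.H62.TB

open Finset Matrix
open Pool.Agent.H550R3.Jones (br brf)
open Pool.Agent.Y482.CY (sb Nz)
open Pool.Agent.H62.TV (qb brf_succ brf_ne Nz_mono qb_gt qb_self xl Xm)

variable {v : ℂ} {K : ℕ}

lemma qbr1 {d f : ℕ} (hd : Nz v (d + 1)) (hf : f ≤ d) :
    qb v (d + 1) f * br v ((d : ℤ) + 1 - f) = br v ((d : ℤ) + 1) * qb v d f := by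
  unfold qb sb
  rw [if_pos (by omega), if_pos hf]
  obtain ⟨k, rfl⟩ : ∃ k, d = f + k := ⟨d - f, by omega⟩
  have e1 : f + k + 1 - f = k + 1 := by omega
  have e2 : f + k - f = k := by omega
  have e3 : ((f + k : ℕ) : ℤ) + 1 - f = (k : ℤ) + 1 := by push_cast; ring
  rw [e1, e2, e3, brf_succ (f + k), brf_succ k]
  have p1 := brf_ne (Nz_mono hd (show f ≤ f + k + 1 by omega))
  have p2 := brf_ne (Nz_mono hd (show k ≤ f + k + 1 by omega))
  have p4 : br v ((k : ℤ) + 1) ≠ 0 := by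
    have := hd (k + 1) (by omega) (by omega)
    push_cast at this
    exact this
  field_simp

lemma qbr2 {d f : ℕ} (hd : Nz v d) (hf : f ≤ d) :
    qb v d (f + 1) * br v ((f : ℤ) + 1) = qb v d f * br v ((d : ℤ) - f) := by
  rcases hf.lt_or_eq with h | h
  · unfold qb sb
    rw [if_pos (by omega), if_pos hf]
    obtain ⟨k, rfl⟩ : ∃ k, d = f + 1 + k := ⟨d - (f + 1), by omega⟩
    have e1 : f + 1 + k - (f + 1) = k := by omega
    have e2 : f + 1 + k - f = k + 1 := by omega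
    have e3 : ((f + 1 + k : ℕ) : ℤ) - f = (k : ℤ) + 1 := by push_cast; ring
    rw [e1, e2, e3, brf_succ f, brf_succ k]
    have p1 := brf_ne (Nz_mono hd (show f ≤ f + 1 + k by omega))
    have p2 := brf_ne (Nz_mono hd (show k ≤ f + 1 + k by omega))
    have p3 : br v ((f : ℤ) + 1) ≠ 0 := by
      have := hd (f + 1) (by omega) (by omega)
      push_cast at this
      exact this
    have p4 : br v ((k : ℤ) + 1) ≠ 0 := by
      have := hd (k + 1) (by omega) (by omega)
      push_cast at this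
      exact this
    field_simp
  · subst h
    rw [qb_gt (Nat.lt_succ_self f), sub_self, br_zero, zero_mul, mul_zero]

/-- the parameter -/
noncomputable def tp (v : ℂ) (K : ℕ) : ℂ := v ^ (K + 1)

/-- the letter `s_2` -/
noncomputable def T1 (v : ℂ) (K : ℕ) : Matrix (Fin (K + 1)) (Fin (K + 1)) ℂ :=
  Xm v K true * diagonal fun d : Fin (K + 1) => tp v K ^ (K - (d : ℕ))

/-- the letter `s_1⁻¹` -/
noncomputable def T2 (v : ℂ) (K : ℕ) : Matrix (Fin (K + 1)) (Fin (K + 1)) ℂ :=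
  Xm v K false * diagonal fun d : Fin (K + 1) => tp v K ^ (K - (d : ℕ))

lemma tp_pow {f : ℕ} (hf : f ≤ K) : tp v K ^ (K - f) = v ^ (((K : ℤ) + 1) * ((K : ℤ) - f)) := by
  unfold tp
  rw [← pow_mul, ← zpow_natCast]
  congr 1
  push_cast [Nat.cast_sub hf]
  ring

lemma T1_apply (hv : v ≠ 0) (d f : Fin (K + 1)) : T1 v K d f =
    v ^ (-(((f : ℕ) : ℤ) * ((K : ℤ) - (d : ℕ))) + ((K : ℤ) + 1) * ((K : ℤ) - (f : ℕ))) *
      qb v d f := by
  have hf := f.2
  unfold T1
  rw [Matrix.mul_diagonal, Xm, Matrix.of_apply, xl, if_pos rfl, tp_pow (by omega), zpow_add₀ hv]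
  ring

lemma T2_apply (hv : v ≠ 0) (d f : Fin (K + 1)) : T2 v K d f =
    v ^ (((d : ℕ) : ℤ) * ((K : ℤ) - (f : ℕ)) + ((K : ℤ) + 1) * ((K : ℤ) - (f : ℕ))) *
      qb v (K - d) (K - f) := by
  have hf := f.2
  unfold T2
  rw [Matrix.mul_diagonal, Xm, Matrix.of_apply, xl, if_neg (by simp), tp_pow (by omega),
    zpow_add₀ hv]
  ring

lemma mul_Lm (A : Matrix (Fin (K + 1)) (Fin (K + 1)) ℂ) (d f : Fin (K + 1)) :
    (A * Lm v K) d f = A d f * la v ((K : ℤ) - (f : ℕ)) +
      (if h : (f : ℕ) + 1 < K + 1 then A d ⟨f + 1, h⟩ * lo v K ((f : ℕ) + 1) else 0) := by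
  rw [Matrix.mul_apply]
  by_cases h : (f : ℕ) + 1 < K + 1
  · rw [dif_pos h]
    set f' : Fin (K + 1) := ⟨f + 1, h⟩ with hf'
    have hne : f ≠ f' := by
      intro h
      have := congrArg Fin.val h
      rw [hf'] at this
      simp only at this
      omega
    rw [Finset.sum_eq_add f f' hne]
    · unfold Lm
      rw [if_pos rfl, if_neg (by rw [hf']; simp only; omega), if_pos (by rw [hf'])]
      congr 2
    · intro e _ he
      unfold Lm
      rw [if_neg (fun h => he.1 (Fin.ext h)), if_neg (fun h => he.2 (by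
        ext
        rw [hf']
        simp only
        omega)), mul_zero]
    · intro h
      exact absurd (mem_univ _) h
    · intro h
      exact absurd (mem_univ _) h
  · rw [dif_neg h, add_zero, Finset.sum_eq_single f]
    · unfold Lm
      rw [if_pos rfl]
    · intro e _ he
      have := e.2
      unfold Lm
      rw [if_neg (fun h => he (Fin.ext h)), if_neg (by omega), mul_zero]
    · intro h
      exact absurd (mem_univ _) h

lemma Lm_mul (A : Matrix (Fin (K + 1)) (Fin (K + 1)) ℂ) (d f : Fin (K + 1)) :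
    (Lm v K * A) d f = la v ((K : ℤ) - (d : ℕ)) * A d f +
      (if h : 0 < (d : ℕ) then lo v K (d : ℕ) * A ⟨d - 1, by omega⟩ f else 0) := by
  rw [Matrix.mul_apply]
  by_cases h : 0 < (d : ℕ)
  · rw [dif_pos h]
    set d' : Fin (K + 1) := ⟨d - 1, by omega⟩ with hd'
    have hne : d ≠ d' := by
      intro h
      have := congrArg Fin.val h
      rw [hd'] at this
      simp only at this
      omega
    rw [Finset.sum_eq_add d d' hne]
    · unfold Lm
      rw [if_pos rfl, if_neg (by rw [hd']; simp only; omega), if_pos (by rw [hd']; simp only; omega)]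
    · intro e _ he
      unfold Lm
      rw [if_neg (fun h => he.1 (Fin.ext h.symm)), if_neg (fun h => he.2 (by
        ext
        rw [hd']
        simp only
        omega)), zero_mul]
    · intro h
      exact absurd (mem_univ _) h
    · intro h
      exact absurd (mem_univ _) h
  · rw [dif_neg h, add_zero, Finset.sum_eq_single d]
    · unfold Lm
      rw [if_pos rfl]
    · intro e _ he
      have := e.2
      unfold Lm
      rw [if_neg (fun h => he (Fin.ext h.symm)), if_neg (by omega), zero_mul]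
    · intro h
      exact absurd (mem_univ _) h

lemma Um_mul (A : Matrix (Fin (K + 1)) (Fin (K + 1)) ℂ) (d f : Fin (K + 1)) :
    (Um v K * A) d f = la v (d : ℕ) * A d f +
      (if h : (d : ℕ) + 1 < K + 1 then hi v K (d : ℕ) * A ⟨d + 1, h⟩ f else 0) := by
  rw [Matrix.mul_apply]
  by_cases h : (d : ℕ) + 1 < K + 1
  · rw [dif_pos h]
    set d' : Fin (K + 1) := ⟨d + 1, h⟩ with hd'
    have hne : d ≠ d' := by
      intro h
      have := congrArg Fin.val h
      rw [hd'] at this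
      simp only at this
      omega
    rw [Finset.sum_eq_add d d' hne]
    · unfold Um
      rw [if_pos rfl, if_neg (by rw [hd']; simp only; omega), if_pos (by rw [hd'])]
    · intro e _ he
      unfold Um
      rw [if_neg (fun h => he.1 (Fin.ext h.symm)), if_neg (fun h => he.2 (by
        ext
        rw [hd']
        simp only
        omega)), zero_mul]
    · intro h
      exact absurd (mem_univ _) h
    · intro h
      exact absurd (mem_univ _) h
  · rw [dif_neg h, add_zero, Finset.sum_eq_single d]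
    · unfold Um
      rw [if_pos rfl]
    · intro e _ he
      have := e.2
      unfold Um
      rw [if_neg (fun h => he (Fin.ext h.symm)), if_neg (by omega), zero_mul]
    · intro h
      exact absurd (mem_univ _) h

lemma mul_Um (A : Matrix (Fin (K + 1)) (Fin (K + 1)) ℂ) (d f : Fin (K + 1)) :
    (A * Um v K) d f = A d f * la v (f : ℕ) +
      (if h : 0 < (f : ℕ) then A d ⟨f - 1, by omega⟩ * hi v K ((f : ℕ) - 1) else 0) := by
  rw [Matrix.mul_apply]
  by_cases h : 0 < (f : ℕ)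
  · rw [dif_pos h]
    set f' : Fin (K + 1) := ⟨f - 1, by omega⟩ with hf'
    have hne : f ≠ f' := by
      intro h
      have := congrArg Fin.val h
      rw [hf'] at this
      simp only at this
      omega
    rw [Finset.sum_eq_add f f' hne]
    · unfold Um
      rw [if_pos rfl, if_neg (by rw [hf']; simp only; omega), if_pos (by rw [hf']; simp only; omega)]
      congr 2
      rw [hf']
      congr 1
      simp only
      omega
    · intro e _ he
      unfold Um
      rw [if_neg (fun h => he.1 (Fin.ext h)), if_neg (fun h => he.2 (by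
        ext
        rw [hf']
        simp only
        omega)), mul_zero]
    · intro h
      exact absurd (mem_univ _) h
    · intro h
      exact absurd (mem_univ _) h
  · rw [dif_neg h, add_zero, Finset.sum_eq_single f]
    · unfold Um
      rw [if_pos rfl]
    · intro e _ he
      have := e.2
      unfold Um
      rw [if_neg (fun h => he (Fin.ext h)), if_neg (by omega), mul_zero]
    · intro h
      exact absurd (mem_univ _) h

/-- **the first letter commutes** -/
theorem T1_comm (hv : v ≠ 0) (hK : Nz v K) : T1 v K * Lm v K = Lm v K * T1 v K := by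
  ext d f
  have hd := d.2
  have hf := f.2
  rw [mul_Lm, Lm_mul]
  rcases lt_trichotomy (f : ℕ) (d : ℕ) with h | h | h
  · rw [dif_pos (by omega), dif_pos (by omega), T1_apply hv, T1_apply hv, T1_apply hv]
    simp only
    obtain ⟨k, hk⟩ : ∃ k, (d : ℕ) = k + 1 := ⟨d - 1, by omega⟩
    have h1 := qbr1 (f := f) (Nz_mono hK (show k + 1 ≤ K by omega)) (by omega)
    have h2 := qbr2 (f := f) (Nz_mono hK (show k + 1 ≤ K by omega)) (by omega)
    rw [hk, Nat.add_sub_cancel]
    have e1 : (((k + 1 : ℕ) : ℤ)) = (k : ℤ) + 1 := by push_cast; ring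
    have e2 : (((f : ℕ) + 1 : ℕ) : ℤ) = ((f : ℕ) : ℤ) + 1 := by push_cast; ring
    rw [e1] at h2
    rw [e1, e2]
    have e3 : v ^ (-((((f : ℕ) : ℤ) + 1) * ((K : ℤ) - ((k : ℤ) + 1))) +
        ((K : ℤ) + 1) * ((K : ℤ) - (((f : ℕ) : ℤ) + 1))) =
        v ^ (-(((f : ℕ) : ℤ) * ((K : ℤ) - ((k : ℤ) + 1))) + ((K : ℤ) + 1) * ((K : ℤ) - (f : ℕ))) *
          v ^ (-((K : ℤ) - ((k : ℤ) + 1)) - ((K : ℤ) + 1)) := by
      rw [← zpow_add₀ hv]; congr 1; ring
    have e4 : v ^ (-(((f : ℕ) : ℤ) * ((K : ℤ) - (k : ℤ))) + ((K : ℤ) + 1) * ((K : ℤ) - (f : ℕ))) =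
        v ^ (-(((f : ℕ) : ℤ) * ((K : ℤ) - ((k : ℤ) + 1))) + ((K : ℤ) + 1) * ((K : ℤ) - (f : ℕ))) *
          v ^ (-((f : ℕ) : ℤ)) := by
      rw [← zpow_add₀ hv]; congr 1; ring
    rw [e3, e4]
    generalize v ^ (-(((f : ℕ) : ℤ) * ((K : ℤ) - ((k : ℤ) + 1))) +
      ((K : ℤ) + 1) * ((K : ℤ) - (f : ℕ))) = P
    have key : la v ((K : ℤ) - (f : ℕ)) - la v ((K : ℤ) - ((k : ℤ) + 1)) +
        v ^ (-((K : ℤ) - ((k : ℤ) + 1)) - ((K : ℤ) + 1)) * br v ((k : ℤ) + 1 - (f : ℕ)) *
          (v ^ (K : ℤ) * (v ^ ((K : ℤ) - (((f : ℕ) : ℤ) + 1) + 1) +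
            v ^ (-((K : ℤ) - (((f : ℕ) : ℤ) + 1) + 1)))) =
        v ^ (K : ℤ) * (v ^ ((K : ℤ) - ((k : ℤ) + 1) + 1) + v ^ (-((K : ℤ) - ((k : ℤ) + 1) + 1))) *
          v ^ (-((f : ℕ) : ℤ)) * br v ((k : ℤ) + 1 - (f : ℕ)) := by
      unfold la br
      have hX : v ^ (k : ℤ) ≠ 0 := zpow_ne_zero _ hv
      have hY : v ^ ((f : ℕ) : ℤ) ≠ 0 := zpow_ne_zero _ hv
      have hZ : v ^ (K : ℤ) ≠ 0 := zpow_ne_zero _ hv
      simp only [mul_sub, mul_add, two_mul, neg_add_rev, neg_sub, zpow_add₀ hv, zpow_sub₀ hv,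
        _root_.zpow_neg, _root_.zpow_one, mul_one]
      generalize v ^ (k : ℤ) = X at *
      generalize v ^ ((f : ℕ) : ℤ) = Y at *
      generalize v ^ (K : ℤ) = Z at *
      field_simp
      ring
    unfold lo
    linear_combination (P * qb v (k + 1) f) * key +
      (P * v ^ (-((K : ℤ) - ((k : ℤ) + 1)) - ((K : ℤ) + 1)) *
        (v ^ (K : ℤ) * (v ^ ((K : ℤ) - (((f : ℕ) : ℤ) + 1) + 1) +
            v ^ (-((K : ℤ) - (((f : ℕ) : ℤ) + 1) + 1))))) * h2 +
      (P * v ^ (-((f : ℕ) : ℤ)) * v ^ (K : ℤ) *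
        (v ^ ((K : ℤ) - ((k : ℤ) + 1) + 1) + v ^ (-((K : ℤ) - ((k : ℤ) + 1) + 1)))) * h1
  · have hfd : f = d := Fin.ext h
    subst hfd
    have h1 : (if h : (f : ℕ) + 1 < K + 1 then T1 v K f ⟨f + 1, h⟩ * lo v K ((f : ℕ) + 1) else 0) =
        0 := by
      split_ifs with h2
      · rw [T1_apply hv, qb_gt (by simp only; omega), mul_zero, zero_mul]
      · rfl
    have h2 : (if h : 0 < (f : ℕ) then lo v K (f : ℕ) * T1 v K ⟨f - 1, by omega⟩ f else 0) = 0 := by
      split_ifs with h2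
      · rw [T1_apply hv, qb_gt (by simp only; omega), mul_zero, mul_zero]
      · rfl
    rw [h1, h2]
    ring
  · have h0 : T1 v K d f = 0 := by rw [T1_apply hv, qb_gt h, mul_zero]
    have h1 : (if h : (f : ℕ) + 1 < K + 1 then T1 v K d ⟨f + 1, h⟩ * lo v K ((f : ℕ) + 1) else 0) =
        0 := by
      split_ifs with h2
      · rw [T1_apply hv, qb_gt (by simp only; omega), mul_zero, zero_mul]
      · rfl
    have h2 : (if h : 0 < (d : ℕ) then lo v K (d : ℕ) * T1 v K ⟨d - 1, by omega⟩ f else 0) = 0 := by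
      split_ifs with h2
      · rw [T1_apply hv, qb_gt (by simp only; omega), mul_zero, mul_zero]
      · rfl
    rw [h0, h1, h2]
    ring

/-- **the second letter commutes** -/
theorem T2_comm (hv : v ≠ 0) (hK : Nz v K) : Um v K * T2 v K = T2 v K * Um v K := by
  ext d f
  have hd := d.2
  have hf := f.2
  rw [mul_Um, Um_mul]
  rcases lt_trichotomy (d : ℕ) (f : ℕ) with h | h | h
  · rw [dif_pos (by omega), dif_pos (by omega), T2_apply hv, T2_apply hv, T2_apply hv]
    simp only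
    obtain ⟨D, hD⟩ : ∃ D, K - (d : ℕ) = D + 1 := ⟨K - d - 1, by omega⟩
    obtain ⟨F, hF⟩ : ∃ F, K - (f : ℕ) = F := ⟨_, rfl⟩
    have c1 : ((d : ℕ) : ℤ) = (K : ℤ) - D - 1 := by omega
    have c2 : ((f : ℕ) : ℤ) = (K : ℤ) - F := by omega
    have h1 := qbr1 (f := F) (Nz_mono hK (show D + 1 ≤ K by omega)) (by omega)
    have h2 := qbr2 (f := F) (Nz_mono hK (show D + 1 ≤ K by omega)) (by omega)
    have e0 : K - ((d : ℕ) + 1) = D := by omega
    have e0' : K - ((f : ℕ) - 1) = F + 1 := by omega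
    have e1 : (((D + 1 : ℕ) : ℤ)) = (D : ℤ) + 1 := by push_cast; ring
    have e2 : (((d : ℕ) + 1 : ℕ) : ℤ) = (K : ℤ) - D := by omega
    have e2' : (((f : ℕ) - 1 : ℕ) : ℤ) = (K : ℤ) - F - 1 := by omega
    rw [e1] at h2
    rw [e0, e0', hD, hF, e2, e2', c1, c2]
    have e3 : v ^ (((K : ℤ) - D) * ((K : ℤ) - ((K : ℤ) - F)) +
        ((K : ℤ) + 1) * ((K : ℤ) - ((K : ℤ) - F))) =
        v ^ (((K : ℤ) - D - 1) * ((K : ℤ) - ((K : ℤ) - F)) +
          ((K : ℤ) + 1) * ((K : ℤ) - ((K : ℤ) - F))) * v ^ (F : ℤ) := by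
      rw [← zpow_add₀ hv]; congr 1; ring
    have e4 : v ^ (((K : ℤ) - D - 1) * ((K : ℤ) - ((K : ℤ) - F - 1)) +
        ((K : ℤ) + 1) * ((K : ℤ) - ((K : ℤ) - F - 1))) =
        v ^ (((K : ℤ) - D - 1) * ((K : ℤ) - ((K : ℤ) - F)) +
          ((K : ℤ) + 1) * ((K : ℤ) - ((K : ℤ) - F))) * v ^ (2 * (K : ℤ) - D) := by
      rw [← zpow_add₀ hv]; congr 1; ring
    rw [e3, e4]
    generalize v ^ (((K : ℤ) - D - 1) * ((K : ℤ) - ((K : ℤ) - F)) +
          ((K : ℤ) + 1) * ((K : ℤ) - ((K : ℤ) - F))) = P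
    have key : la v ((K : ℤ) - D - 1) - la v ((K : ℤ) - F) -
        v ^ (F : ℤ) * br v ((D : ℤ) + 1 - F) * (v ^ (-(K : ℤ)) *
          (v ^ ((K : ℤ) - D - 1 + 1) + v ^ (-((K : ℤ) - D - 1 + 1)))) =
        -(v ^ (2 * (K : ℤ) - D) * br v ((D : ℤ) + 1 - F) * (v ^ (-(K : ℤ)) *
          (v ^ ((K : ℤ) - F - 1 + 1) + v ^ (-((K : ℤ) - F - 1 + 1))))) := by
      unfold la br
      have hX : v ^ (D : ℤ) ≠ 0 := zpow_ne_zero _ hv
      have hY : v ^ (F : ℤ) ≠ 0 := zpow_ne_zero _ hv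
      have hZ : v ^ (K : ℤ) ≠ 0 := zpow_ne_zero _ hv
      simp only [mul_sub, mul_add, two_mul, neg_add_rev, neg_sub, zpow_add₀ hv, zpow_sub₀ hv,
        _root_.zpow_neg, _root_.zpow_one, mul_one]
      generalize v ^ (D : ℤ) = X at *
      generalize v ^ (F : ℤ) = Y at *
      generalize v ^ (K : ℤ) = Z at *
      field_simp
      ring
    unfold hi
    have f1 : (K : ℤ) - ((K : ℤ) - D - 1) = (D : ℤ) + 1 := by ring
    have f2 : (K : ℤ) - ((K : ℤ) - F - 1) = (F : ℤ) + 1 := by ring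
    rw [f1, f2]
    linear_combination (P * qb v (D + 1) F) * key +
      (P * v ^ (F : ℤ) * (v ^ (-(K : ℤ)) *
          (v ^ ((K : ℤ) - D - 1 + 1) + v ^ (-((K : ℤ) - D - 1 + 1))))) * h1 +
      (P * v ^ (2 * (K : ℤ) - D) * (v ^ (-(K : ℤ)) *
          (v ^ ((K : ℤ) - F - 1 + 1) + v ^ (-((K : ℤ) - F - 1 + 1))))) * h2
  · have hfd : d = f := Fin.ext h
    subst hfd
    have h1 : (if h : (d : ℕ) + 1 < K + 1 then hi v K (d : ℕ) * T2 v K ⟨d + 1, h⟩ d else 0) =
        0 := by
      split_ifs with h2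
      · rw [T2_apply hv, qb_gt (by simp only; omega), mul_zero, mul_zero]
      · rfl
    have h2 : (if h : 0 < (d : ℕ) then T2 v K d ⟨d - 1, by omega⟩ * hi v K ((d : ℕ) - 1) else 0) =
        0 := by
      split_ifs with h2
      · rw [T2_apply hv, qb_gt (by simp only; omega), mul_zero, zero_mul]
      · rfl
    rw [h1, h2]
    ring
  · have h0 : T2 v K d f = 0 := by rw [T2_apply hv, qb_gt (by omega), mul_zero]
    have h1 : (if h : (d : ℕ) + 1 < K + 1 then hi v K (d : ℕ) * T2 v K ⟨d + 1, h⟩ f else 0) =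
        0 := by
      split_ifs with h2
      · rw [T2_apply hv, qb_gt (by simp only; omega), mul_zero, mul_zero]
      · rfl
    have h2 : (if h : 0 < (f : ℕ) then T2 v K d ⟨f - 1, by omega⟩ * hi v K ((f : ℕ) - 1) else 0) =
        0 := by
      split_ifs with h2
      · rw [T2_apply hv, qb_gt (by simp only; omega), mul_zero, zero_mul]
      · rfl
    rw [h0, h1, h2]
    ring

end Pool.Agent.H62.TB
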