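import Pool.Agent.H62.TB.Gr
import Pool.Agent.H62.AX.Dich

/-!
The words which are not pseudo-Anosov: polynomial bounds.
-/

set_option autoImplicit false

namespace Pool.Agent.H62.TB

open Finset Matrix
open Pool.Agent.Y482.CY (Nz)
open Pool.Agent.H62.TV (vlu sh sh_ne sh_norm Xm Bm xl wd enc ev_enc qb_gt qb_self Nz_mono)
open Pool.Agent.H62.VC (lett conj_reduce abs_trace_even)
open Pool.Agent.H62.AX (short_pow single_of_trace trace_le)
open Pool.Agent.V11115.VC (mat)
open scoped Real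

section
variable {M K : ℕ}

lemma xl_diag {v : ℂ} (hv1 : ‖v‖ = 1) (hN : Nz v K) (b : Bool) {d : ℕ} (hd : d ≤ K) :
    ‖xl v K b d d‖ = 1 := by
  have hz : ∀ n : ℤ, ‖v ^ n‖ = 1 := fun n => by rw [norm_zpow, hv1, _root_.one_zpow]
  unfold xl
  split_ifs
  · rw [norm_mul, hz, qb_self (Nz_mono hN hd), norm_one, mul_one]
  · rw [norm_mul, hz, qb_self (Nz_mono hN (Nat.sub_le _ _)), norm_one, mul_one]

lemma Bm_true {v t : ℂ} (hv1 : ‖v‖ = 1) (ht : ‖t‖ = 1) (hN : Nz v K) (k : ℕ) :
    (∀ d e, d ≤ K → e ≤ K → d < e → Bm v t K (List.replicate k true) d e = 0) ∧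
    ∀ d, d ≤ K → ‖Bm v t K (List.replicate k true) d d‖ = 1 := by
  induction k with
  | zero =>
    refine ⟨fun d e _ _ h => ?_, fun d _ => ?_⟩
    · simp [Bm, h.ne]
    · simp [Bm]
  | succ k ih =>
    have hx : ∀ d f, d < f → xl v K true d f = 0 := by
      intro d f h
      unfold xl
      rw [if_pos rfl, qb_gt h, mul_zero]
    refine ⟨fun d e hd he h => ?_, fun d hd => ?_⟩
    · rw [List.replicate_succ, Bm]
      refine sum_eq_zero fun f hf => ?_
      rw [mem_range] at hf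
      rcases Nat.lt_or_ge d f with h1 | h1
      · rw [hx d f h1, zero_mul]
      · rw [ih.1 f e (by omega) he (by omega), mul_zero, mul_zero]
    · rw [List.replicate_succ, Bm, sum_eq_single d]
      · rw [norm_mul, norm_mul, norm_pow, ht, one_pow, one_mul, ih.2 d hd,
          xl_diag hv1 hN true hd, mul_one]
      · intro f hf hfd
        rw [mem_range] at hf
        rcases Nat.lt_or_ge d f with h1 | h1
        · rw [hx d f h1, zero_mul]
        · rw [ih.1 f d (by omega) hd (by omega), mul_zero, mul_zero]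
      · intro h
        exact absurd (mem_range.2 (by omega)) h

lemma Bm_false {v t : ℂ} (hv1 : ‖v‖ = 1) (ht : ‖t‖ = 1) (hN : Nz v K) (k : ℕ) :
    (∀ d e, d ≤ K → e ≤ K → e < d → Bm v t K (List.replicate k false) d e = 0) ∧
    ∀ d, d ≤ K → ‖Bm v t K (List.replicate k false) d d‖ = 1 := by
  induction k with
  | zero =>
    refine ⟨fun d e _ _ h => ?_, fun d _ => ?_⟩
    · simp [Bm, h.ne']
    · simp [Bm]
  | succ k ih =>
    have hx : ∀ d f, d ≤ K → f < d → xl v K false d f = 0 := by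
      intro d f hd h
      unfold xl
      rw [if_neg (by simp), qb_gt (by omega), mul_zero]
    refine ⟨fun d e hd he h => ?_, fun d hd => ?_⟩
    · rw [List.replicate_succ, Bm]
      refine sum_eq_zero fun f hf => ?_
      rw [mem_range] at hf
      rcases Nat.lt_or_ge f d with h1 | h1
      · rw [hx d f hd h1, zero_mul]
      · rw [ih.1 f e (by omega) he (by omega), mul_zero, mul_zero]
    · rw [List.replicate_succ, Bm, sum_eq_single d]
      · rw [norm_mul, norm_mul, norm_pow, ht, one_pow, one_mul, ih.2 d hd,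
          xl_diag hv1 hN false hd, mul_one]
      · intro f hf hfd
        rw [mem_range] at hf
        rcases Nat.lt_or_ge f d with h1 | h1
        · rw [hx d f hd h1, zero_mul]
        · rw [ih.1 f d (by omega) hd (by omega), mul_zero, mul_zero]
      · intro h
        exact absurd (mem_range.2 (by omega)) h

lemma Bm_sum {v t : ℂ} (hv1 : ‖v‖ = 1) (ht : ‖t‖ = 1) (hN : Nz v K) (k : ℕ) (b : Bool) :
    ‖∑ d ∈ range (K + 1), Bm v t K (List.replicate k b) d d‖ ≤ K + 1 := by
  refine (_root_.norm_sum_le _ _).trans ?_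
  have h1 : ∀ d ∈ range (K + 1), ‖Bm v t K (List.replicate k b) d d‖ ≤ 1 := by
    intro d hd
    rw [mem_range] at hd
    cases b
    · exact ((Bm_false hv1 ht hN k).2 d (by omega)).le
    · exact ((Bm_true hv1 ht hN k).2 d (by omega)).le
  refine (sum_le_sum h1).trans ?_
  simp

lemma pow_mulVec' {n : Type} [Fintype n] [DecidableEq n] {B : Matrix n n ℂ} {x : n → ℂ} {μ : ℂ}
    (h : B *ᵥ x = μ • x) (k : ℕ) : B ^ k *ᵥ x = μ ^ k • x := by
  induction k with
  | zero => simp
  | succ k ih =>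
    rw [pow_succ, ← Matrix.mulVec_mulVec, h, Matrix.mulVec_smul, ih, smul_smul, pow_succ]
    congr 1
    ring

/-- the traces of the words which are not pseudo-Anosov -/
theorem gT_nonpA {v : ℂ} (hv1 : ‖v‖ = 1) (hv : v ≠ 0) (hN : Nz v K) (u : List (Bool × Bool))
    (htr : |(mat (u.map enc)).trace| ≤ 2) : ‖gT hv hN u‖ ≤ K + 1 := by
  have hu : ∀ l ∈ u.map enc, l.1 < 2 := by
    intro l hl
    rw [List.mem_map] at hl
    obtain ⟨l', _, rfl⟩ := hl
    unfold enc
    split_ifs <;> simp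
  rcases conj_reduce (u.map enc) hu with ⟨i, X, h1, h2, h3⟩ | ⟨i, X, h1, h2⟩
  · rw [abs_trace_even h3] at htr
    obtain ⟨k, b, rfl⟩ := single_of_trace X h1 htr
    obtain ⟨w, hw⟩ := h3
    have e1 : (List.replicate k b).map lett = ((List.replicate k b).map fun c => (c, c)).map enc := by
      rw [List.map_map]
      refine List.map_congr_left fun c _ => ?_
      cases c <;> rfl
    have h4 : ‖gT hv hN u‖ = ‖gT hv hN ((List.replicate k b).map fun c => (c, c))‖ := by
      refine gT_conj hv1 hv hN (i := i) fun G _ x y hxy => ⟨Pool.Agent.V11115.VC.ev x y w, ?_⟩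
      have h5 := hw G x y hxy
      rw [_root_.zpow_zero, one_mul, e1, ev_enc, ev_enc] at h5
      exact h5
    rw [h4, gT_Bm hv1 hv hN]
    refine Bm_sum hv1 ?_ hN k b
    unfold tp
    rw [norm_pow, hv1, one_pow]
  · obtain ⟨w, hw⟩ := h2
    have h3 := hw _ (gA hv hN) (gB hv hN) (g_rel hv hN)
    rw [_root_.zpow_zero, one_mul, ev_enc] at h3
    obtain ⟨j, hj1, hj2⟩ := short_pow (g_rel hv hN) h1 i
    obtain ⟨c, hc, hc2⟩ := g_full hv1 hv hN j
    have h6 : vlu (gA hv hN) (gB hv hN) u ^ 6 = (gA hv hN * gB hv hN * gA hv hN) ^ (2 * j) := by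
      rw [h3, conj_pow, hj1, hj2 w, mul_inv_cancel_right]
    have h7 : ((vlu (gA hv hN) (gB hv hN) u : (Matrix (Fin (K + 1)) (Fin (K + 1)) ℂ)ˣ) :
        Matrix (Fin (K + 1)) (Fin (K + 1)) ℂ) ^ 6 = c • 1 := by
      rw [← Units.val_pow_eq_pow_val, h6, hc2]
    unfold gT
    set B : Matrix (Fin (K + 1)) (Fin (K + 1)) ℂ :=
      ((vlu (gA hv hN) (gB hv hN) u : (Matrix (Fin (K + 1)) (Fin (K + 1)) ℂ)ˣ) :
        Matrix (Fin (K + 1)) (Fin (K + 1)) ℂ) with hB
    have h8 := trace_le (Matrix.mulVecLin B) (fun μ x hx hT => by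
      have h4 : B *ᵥ x = μ • x := hT
      have h5 := pow_mulVec' h4 6
      rw [h7, Matrix.smul_mulVec, Matrix.one_mulVec] at h5
      have h9 : (c - μ ^ 6) • x = 0 := by rw [sub_smul, h5, sub_self]
      have h10 := (smul_eq_zero.1 h9).resolve_right hx
      have h11 : ‖μ‖ ^ 6 = 1 := by rw [← norm_pow, ← sub_eq_zero.1 h10, hc]
      exact (pow_le_one_iff_of_nonneg (norm_nonneg μ) (by norm_num)).1 h11.le)
    rw [← Matrix.toLin'_apply', Matrix.trace_toLin'_eq, Module.finrank_fin_fun] at h8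
    push_cast at h8
    exact h8

lemma sum_sq_bound (M : ℕ) : ∑ c ∈ range M, ((M : ℝ) - c) ^ 2 ≤ (M : ℝ) ^ 3 := by
  have h1 : ∀ c ∈ range M, ((M : ℝ) - c) ^ 2 ≤ (M : ℝ) ^ 2 := by
    intro c hc
    rw [mem_range] at hc
    have h2 : (c : ℝ) ≤ M := by exact_mod_cast hc.le
    have h3 : (0 : ℝ) ≤ c := Nat.cast_nonneg c
    exact pow_le_pow_left₀ (by linarith) (by linarith) 2
  refine (sum_le_sum h1).trans (le_of_eq ?_)
  rw [sum_const, card_range, nsmul_eq_mul]
  ring

/-- **the polynomial bound** -/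
theorem tvt_nonpA (u : List (Bool × Bool)) (htr : |(mat (u.map enc)).trace| ≤ 2) {r : ℕ}
    (hodd : Odd r) : 8 * tvt u r ≤ (r : ℝ) ^ 3 := by
  obtain ⟨M, rfl⟩ := hodd
  have h1 : tvt u (2 * M + 1) ≤ ∑ c ∈ range M, ((M : ℝ) - c) ^ 2 := by
    rw [tvt_eq]
    refine sum_le_sum fun c hc => ?_
    rw [mem_range] at hc
    obtain ⟨K, hK⟩ : ∃ K, M = c + (K + 1) := ⟨M - c - 1, by omega⟩
    have hN : Nz (sh M) K := fun l h0 hl => sh_Nz (M := M) (K := K) (by omega) l h0 (by omega)
    have h2 := gT_nonpA (sh_norm M) (sh_ne M) hN u htr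
    rw [← rho_trace hK.symm hN u] at h2
    have e1 : M - c = K + 1 := by omega
    have e2 : (M : ℝ) - c = K + 1 := by
      rw [hK]; push_cast; ring
    rw [e1, e2]
    exact pow_le_pow_left₀ (norm_nonneg _) h2 2
  have h2 := sum_sq_bound M
  have h3 : (0 : ℝ) ≤ M := Nat.cast_nonneg M
  push_cast
  nlinarith [pow_nonneg h3 2, pow_nonneg h3 3]

end

end Pool.Agent.H62.TB
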