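import Pool.Graph.R_seed8.W715.VC.TrPow

/-!
Power sums: the traces of the powers of a matrix and its eigenvalues (copied from
`Pool.Agent.H62.VC.Spec`, to avoid its imports).
-/

set_option autoImplicit false

namespace Pool.Agent.H62.TB.Fq

open Matrix Finset Filter Topology Pool.Agent.W715.VC

/-! ### power sums -/

/-- the property holds for a set of numbers with bounded gaps -/
def Syn (P : ℕ → Prop) : Prop := ∃ J : ℕ, ∀ m : ℕ, ∃ n : ℕ, m ≤ n ∧ n ≤ m + J ∧ P n

lemma Syn.mono {P Q : ℕ → Prop} (h : Syn P) (hPQ : ∀ n, 1 ≤ n → P n → Q n) : Syn Q := by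
  obtain ⟨J, hJ⟩ := h
  refine ⟨J + 1, fun m => ?_⟩
  obtain ⟨n, h1, h2, h3⟩ := hJ (m + 1)
  exact ⟨n, by omega, by omega, hPQ n (by omega) h3⟩

/-- recurrence on a torus -/
lemma recur (s : Finset ℂ) : Syn fun n => ∀ a ∈ s, ‖a‖ ^ n / 2 ≤ (a ^ n).re := by
  classical
  set th : ℂ → ℂ := fun a => if a = 0 then 1 else a / ‖a‖ with hth
  have hth1 : ∀ a, ‖th a‖ = 1 := by
    intro a
    simp only [hth]
    split_ifs with h
    · exact norm_one
    · rw [norm_div, Complex.norm_real, norm_norm, div_self (norm_ne_zero_iff.2 h)]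
  set F : ℕ → (s → ℂ) := fun n a => th a ^ n with hF
  have hFb : Set.range F ⊆ Metric.closedBall (0 : s → ℂ) 1 := by
    rintro _ ⟨n, rfl⟩
    rw [mem_closedBall_zero_iff, pi_norm_le_iff_of_nonneg zero_le_one]
    intro a
    simp only [hF]
    rw [norm_pow, hth1, one_pow]
  have htb : TotallyBounded (Set.range F) :=
    (isCompact_closedBall (0 : s → ℂ) 1).totallyBounded.subset hFb
  obtain ⟨t, hts, htf, hcov⟩ := htb.exists_subset (Metric.dist_mem_uniformity
    (by norm_num : (0 : ℝ) < 1 / 2))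
  -- the largest index
  have hidx : ∀ y ∈ t, ∃ j : ℕ, F j = y := fun y hy => hts hy
  choose! ix hix using hidx
  obtain ⟨J, hJ⟩ : ∃ J : ℕ, ∀ y ∈ t, ix y ≤ J := by
    obtain ⟨J, hJ⟩ := (htf.image ix).bddAbove
    exact ⟨J, fun y hy => hJ (Set.mem_image_of_mem _ hy)⟩
  refine ⟨J, fun m => ?_⟩
  have h1 := hcov (Set.mem_range_self (m + J))
  simp only [Set.mem_iUnion, Set.mem_setOf_eq] at h1
  obtain ⟨y, hy, h1⟩ := h1
  have h2 : dist (F (m + J)) (F (ix y)) < 1 / 2 := by rw [hix y hy]; exact h1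
  have hj := hJ y hy
  set j := ix y with hjdef
  refine ⟨m + J - j, by omega, by omega, fun a ha => ?_⟩
  have h2' : ‖th a ^ (m + J) - th a ^ j‖ < 1 / 2 := by
    have h3 := dist_le_pi_dist (F (m + J)) (F j) ⟨a, ha⟩
    have h4 := lt_of_le_of_lt h3 h2
    rw [dist_eq_norm] at h4
    exact h4
  have h3 : ‖th a ^ (m + J - j) - 1‖ < 1 / 2 := by
    have e1 : th a ^ (m + J) - th a ^ j = th a ^ j * (th a ^ (m + J - j) - 1) := by
      rw [mul_sub, ← pow_add, mul_one]
      congr 2
      omega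
    rw [e1, norm_mul, norm_pow, hth1, one_pow, one_mul] at h2'
    exact h2'
  have h4 : 1 / 2 ≤ (th a ^ (m + J - j)).re := by
    have h5 := Complex.abs_re_le_norm (th a ^ (m + J - j) - 1)
    rw [Complex.sub_re, Complex.one_re] at h5
    have h6 := (abs_le.1 (h5.trans h3.le)).1
    linarith
  have h5 : a ^ (m + J - j) = ((‖a‖ ^ (m + J - j) : ℝ) : ℂ) * th a ^ (m + J - j) := by
    have h6 : a = (‖a‖ : ℂ) * th a := by
      simp only [hth]
      split_ifs with h
      · rw [h]; simp
      · have : (‖a‖ : ℂ) ≠ 0 := by exact_mod_cast norm_ne_zero_iff.2 h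
        field_simp
    conv_lhs => rw [h6]
    rw [mul_pow]
    push_cast
    rfl
  rw [h5, Complex.re_ofReal_mul]
  have h6 : 0 ≤ ‖a‖ ^ (m + J - j) := by positivity
  nlinarith

/-- the traces of the powers are large for a set of powers with bounded gaps -/
lemma trace_freq {ι : Type} [Fintype ι] [DecidableEq ι] (B : Matrix ι ι ℂ) {a : ℂ}
    (ha : a ∈ B.charpoly.roots) : Syn fun n => ‖a‖ ^ n / 2 ≤ ‖(B ^ n).trace‖ := by
  classical
  refine (recur B.charpoly.roots.toFinset).mono ?_
  intro n hn1 hn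
  rw [trace_pow B (by omega)]
  refine le_trans ?_ ((le_abs_self _).trans (Complex.abs_re_le_norm _))
  obtain ⟨t, ht⟩ := Multiset.exists_cons_of_mem ha
  have h1 : ∀ t' : Multiset ℂ, (∀ b ∈ t', b ∈ B.charpoly.roots) →
      0 ≤ ((t'.map fun b => b ^ n).sum).re := by
    intro t'
    induction t' using Multiset.induction_on with
    | empty => intro _; simp
    | cons b t' ih =>
      intro h
      rw [Multiset.map_cons, Multiset.sum_cons, Complex.add_re]
      have h2 := ih fun b' hb' => h b' (Multiset.mem_cons_of_mem hb')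
      have h3 := hn b (Multiset.mem_toFinset.2 (h b (Multiset.mem_cons_self b t')))
      have h4 : 0 ≤ ‖b‖ ^ n / 2 := by positivity
      linarith
  have h2 := h1 t fun b hb => by rw [ht]; exact Multiset.mem_cons_of_mem hb
  have h3 := hn a (Multiset.mem_toFinset.2 ha)
  rw [ht, Multiset.map_cons, Multiset.sum_cons, Complex.add_re]
  linarith

/-- a root of largest absolute value -/
lemma exists_max_root {ι : Type} [Fintype ι] [DecidableEq ι] [Nonempty ι] (B : Matrix ι ι ℂ) :
    ∃ a ∈ B.charpoly.roots, ∀ b ∈ B.charpoly.roots, ‖b‖ ≤ ‖a‖ := by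
  classical
  have hcard := card_roots' B
  have hne : B.charpoly.roots.toFinset.Nonempty := by
    rw [Multiset.toFinset_nonempty]
    intro h
    rw [h, Multiset.card_zero] at hcard
    exact absurd hcard.symm Fintype.card_ne_zero
  obtain ⟨a, ha, hmax⟩ := exists_max_image _ (fun a : ℂ => ‖a‖) hne
  exact ⟨a, Multiset.mem_toFinset.1 ha, fun b hb => hmax b (Multiset.mem_toFinset.2 hb)⟩

end Pool.Agent.H62.TB.Fq
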