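import Pool.Agent.H62.TB.Brg

/-!
The representation over a field, and Galois conjugation.
-/

set_option autoImplicit false

namespace Pool.Agent.H62.TB.Gal

open Finset Matrix Polynomial

section generic
variable {F : Type} [Field F]

noncomputable def bA (A : F) (n : ℤ) : F := A ^ (2 * n) - A ^ (-(2 * n))

noncomputable def mu (A : F) (a : ℕ) : F := (-1) ^ a * A ^ (a ^ 2 + 2 * a)

noncomputable def ev (A : F) (a : ℕ) : F := -A ^ (2 * a + 2) - (A ^ (2 * a + 2))⁻¹

noncomputable def mer (n c : ℕ) (A : F) : Matrix (Fin n) (Fin n) F :=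
  diagonal fun i : Fin n => mu A (c + i)

noncomputable def crv (n c : ℕ) (A : F) : Matrix (Fin n) (Fin n) F := fun i j =>
  if (i : ℕ) = j + 1 then 1
  else if (i : ℕ) + 1 = j then
    bA A (j : ℕ) * bA A (2 * c + (j : ℕ) + 1) / (bA A (c + (j : ℕ)) * bA A (c + (j : ℕ) + 1))
  else if (i : ℕ) = j ∧ (i : ℕ) + 1 = n then (A ^ (2 * c + 1) - (A ^ (2 * c + 1))⁻¹) / (A - A⁻¹)
  else 0

noncomputable def cor (n c : ℕ) (A : F) : Matrix (Fin n) (Fin n) F :=
  aeval (crv n c A) (Lagrange.interpolate Finset.univ (fun i : Fin n => ev A (c + i))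
    fun i : Fin n => mu A (c + i))

noncomputable def ltr (n c : ℕ) (A : F) (l : Bool × Bool) : Matrix (Fin n) (Fin n) F :=
  if l.1 then (if l.2 then mer n c A else (mer n c A)⁻¹)
  else (if l.2 then cor n c A else (cor n c A)⁻¹)

noncomputable def rho (n c : ℕ) (A : F) (w : List (Bool × Bool)) : Matrix (Fin n) (Fin n) F :=
  (w.map (ltr n c A)).prod

end generic

lemma rho_complex (n c : ℕ) (A : ℂ) (w : List (Bool × Bool)) :
    rho n c A w = Pool.Agent.H62.TB.rho n c A w := rfl

section maps
variable {F K : Type} [Field F] [Field K] (f : F →+* K)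

lemma bA_map (A : F) (n : ℤ) : f (bA A n) = bA (f A) n := by
  simp [bA]

lemma mu_map (A : F) (a : ℕ) : f (mu A a) = mu (f A) a := by
  simp [mu]

lemma ev_map (A : F) (a : ℕ) : f (ev A a) = ev (f A) a := by
  simp [ev]

lemma mer_map (n c : ℕ) (A : F) : (mer n c A).map f = mer n c (f A) := by
  unfold mer
  rw [Matrix.diagonal_map (map_zero f)]
  simp only [mu_map, Function.comp_def]

lemma crv_map (n c : ℕ) (A : F) : (crv n c A).map f = crv n c (f A) := by
  ext i j
  simp only [Matrix.map_apply, crv]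
  split_ifs <;> simp [bA_map]

lemma interp_map {ι : Type} [DecidableEq ι] (s : Finset ι) (v r : ι → F) :
    (Lagrange.interpolate s v r).map f =
      Lagrange.interpolate s (fun i => f (v i)) fun i => f (r i) := by
  simp only [Lagrange.interpolate_apply, Polynomial.map_sum, Polynomial.map_mul, map_C,
    Lagrange.basis, Polynomial.map_prod, Lagrange.basisDivisor, Polynomial.map_sub, map_X,
    map_inv₀, map_sub]

lemma cor_map (n c : ℕ) (A : F) : (cor n c A).map f = cor n c (f A) := by
  unfold cor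
  have h1 := Polynomial.map_aeval_eq_aeval_map (φ := f) (ψ := f.mapMatrix (m := Fin n))
    (by
      ext x i j
      simp [Matrix.algebraMap_matrix_apply, apply_ite f])
    (Lagrange.interpolate Finset.univ (fun i : Fin n => ev A (c + i))
      fun i : Fin n => mu A (c + i)) (crv n c A)
  rw [RingHom.mapMatrix_apply, RingHom.mapMatrix_apply, crv_map, interp_map] at h1
  simp only [ev_map, mu_map] at h1
  exact h1

lemma inv_map {n : ℕ} (B : Matrix (Fin n) (Fin n) F) : (B⁻¹).map f = (B.map f)⁻¹ := by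
  rw [Matrix.inv_def, Matrix.inv_def, Ring.inverse_eq_inv', Ring.inverse_eq_inv']
  have h1 : (B.map f).det = f B.det := by
    rw [← RingHom.mapMatrix_apply, ← RingHom.map_det]
  have h2 : (B.map f).adjugate = B.adjugate.map f := by
    rw [← RingHom.mapMatrix_apply, ← RingHom.mapMatrix_apply, ← RingHom.map_adjugate]
  rw [h1, h2]
  ext i j
  simp

lemma ltr_map (n c : ℕ) (A : F) (l : Bool × Bool) : (ltr n c A l).map f = ltr n c (f A) l := by
  unfold ltr
  split_ifs
  · exact mer_map f n c A
  · rw [inv_map, mer_map]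
  · exact cor_map f n c A
  · rw [inv_map, cor_map]

lemma rho_map (n c : ℕ) (A : F) (w : List (Bool × Bool)) :
    (rho n c A w).map f = rho n c (f A) w := by
  induction w with
  | nil =>
    have e : rho n c A [] = 1 := rfl
    have e' : rho n c (f A) [] = 1 := rfl
    rw [e, e', Matrix.map_one f (map_zero f) (map_one f)]
  | cons l w ih =>
    have e : rho n c A (l :: w) = ltr n c A l * rho n c A w := by simp [rho]
    have e' : rho n c (f A) (l :: w) = ltr n c (f A) l * rho n c (f A) w := by simp [rho]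
    rw [e, e', Matrix.map_mul, ltr_map, ih]

/-- a matrix is a scalar matrix if its image is -/
lemma scalar_of_map {n : ℕ} (hn : n ≠ 0) (B : Matrix (Fin n) (Fin n) F) {lam : K}
    (h : B.map f = lam • (1 : Matrix (Fin n) (Fin n) K)) :
    ∃ x : F, B = x • (1 : Matrix (Fin n) (Fin n) F) := by
  set i0 : Fin n := ⟨0, Nat.pos_of_ne_zero hn⟩ with hi0
  have h1 : ∀ i j, f (B i j) = if i = j then lam else 0 := by
    intro i j
    have := congrFun (congrFun h i) j
    rw [Matrix.map_apply, Matrix.smul_apply, Matrix.one_apply] at this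
    rw [this]
    split_ifs <;> simp
  refine ⟨B i0 i0, ?_⟩
  ext i j
  rw [Matrix.smul_apply, Matrix.one_apply]
  apply f.injective
  rw [h1, smul_eq_mul, map_mul, h1]
  split_ifs <;> simp

end maps

/-- the two embeddings of the cyclotomic field -/
lemma exists_field {N : ℕ} (hN : 0 < N) {A A' : ℂ} (hA : IsPrimitiveRoot A N)
    (hA' : IsPrimitiveRoot A' N) : ∃ (F : Type) (_ : Field F) (z : F) (f g : F →+* ℂ),
      f z = A ∧ g z = A' := by
  haveI : Fact (Irreducible (cyclotomic N ℚ)) := ⟨cyclotomic.irreducible_rat hN⟩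
  have key : ∀ B : ℂ, IsPrimitiveRoot B N → (cyclotomic N ℚ).eval₂ (algebraMap ℚ ℂ) B = 0 := by
    intro B hB
    rw [← eval_map, map_cyclotomic]
    exact hB.isRoot_cyclotomic hN
  exact ⟨AdjoinRoot (cyclotomic N ℚ), inferInstance, AdjoinRoot.root _,
    AdjoinRoot.lift _ A (key A hA), AdjoinRoot.lift _ A' (key A' hA'),
    AdjoinRoot.lift_root _, AdjoinRoot.lift_root _⟩

/-- **Galois conjugation**: the image has finite order in the projective linear group at one
primitive root if and only if it has at another one -/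
theorem galois {N : ℕ} (hN : 0 < N) {A A' : ℂ} (hA : IsPrimitiveRoot A N)
    (hA' : IsPrimitiveRoot A' N) {n : ℕ} (hn : n ≠ 0) (c : ℕ) (w : List (Bool × Bool)) (k : ℕ)
    (h : ∀ lam : ℂ, Pool.Agent.H62.TB.rho n c A w ^ k ≠ lam • (1 : Matrix (Fin n) (Fin n) ℂ))
    (lam : ℂ) : Pool.Agent.H62.TB.rho n c A' w ^ k ≠ lam • (1 : Matrix (Fin n) (Fin n) ℂ) := by
  intro h'
  obtain ⟨F, hF, z, f, g, hf, hg⟩ := exists_field hN hA hA'
  have hpow : ∀ (φ : F →+* ℂ), (rho n c z w ^ k).map φ = rho n c (φ z) w ^ k := by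
    intro φ
    rw [← rho_map, ← RingHom.mapMatrix_apply, ← RingHom.mapMatrix_apply, map_pow]
  have h1 : (rho n c z w ^ k).map g = lam • (1 : Matrix (Fin n) (Fin n) ℂ) := by
    rw [hpow, hg, rho_complex, h']
  obtain ⟨x, hx⟩ := scalar_of_map g hn _ h1
  refine h (f x) ?_
  have h2 := hpow f
  rw [hf, rho_complex] at h2
  rw [← h2, hx]
  ext i j
  simp [Matrix.one_apply, apply_ite f]

end Pool.Agent.H62.TB.Gal
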