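import Pool.Agent.H62.TB.Freq
import Pool.Agent.H62.CYC.Fin

/-!
The spectral radius of the quantum representations of the torus with one hole.
-/

set_option autoImplicit false

namespace Pool.Agent.H62.TB.Rad

open Finset Matrix Filter Topology
open Pool.Agent.H62.TV (sh sh_ne sh_norm)
open Pool.Agent.H62.TB (rho ltr mer cor tvt tvt_eq)
open Pool.Agent.H62.CYC (sc sc_pos tends_sc tends_sc_log pw comm rho_flat Half half)
open scoped Real

/-- the absolute values of the eigenvalues -/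
def evs (u : List (Bool × Bool)) (M : ℕ) : Set ℝ :=
  {x : ℝ | ∃ c : ℕ, c < M ∧ ∃ z ∈ spectrum ℂ (rho (M - c) c (sh M) u), x = ‖z‖}

/-- the spectral radius -/
noncomputable def rad (u : List (Bool × Bool)) (M : ℕ) : ℝ := sSup (evs u M)

lemma mem_roots_iff {n : ℕ} (B : Matrix (Fin n) (Fin n) ℂ) (z : ℂ) :
    z ∈ spectrum ℂ B ↔ z ∈ B.charpoly.roots := by
  rw [Matrix.mem_spectrum_iff_isRoot_charpoly, Polynomial.mem_roots B.charpoly_monic.ne_zero]

lemma evs_finite (u : List (Bool × Bool)) (M : ℕ) : (evs u M).Finite := by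
  classical
  have h1 : evs u M ⊆ ⋃ c ∈ range M,
      ((rho (M - c) c (sh M) u).charpoly.roots.toFinset.image fun z => ‖z‖ : Finset ℝ) := by
    rintro x ⟨c, hc, z, hz, rfl⟩
    rw [mem_roots_iff] at hz
    simp only [Set.mem_iUnion]
    exact ⟨c, mem_range.2 hc, by
      rw [Finset.coe_image]
      exact ⟨z, by simpa using hz, rfl⟩⟩
  refine Set.Finite.subset ?_ h1
  exact Set.Finite.biUnion (range M).finite_toSet fun c _ => Finset.finite_toSet _

lemma evs_nonempty (u : List (Bool × Bool)) {M : ℕ} (hM : 1 ≤ M) : (evs u M).Nonempty := by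
  obtain ⟨K, hK⟩ : ∃ K, M - 0 = K + 1 := ⟨M - 1, by omega⟩
  haveI : Nonempty (Fin (M - 0)) := ⟨⟨0, by omega⟩⟩
  obtain ⟨a, ha, -⟩ := Fq.exists_max_root (rho (M - 0) 0 (sh M) u)
  exact ⟨‖a‖, 0, by omega, a, (mem_roots_iff _ _).2 ha, rfl⟩

lemma le_rad {u : List (Bool × Bool)} {M c : ℕ} (hc : c < M) {z : ℂ}
    (hz : z ∈ (rho (M - c) c (sh M) u).charpoly.roots) : ‖z‖ ≤ rad u M :=
  le_csSup (evs_finite u M).bddAbove ⟨c, hc, z, (mem_roots_iff _ _).2 hz, rfl⟩

lemma rad_mem (u : List (Bool × Bool)) {M : ℕ} (hM : 1 ≤ M) : ∃ c : ℕ, c < M ∧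
    ∃ z ∈ (rho (M - c) c (sh M) u).charpoly.roots, rad u M = ‖z‖ := by
  obtain ⟨c, hc, z, hz, h⟩ := (evs_nonempty u hM).csSup_mem (evs_finite u M)
  exact ⟨c, hc, z, (mem_roots_iff _ _).1 hz, h⟩

lemma rad_nonneg (u : List (Bool × Bool)) {M : ℕ} (hM : 1 ≤ M) : 0 ≤ rad u M := by
  obtain ⟨c, -, z, -, h⟩ := rad_mem u hM
  rw [h]
  exact norm_nonneg z

/-- the traces of the powers -/
lemma tvt_pw_le (u : List (Bool × Bool)) {M : ℕ} (hM : 1 ≤ M) {k : ℕ} (hk : 1 ≤ k) :
    tvt (pw k u) (2 * M + 1) ≤ (M : ℝ) ^ 3 * (rad u M ^ 2) ^ k := by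
  have h0 := rad_nonneg u hM
  rw [tvt_eq]
  have h1 : ∀ c ∈ range M, ‖(rho (M - c) c (sh M) (pw k u)).trace‖ ^ 2 ≤
      (M : ℝ) ^ 2 * (rad u M ^ 2) ^ k := by
    intro c hc
    rw [mem_range] at hc
    have h2 : ‖(rho (M - c) c (sh M) (pw k u)).trace‖ ≤ (M : ℝ) * rad u M ^ k := by
      unfold Pool.Agent.H62.CYC.pw
      rw [rho_flat, Pool.Agent.W715.VC.trace_pow _ (by omega)]
      have h3 : ∀ s : Multiset ℂ, (∀ z ∈ s, ‖z‖ ≤ rad u M) →
          ‖(s.map fun a => a ^ k).sum‖ ≤ s.card * rad u M ^ k := by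
        intro s
        induction s using Multiset.induction_on with
        | empty => intro _; simp
        | cons a s ih =>
          intro hs
          have h4 := ih fun z hz => hs z (Multiset.mem_cons_of_mem hz)
          have h5 := hs a (Multiset.mem_cons_self a s)
          have h6 : ‖a ^ k‖ ≤ rad u M ^ k := by
            rw [norm_pow]
            exact pow_le_pow_left₀ (norm_nonneg a) h5 k
          rw [Multiset.map_cons, Multiset.sum_cons, Multiset.card_cons]
          refine (norm_add_le _ _).trans ?_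
          push_cast
          linarith
      have h4 := h3 (rho (M - c) c (sh M) u).charpoly.roots fun z hz => le_rad hc hz
      rw [Pool.Agent.W715.VC.card_roots', Fintype.card_fin] at h4
      refine h4.trans (mul_le_mul_of_nonneg_right ?_ (pow_nonneg h0 k))
      exact_mod_cast Nat.sub_le M c
    calc ‖(rho (M - c) c (sh M) (pw k u)).trace‖ ^ 2 ≤ ((M : ℝ) * rad u M ^ k) ^ 2 :=
          pow_le_pow_left₀ (norm_nonneg _) h2 2
      _ = (M : ℝ) ^ 2 * (rad u M ^ 2) ^ k := by ring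
  refine (sum_le_sum h1).trans (le_of_eq ?_)
  rw [sum_const, card_range, nsmul_eq_mul]
  ring

/-- upper bounds for the invariants of the powers give an upper bound for the radius -/
lemma rad_le_of (u : List (Bool × Bool)) {M : ℕ} (hM : 1 ≤ M) {C K : ℝ} (hK : 0 < K)
    (h : ∀ n : ℕ, 1 ≤ n → tvt (pw n u) (2 * M + 1) ≤ C * K ^ n) : rad u M ^ 2 ≤ K := by
  obtain ⟨c, hc, z, hz, h1⟩ := rad_mem u hM
  obtain ⟨J, hJ⟩ := Fq.trace_freq _ hz
  by_contra hcon
  push Not at hcon
  have hq : 1 < rad u M ^ 2 / K := by rwa [one_lt_div hK]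
  obtain ⟨m, hm⟩ := (tendsto_pow_atTop_atTop_of_one_lt hq).eventually_gt_atTop (4 * C) |>.exists_forall_of_atTop
  obtain ⟨n, hn1, -, hn⟩ := hJ (m + 1)
  have h2 := hm n (by omega)
  have h3 : ‖(rho (M - c) c (sh M) (pw n u)).trace‖ ^ 2 ≤ tvt (pw n u) (2 * M + 1) := by
    rw [tvt_eq]
    exact single_le_sum (f := fun c => ‖(rho (M - c) c (sh M) (pw n u)).trace‖ ^ 2)
      (fun c _ => by positivity) (mem_range.2 hc)
  have h4 := h3.trans (h n (by omega))
  unfold Pool.Agent.H62.CYC.pw at h4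
  rw [rho_flat] at h4
  rw [← h1] at hn
  have h0 := rad_nonneg u hM
  have h5 : (rad u M ^ n / 2) ^ 2 ≤ ‖(rho (M - c) c (sh M) u ^ n).trace‖ ^ 2 :=
    pow_le_pow_left₀ (by positivity) hn 2
  have h6 : (rad u M ^ n / 2) ^ 2 = (rad u M ^ 2) ^ n / 4 := by ring
  rw [h6] at h5
  rw [div_pow, lt_div_iff₀ (pow_pos hK n)] at h2
  nlinarith

/-! ### determinants -/

lemma mu_norm (M a : ℕ) : ‖mu (sh M) a‖ = 1 := by
  unfold mu
  rw [norm_mul, norm_pow, norm_pow, norm_neg, norm_one, sh_norm, one_pow, one_pow, one_mul]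

lemma mer_det (M n c : ℕ) : ‖(mer n c (sh M)).det‖ = 1 := by
  unfold mer
  rw [Matrix.det_diagonal, norm_prod]
  exact Finset.prod_eq_one fun i _ => mu_norm _ _

lemma cor_det {M c K : ℕ} (hM : c + (K + 1) = M) : ‖(cor (K + 1) c (sh M)).det‖ = 1 := by
  obtain ⟨F, k, h⟩ := half M c K hM
  have h1 := congrArg Matrix.det h.sqC
  rw [Matrix.det_mul, Matrix.det_one] at h1
  rw [h.cor_eq, Matrix.det_mul, Matrix.det_mul]
  have h2 : ∀ x y : ℂ, x * x = 1 → x * y * x = y := fun x y hx => by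
    calc x * y * x = x * x * y := by ring
      _ = y := by rw [hx, one_mul]
  rw [h2 _ _ h1]
  exact mer_det _ _ _

lemma inv_det {n : ℕ} {B : Matrix (Fin n) (Fin n) ℂ} (h : ‖B.det‖ = 1) : ‖(B⁻¹).det‖ = 1 := by
  rw [Matrix.det_nonsing_inv, Ring.inverse_eq_inv', norm_inv, h, inv_one]

lemma rho_det {M c K : ℕ} (hM : c + (K + 1) = M) (u : List (Bool × Bool)) :
    ‖(rho (K + 1) c (sh M) u).det‖ = 1 := by
  induction u with
  | nil =>
    have e : rho (K + 1) c (sh M) [] = 1 := rfl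
    rw [e, Matrix.det_one, norm_one]
  | cons l u ih =>
    have e : rho (K + 1) c (sh M) (l :: u) = ltr (K + 1) c (sh M) l * rho (K + 1) c (sh M) u := by
      unfold rho
      rw [List.map_cons, List.prod_cons]
    rw [e, Matrix.det_mul, norm_mul, ih, mul_one]
    have h1 := mer_det M (K + 1) c
    have h2 := cor_det hM
    unfold ltr
    rcases l with ⟨_ | _, _ | _⟩
    · simpa using inv_det h2
    · simpa using h2
    · simpa using inv_det h1
    · simpa using h1

lemma prod_norm_le {s : Multiset ℂ} {x : ℝ} (hs : ∀ z ∈ s, ‖z‖ ≤ x) (hx : 0 ≤ x) :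
    ‖s.prod‖ ≤ x ^ s.card := by
  induction s using Multiset.induction_on with
  | empty => simp
  | cons a s ih =>
    rw [Multiset.prod_cons, Multiset.card_cons, norm_mul, pow_succ']
    exact mul_le_mul (hs a (Multiset.mem_cons_self a s))
      (ih fun z hz => hs z (Multiset.mem_cons_of_mem hz)) (norm_nonneg _) hx

lemma one_le_rad (u : List (Bool × Bool)) {M : ℕ} (hM : 1 ≤ M) : 1 ≤ rad u M := by
  by_contra hcon
  push Not at hcon
  have h1 : ∀ z ∈ (rho (M - 0) 0 (sh M) u).charpoly.roots, ‖z‖ ≤ rad u M :=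
    fun z hz => le_rad (by omega) hz
  have h2 := prod_norm_le h1 (rad_nonneg u hM)
  rw [← Matrix.det_eq_prod_roots_charpoly, Pool.Agent.W715.VC.card_roots', Fintype.card_fin] at h2
  obtain ⟨K, hK⟩ : ∃ K, M - 0 = K + 1 := ⟨M - 1, by omega⟩
  have h3 := pow_lt_one₀ (rad_nonneg u hM) hcon (show M - 0 ≠ 0 by omega)
  rw [hK] at h2 h3
  rw [rho_det (by omega)] at h2
  linarith

/-- a matrix with an eigenvalue of absolute value greater than one and a determinant of absolute
value one has infinite order in the projective linear group -/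
lemma not_scalar {n : ℕ} {B : Matrix (Fin n) (Fin n) ℂ} (hd : ‖B.det‖ = 1) {z : ℂ}
    (hz : z ∈ B.charpoly.roots) (h1 : 1 < ‖z‖) {k : ℕ} (hk : 1 ≤ k) (lam : ℂ) :
    B ^ k ≠ lam • (1 : Matrix (Fin n) (Fin n) ℂ) := by
  intro h
  have hn : n ≠ 0 := by
    rintro rfl
    have hc := Pool.Agent.W715.VC.card_roots' B
    rw [Fintype.card_fin, Multiset.card_eq_zero] at hc
    rw [hc] at hz
    exact absurd hz (Multiset.notMem_zero z)
  have hz' := (mem_roots_iff B z).2 hz
  haveI : Nonempty (Fin n) := ⟨⟨0, Nat.pos_of_ne_zero hn⟩⟩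
  have h2 : z ^ k ∈ spectrum ℂ (B ^ k) := spectrum.pow_mem_pow B k hz'
  rw [h] at h2
  have h3 : z ^ k = lam := by
    rw [← Algebra.algebraMap_eq_smul_one] at h2
    rw [spectrum.scalar_eq] at h2
    exact h2
  have h4 := congrArg Matrix.det h
  rw [Matrix.det_pow, Matrix.det_smul, Matrix.det_one, mul_one, Fintype.card_fin] at h4
  have h5 := congrArg norm h4
  rw [norm_pow, hd, one_pow, norm_pow, ← h3, norm_pow] at h5
  have h6 := one_lt_pow₀ (one_lt_pow₀ h1 (show k ≠ 0 by omega)) hn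
  linarith

/-- lower bounds for the invariants of the powers give a lower bound for the radius -/
lemma le_rad_of (u : List (Bool × Bool)) {M : ℕ} (hM : 1 ≤ M) {a : ℝ}
    (h : ∀ k : ℕ, 1 ≤ k → k * a ≤ sc M * Real.log (tvt (pw k u) (2 * M + 1))) :
    a ≤ sc M * (2 * Real.log (rad u M)) := by
  have h0 := one_le_rad u hM
  have hs := sc_pos hM
  have hM1 : (1 : ℝ) ≤ M := by exact_mod_cast hM
  have hl : 0 ≤ Real.log M := Real.log_nonneg hM1
  have hr : 0 ≤ Real.log (rad u M) := Real.log_nonneg h0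
  have key : ∀ k : ℕ, 1 ≤ k →
      k * a ≤ sc M * (3 * Real.log M) + k * (sc M * (2 * Real.log (rad u M))) := by
    intro k hk
    refine (h k hk).trans ?_
    have h1 := tvt_pw_le u hM hk
    have h4 : Real.log (tvt (pw k u) (2 * M + 1)) ≤
        3 * Real.log M + k * (2 * Real.log (rad u M)) := by
      have h5 : 0 ≤ tvt (pw k u) (2 * M + 1) := by
        rw [tvt_eq]
        exact sum_nonneg fun c _ => by positivity
      rcases h5.eq_or_lt with h6 | h6
      · rw [← h6, Real.log_zero]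
        positivity
      · have h7 := Real.log_le_log h6 h1
        rw [Real.log_mul (by positivity) (by positivity), Real.log_pow, Real.log_pow,
          Real.log_pow] at h7
        push_cast at h7
        linarith
    have h5 := mul_le_mul_of_nonneg_left h4 hs.le
    linarith
  by_contra hcon
  push Not at hcon
  set b := sc M * (2 * Real.log (rad u M)) with hb
  obtain ⟨k, hk⟩ := exists_nat_gt (sc M * (3 * Real.log M) / (a - b))
  rw [div_lt_iff₀ (by linarith)] at hk
  have h1 := key (k + 1) (by omega)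
  push_cast at h1
  nlinarith

/-- the radius is greater than one and there is a colour for which the image has infinite order -/
lemma infinite (u : List (Bool × Bool)) {M : ℕ} (hM : 1 ≤ M) (h : 1 < rad u M) :
    ∃ c : ℕ, c < M ∧ ∀ k : ℕ, 1 ≤ k → ∀ lam : ℂ,
      rho (M - c) c (sh M) u ^ k ≠ lam • (1 : Matrix (Fin (M - c)) (Fin (M - c)) ℂ) := by
  obtain ⟨c, hc, z, hz, h1⟩ := rad_mem u hM
  refine ⟨c, hc, fun k hk lam => ?_⟩
  refine not_scalar ?_ hz (by rw [← h1]; exact h) hk lam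
  obtain ⟨K, hK⟩ : ∃ K, M - c = K + 1 := ⟨M - c - 1, by omega⟩
  rw [hK]
  exact rho_det (by omega) u

/-! ### Commutators with the half twist -/

open Pool.Agent.H62.TV (vlu vlu_append) in
/-- the upper bound -/
lemma rad_comm {u w : List (Bool × Bool)} {i : ℤ} {n : ℕ} (hn : 1 ≤ n)
    (hu : ∀ (G : Type) [Group G] (x y : G), x * y * x = y * x * y → ∃ g : G,
      vlu x y u = g * ((x * y * x) ^ (2 * i) * vlu x y (comm w) ^ n) * g⁻¹) {M : ℕ} (hM : 1 ≤ M) :
    rad u M ^ 2 ≤ (32 * (M : ℝ) ^ 2 * (tvt (comm w) (2 * M + 1) + 1)) ^ n := by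
  have hM1 : (1 : ℝ) ≤ M := by exact_mod_cast hM
  have h0 : 0 ≤ tvt (comm w) (2 * M + 1) := by
    rw [tvt_eq]
    exact sum_nonneg fun c _ => by positivity
  have hpw : ∀ k : ℕ, tvt (pw k u) (2 * M + 1) = tvt (pw (n * k) (comm w)) (2 * M + 1) := by
    intro k
    refine Pool.Agent.H62.CYC.tvt_conj (i := i * k) (fun G _ x y hxy => ?_) M
    obtain ⟨g, hg⟩ := hu G x y hxy
    refine ⟨g, ?_⟩
    have hc : Commute ((x * y * x) ^ (2 * i)) (vlu x y (comm w) ^ n) :=
      (Pool.Agent.H62.CYC.full_vlu hxy i (comm w)).pow_right n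
    unfold Pool.Agent.H62.CYC.pw
    rw [Pool.Agent.H62.TV.vlu_pow, Pool.Agent.H62.TV.vlu_pow, hg, conj_pow, hc.mul_pow, ← pow_mul]
    congr 3
    rw [← zpow_natCast, ← _root_.zpow_mul]
    congr 1
    ring
  refine rad_le_of u hM (C := 9 * (M : ℝ) ^ 3) (by positivity) fun k hk => ?_
  rw [hpw k]
  refine (Pool.Agent.H62.CYC.ineq w (p := n * k) (by nlinarith) hM).1.trans (le_of_eq ?_)
  rw [← pow_mul, mul_pow (32 * (M : ℝ) ^ 2) (tvt (comm w) (2 * M + 1) + 1) (n * k)]
  ring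

/-! ### Limits -/

lemma err_tends (C : ℝ) (d : ℕ) :
    Tendsto (fun M : ℕ => sc M * (Real.log 2 + Real.log C + d * Real.log M)) atTop (𝓝 0) := by
  have h1 : Tendsto (fun M : ℕ => sc M * (Real.log 2 + Real.log C) + d * (sc M * Real.log M)) atTop
      (𝓝 (0 * (Real.log 2 + Real.log C) + d * 0)) :=
    (tends_sc.mul_const _).add (tends_sc_log.const_mul _)
  rw [zero_mul, mul_zero, add_zero] at h1
  refine h1.congr fun M => ?_
  ring

/-- two sequences with the same growth -/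
lemma equiv_lim {a b : ℕ → ℝ} {C V : ℝ} {d : ℕ} (hC : 1 ≤ C) (hV : 0 < V)
    (ha : ∀ M : ℕ, 1 ≤ M → 0 ≤ a M) (hb : ∀ M : ℕ, 1 ≤ M → 1 ≤ b M)
    (h1 : ∀ M : ℕ, 1 ≤ M → a M ≤ C * (M : ℝ) ^ d * b M)
    (h2 : ∀ M : ℕ, 1 ≤ M → b M ≤ C * (M : ℝ) ^ d * (a M + 1)) :
    Tendsto (fun M : ℕ => sc M * Real.log (a M)) atTop (𝓝 V) ↔
    Tendsto (fun M : ℕ => sc M * Real.log (b M)) atTop (𝓝 V) := by
  have he := err_tends C d
  -- the inequalities for the logarithms
  have hdiff : ∀ M : ℕ, 1 ≤ M → 1 < a M →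
      |sc M * Real.log (a M) - sc M * Real.log (b M)| ≤
        sc M * (Real.log 2 + Real.log C + d * Real.log M) := by
    intro M hM h
    have hs := sc_pos hM
    have hM1 : (1 : ℝ) ≤ M := by exact_mod_cast hM
    have hb' := hb M hM
    have a1 := Real.log_le_log (by linarith) (h1 M hM)
    rw [Real.log_mul (by positivity) (by linarith), Real.log_mul (by linarith) (by positivity),
      Real.log_pow] at a1
    have a2 := Real.log_le_log (by linarith) ((h2 M hM).trans
      (mul_le_mul_of_nonneg_left (show a M + 1 ≤ 2 * a M by linarith) (by positivity)))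
    rw [Real.log_mul (by positivity) (by linarith), Real.log_mul (by linarith) (by positivity),
      Real.log_pow, Real.log_mul two_ne_zero (by linarith)] at a2
    have a3 : 0 ≤ Real.log 2 := Real.log_nonneg (by norm_num)
    rw [← mul_sub, abs_mul, abs_of_pos hs]
    refine mul_le_mul_of_nonneg_left ?_ hs.le
    rw [abs_le]
    constructor <;> linarith
  have hfin : (∀ᶠ M : ℕ in atTop, 1 < a M) →
      Tendsto (fun M : ℕ => sc M * Real.log (a M) - sc M * Real.log (b M)) atTop (𝓝 0) := by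
    intro h
    refine squeeze_zero_norm' ?_ he
    filter_upwards [h, eventually_ge_atTop 1] with M h3 hM
    rw [Real.norm_eq_abs]
    exact hdiff M hM h3
  constructor
  · intro h
    have hgt : ∀ᶠ M : ℕ in atTop, 1 < a M := by
      filter_upwards [h.eventually (lt_mem_nhds hV), eventually_ge_atTop 1] with M a2 hM
      by_contra hcon
      have := Real.log_nonpos (ha M hM) (not_lt.1 hcon)
      have := mul_nonpos_of_nonneg_of_nonpos (sc_pos hM).le this
      linarith
    have h3 := h.sub (hfin hgt)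
    rw [sub_zero] at h3
    refine h3.congr fun M => ?_
    ring
  · intro h
    have hgt : ∀ᶠ M : ℕ in atTop, 1 < a M := by
      have h3 := h.sub he
      rw [sub_zero] at h3
      filter_upwards [h3.eventually (lt_mem_nhds hV), eventually_ge_atTop 1] with M a2 hM
      by_contra hcon
      push Not at hcon
      have hs := sc_pos hM
      have hM1 : (1 : ℝ) ≤ M := by exact_mod_cast hM
      have hb' := hb M hM
      have a3 := Real.log_le_log (by linarith) ((h2 M hM).trans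
        (mul_le_mul_of_nonneg_left (show a M + 1 ≤ 2 by linarith) (by positivity)))
      rw [Real.log_mul (by positivity) (by norm_num), Real.log_mul (by linarith) (by positivity),
        Real.log_pow] at a3
      have a4 := mul_le_mul_of_nonneg_left a3 hs.le
      linarith
    have h3 := h.add (hfin hgt)
    rw [add_zero] at h3
    refine h3.congr fun M => ?_
    ring

lemma add_one_pow {x : ℝ} (hx : 0 ≤ x) (n : ℕ) : (x + 1) ^ n ≤ 2 ^ n * (x ^ n + 1) := by
  have h1 : x + 1 ≤ 2 * max x 1 := by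
    have := le_max_left x 1
    have := le_max_right x 1
    linarith
  have h2 : (max x 1) ^ n ≤ x ^ n + 1 := by
    rcases le_total x 1 with h | h
    · rw [max_eq_right h, one_pow]
      have := pow_nonneg hx n
      linarith
    · rw [max_eq_left h]
      linarith
  calc (x + 1) ^ n ≤ (2 * max x 1) ^ n := pow_le_pow_left₀ (by linarith) h1 n
    _ = 2 ^ n * (max x 1) ^ n := by rw [mul_pow]
    _ ≤ 2 ^ n * (x ^ n + 1) := mul_le_mul_of_nonneg_left h2 (by positivity)

open Pool.Agent.H62.TV (vlu) in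
/-- the upper bound by the invariant of the same bundle -/
lemma rad_comm' {u w : List (Bool × Bool)} {i : ℤ} {n : ℕ} (hn : 1 ≤ n)
    (hu : ∀ (G : Type) [Group G] (x y : G), x * y * x = y * x * y → ∃ g : G,
      vlu x y u = g * ((x * y * x) ^ (2 * i) * vlu x y (comm w) ^ n) * g⁻¹) {M : ℕ} (hM : 1 ≤ M) :
    rad u M ^ 2 ≤ 19 * (M : ℝ) ^ 2 * (1024 * (M : ℝ) ^ 5) ^ n * (tvt u (2 * M + 1) + 1) := by
  have hM1 : (1 : ℝ) ≤ M := by exact_mod_cast hM
  have h0 : ∀ v : List (Bool × Bool), 0 ≤ tvt v (2 * M + 1) := fun v => by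
    rw [tvt_eq]
    exact sum_nonneg fun c _ => by positivity
  have h1 := rad_comm hn hu hM
  have h2 := (Pool.Agent.H62.CYC.ineq w hn hM).2
  have h3 : tvt u (2 * M + 1) = tvt (pw n (comm w)) (2 * M + 1) := by
    refine Pool.Agent.H62.CYC.tvt_conj (i := i) (fun G _ x y hxy => ?_) M
    obtain ⟨g, hg⟩ := hu G x y hxy
    refine ⟨g, ?_⟩
    rw [hg]
    congr 3
    exact (Pool.Agent.H62.TV.vlu_pow x y _ n).symm
  rw [← h3] at h2
  set t := tvt (comm w) (2 * M + 1) with ht
  have ht0 : 0 ≤ t := h0 _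
  set T := tvt u (2 * M + 1) with hT
  have hT0 : 0 ≤ T := h0 _
  have hp1 : 1 ≤ (16 * (M : ℝ) ^ 3) ^ n := one_le_pow₀ (by nlinarith [pow_le_pow_left₀ zero_le_one hM1 3])
  have hp2 : 1 ≤ (M : ℝ) ^ 2 := one_le_pow₀ hM1
  have hp3 : 1 ≤ (M : ℝ) ^ 2 * (16 * (M : ℝ) ^ 3) ^ n := by nlinarith
  calc rad u M ^ 2 ≤ (32 * (M : ℝ) ^ 2 * (t + 1)) ^ n := h1
    _ = (32 * (M : ℝ) ^ 2) ^ n * (t + 1) ^ n := by rw [mul_pow]
    _ ≤ (32 * (M : ℝ) ^ 2) ^ n * (2 ^ n * (t ^ n + 1)) :=
        mul_le_mul_of_nonneg_left (add_one_pow ht0 n) (by positivity)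
    _ ≤ (32 * (M : ℝ) ^ 2) ^ n * (2 ^ n * (18 * (M : ℝ) ^ 2 * (16 * (M : ℝ) ^ 3) ^ n * (T + 1) +
          1)) := by gcongr
    _ ≤ (32 * (M : ℝ) ^ 2) ^ n * (2 ^ n * (19 * (M : ℝ) ^ 2 * (16 * (M : ℝ) ^ 3) ^ n * (T + 1))) := by
        gcongr
        nlinarith
    _ = 19 * (M : ℝ) ^ 2 * ((32 * (M : ℝ) ^ 2) ^ n * 2 ^ n * (16 * (M : ℝ) ^ 3) ^ n) * (T + 1) := by
        ring
    _ = 19 * (M : ℝ) ^ 2 * (1024 * (M : ℝ) ^ 5) ^ n * (T + 1) := by
        rw [← mul_pow, ← mul_pow]
        congr 3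
        ring

open Pool.Agent.H62.TV (vlu) in
/-- the radius and the invariant have the same growth -/
lemma lim_iff {u w : List (Bool × Bool)} {i : ℤ} {n : ℕ} (hn : 1 ≤ n)
    (hu : ∀ (G : Type) [Group G] (x y : G), x * y * x = y * x * y → ∃ g : G,
      vlu x y u = g * ((x * y * x) ^ (2 * i) * vlu x y (comm w) ^ n) * g⁻¹) {V : ℝ} (hV : 0 < V) :
    Tendsto (fun M : ℕ => sc M * Real.log (tvt u (2 * M + 1))) atTop (𝓝 V) ↔
    Tendsto (fun M : ℕ => sc M * Real.log (rad u M ^ 2)) atTop (𝓝 V) := by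
  refine equiv_lim (C := 19 * 1024 ^ n) (d := 5 * n + 2) ?_ hV (fun M _ => ?_) (fun M hM => ?_)
    (fun M hM => ?_) fun M hM => ?_
  · have := one_le_pow₀ (show (1 : ℝ) ≤ 1024 by norm_num) (n := n)
    linarith
  · rw [tvt_eq]
    exact sum_nonneg fun c _ => by positivity
  · exact one_le_pow₀ (one_le_rad u hM)
  · have h1 := tvt_pw_le u hM (k := 1) le_rfl
    rw [pow_one] at h1
    have e : pw 1 u = u := by
      unfold Pool.Agent.H62.CYC.pw
      simp
    rw [e] at h1
    have hM1 : (1 : ℝ) ≤ M := by exact_mod_cast hM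
    refine h1.trans (mul_le_mul_of_nonneg_right ?_ (by positivity))
    have h2 : (M : ℝ) ^ 3 ≤ (M : ℝ) ^ (5 * n + 2) := pow_le_pow_right₀ hM1 (by omega)
    have h3 := one_le_pow₀ (show (1 : ℝ) ≤ 1024 by norm_num) (n := n)
    have h4 : 0 ≤ (M : ℝ) ^ (5 * n + 2) := by positivity
    nlinarith
  · refine (rad_comm' hn hu hM).trans (le_of_eq ?_)
    rw [mul_pow]
    ring

end Pool.Agent.H62.TB.Rad
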