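import Pool.Agent.H62.TB.Tri3
import Pool.Agent.H62.TV.Grp

/-!
The braid relation and the centre, for the matrices of the torus with one hole.
-/

set_option autoImplicit false

namespace Pool.Agent.H62.TB

open Finset Matrix
open Pool.Agent.H550R3.Jones (br brf)
open Pool.Agent.Y482.CY (LL UU sb Nz)
open Pool.Agent.Y481.CC (CM LI UI HT)
open Pool.Agent.H62.TV (qb qb_gt qb_self Xm xl Gv Hv kap CM_T GH tt vlu)

variable {v : ℂ} {K : ℕ}

lemma Xm_true (d f : Fin (K + 1)) : Xm v K true d f =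
    v ^ (-(((f : ℕ) : ℤ) * ((K : ℤ) - (d : ℕ)))) * qb v d f := by
  rw [Xm, Matrix.of_apply, xl, if_pos rfl]

lemma Xm_false (d f : Fin (K + 1)) : Xm v K false d f =
    v ^ (((d : ℕ) : ℤ) * ((K : ℤ) - (f : ℕ))) * qb v (K - d) (K - f) := by
  rw [Xm, Matrix.of_apply, xl, if_neg (by simp)]

lemma X1_unit (hv : v ≠ 0) (hK : Nz v K) : IsUnit (Xm v K true).det := by
  rw [Matrix.det_of_lowerTriangular, isUnit_iff_ne_zero]
  · refine prod_ne_zero_iff.2 fun d _ => ?_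
    have hd := d.2
    rw [Xm_true, qb_self (fun l h0 hl => hK l h0 (by omega)), mul_one]
    exact zpow_ne_zero _ hv
  · intro i j hij
    have h : (i : ℕ) < j := hij
    rw [Xm_true, qb_gt h, mul_zero]

lemma X2_unit (hv : v ≠ 0) (hK : Nz v K) : IsUnit (Xm v K false).det := by
  rw [Matrix.det_of_upperTriangular, isUnit_iff_ne_zero]
  · refine prod_ne_zero_iff.2 fun d _ => ?_
    have hd := d.2
    rw [Xm_false, qb_self (fun l h0 hl => hK l h0 (by omega)), mul_one]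
    exact zpow_ne_zero _ hv
  · intro i j hij
    have h : (j : ℕ) < i := hij
    have hi := i.2
    rw [Xm_false, qb_gt (by omega), mul_zero]

lemma Gv_ne (hv : v ≠ 0) (b d : ℕ) : Gv v b K d ≠ 0 := by
  unfold Gv
  exact zpow_ne_zero _ hv

lemma Hv_ne (hv : v ≠ 0) (d : ℕ) : Hv v K d ≠ 0 := by
  unfold Hv
  exact mul_ne_zero (pow_ne_zero _ (by norm_num)) (zpow_ne_zero _ hv)

lemma diag_unit {f : Fin (K + 1) → ℂ} (h : ∀ i, f i ≠ 0) : IsUnit (diagonal f).det := by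
  rw [Matrix.det_diagonal, isUnit_iff_ne_zero]
  exact prod_ne_zero_iff.2 fun i _ => h i

lemma diag_inv {f : Fin (K + 1) → ℂ} (h : ∀ i, f i ≠ 0) :
    (diagonal f)⁻¹ = diagonal fun i => (f i)⁻¹ := by
  apply Matrix.inv_eq_right_inv
  rw [Matrix.diagonal_mul_diagonal, ← Matrix.diagonal_one]
  congr 1
  funext i
  exact mul_inv_cancel₀ (h i)

/-- the antidiagonal matrix -/
noncomputable def J0 (v : ℂ) (K : ℕ) : Matrix (Fin (K + 1)) (Fin (K + 1)) ℂ :=
  Xm v K false * (Xm v K true)⁻¹ * Xm v K false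

/-- the other one -/
noncomputable def J1 (v : ℂ) (K : ℕ) : Matrix (Fin (K + 1)) (Fin (K + 1)) ℂ :=
  (Xm v K true)⁻¹ * Xm v K false * (Xm v K true)⁻¹

lemma UI_T (hv : v ≠ 0) (hK : Nz v K) (b : ℕ) : (UI b K v)ᵀ = ((UU b K v)ᵀ)⁻¹ := by
  symm
  apply Matrix.inv_eq_right_inv
  rw [← Matrix.transpose_mul, (Pool.Agent.Y548.CC.lui v hv b K hK).2.2.2, Matrix.transpose_one]

lemma UU_T' (hv : v ≠ 0) (b : ℕ) : (UU b K v)ᵀ = diagonal (fun d : Fin (K + 1) => Gv v b K d) *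
    Xm v K true * diagonal (fun d : Fin (K + 1) => Hv v K d) := by
  have := CM_T (b := b) (K := K) hv true
  rw [if_pos rfl, one_smul] at this
  exact this

lemma LL_T' (hv : v ≠ 0) (b : ℕ) : (LL b K v)ᵀ = kap v b K •
    (diagonal (fun d : Fin (K + 1) => Gv v b K d) *
    Xm v K false * diagonal (fun d : Fin (K + 1) => Hv v K d)) := by
  have := CM_T (b := b) (K := K) hv false
  rw [if_neg (by simp)] at this
  exact this

lemma HT_T0 (hv : v ≠ 0) (hK : Nz v K) (b : ℕ) : (HT b K v)ᵀ = (kap v b K ^ 2) •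
    (diagonal (fun d : Fin (K + 1) => Gv v b K d) * J0 v K *
      diagonal (fun d : Fin (K + 1) => Hv v K d)) := by
  have hG := diag_unit (K := K) fun i => Gv_ne (K := K) hv b i
  have hH := diag_unit (K := K) fun i => Hv_ne (K := K) hv i
  rw [← Pool.Agent.Y876.CC.ht Pool.Agent.Y548.CC.lui v hv b K hK, Matrix.transpose_mul,
    Matrix.transpose_mul, UI_T hv hK, UU_T' hv, LL_T' hv, Matrix.mul_inv_rev, Matrix.mul_inv_rev]
  set G := diagonal (fun d : Fin (K + 1) => Gv v b K d)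
  set H := diagonal (fun d : Fin (K + 1) => Hv v K d)
  unfold J0
  simp only [Matrix.smul_mul, Matrix.mul_smul, smul_smul, ← pow_two]
  congr 1
  calc G * Xm v K false * H * (H⁻¹ * ((Xm v K true)⁻¹ * G⁻¹) * (G * Xm v K false * H))
      = G * Xm v K false * (H * H⁻¹) * (Xm v K true)⁻¹ * (G⁻¹ * G) * Xm v K false * H := by
        simp only [Matrix.mul_assoc]
    _ = G * (Xm v K false * (Xm v K true)⁻¹ * Xm v K false) * H := by
        rw [Matrix.mul_nonsing_inv _ hH, Matrix.nonsing_inv_mul _ hG]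
        simp only [Matrix.mul_assoc, Matrix.mul_one, Matrix.one_mul]

lemma HT_T1 (hv : v ≠ 0) (hK : Nz v K) (b : ℕ) :
    diagonal (fun d : Fin (K + 1) => Hv v K d) * (HT b K v)ᵀ *
      diagonal (fun d : Fin (K + 1) => Gv v b K d) = kap v b K • J1 v K := by
  have hG := diag_unit (K := K) fun i => Gv_ne (K := K) hv b i
  have hH := diag_unit (K := K) fun i => Hv_ne (K := K) hv i
  have h1 := Pool.Agent.H62.TV.braid_rel' (b := b) hv hK
  rw [Pool.Agent.Y876.CC.ht Pool.Agent.Y548.CC.lui v hv b K hK] at h1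
  rw [h1, Matrix.transpose_mul,
    Matrix.transpose_mul, UI_T hv hK, UU_T' hv, LL_T' hv, Matrix.mul_inv_rev, Matrix.mul_inv_rev]
  set G := diagonal (fun d : Fin (K + 1) => Gv v b K d)
  set H := diagonal (fun d : Fin (K + 1) => Hv v K d)
  unfold J1
  simp only [Matrix.smul_mul, Matrix.mul_smul]
  congr 1
  calc H * (H⁻¹ * ((Xm v K true)⁻¹ * G⁻¹) *
        (G * Xm v K false * H * (H⁻¹ * ((Xm v K true)⁻¹ * G⁻¹)))) * G
      = (H * H⁻¹) * (Xm v K true)⁻¹ * (G⁻¹ * G) * Xm v K false * (H * H⁻¹) * (Xm v K true)⁻¹ *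
          (G⁻¹ * G) := by
        simp only [Matrix.mul_assoc]
    _ = (Xm v K true)⁻¹ * Xm v K false * (Xm v K true)⁻¹ := by
        rw [Matrix.mul_nonsing_inv _ hH, Matrix.nonsing_inv_mul _ hG]
        simp only [Matrix.mul_assoc, Matrix.mul_one, Matrix.one_mul]

lemma kap_tt (hv : v ≠ 0) (b : ℕ) : kap v b K * tt v b K ^ K = 1 := by
  unfold kap tt
  rw [neg_pow (v ^ ((K : ℤ) + 1 - 2 * b)), ← zpow_natCast (v ^ ((K : ℤ) + 1 - 2 * b)) K,
    ← _root_.zpow_mul]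
  have e1 : (-1 : ℂ) ^ K * (-1) ^ K = 1 := by rw [← mul_pow]; norm_num
  have e2 : v ^ (2 * ((b : ℤ) - 1) * K - (K : ℤ) * K + K) * v ^ (((K : ℤ) + 1 - 2 * b) * (K : ℤ)) =
      1 := by
    rw [← zpow_add₀ hv]
    have : 2 * ((b : ℤ) - 1) * K - (K : ℤ) * K + K + ((K : ℤ) + 1 - 2 * b) * (K : ℤ) = 0 := by ring
    rw [this, _root_.zpow_zero]
  linear_combination (v ^ (2 * ((b : ℤ) - 1) * K - (K : ℤ) * K + K) *
    v ^ (((K : ℤ) + 1 - 2 * b) * (K : ℤ))) * e1 + e2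

/-- antidiagonal -/
lemma J0_anti (hv : v ≠ 0) (hK : Nz v K) {d e : Fin (K + 1)} (h : (d : ℕ) + e ≠ K) :
    J0 v K d e = 0 := by
  have h1 := congrFun (congrFun (HT_T0 hv hK 1) d) e
  rw [Matrix.transpose_apply, Matrix.smul_apply, Matrix.mul_diagonal, Matrix.diagonal_mul,
    smul_eq_mul] at h1
  have h2 : HT 1 K v e d = 0 := by
    unfold HT
    rw [if_neg (by omega)]
  rw [h2] at h1
  have h3 : kap v 1 K ≠ 0 := by
    intro h4
    have := kap_tt (K := K) hv 1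
    rw [h4, zero_mul] at this
    exact zero_ne_one this
  have h5 := Gv_ne (K := K) hv 1 d
  have h6 := Hv_ne (K := K) hv e
  have h7 := h1.symm
  simp only [mul_eq_zero, pow_eq_zero_iff, ne_eq, OfNat.ofNat_ne_zero, not_false_eq_true] at h7
  tauto

lemma J1_anti (hv : v ≠ 0) (hK : Nz v K) {d e : Fin (K + 1)} (h : (d : ℕ) + e ≠ K) :
    J1 v K d e = 0 := by
  have h1 := congrFun (congrFun (HT_T1 hv hK 1) d) e
  rw [Matrix.mul_diagonal, Matrix.diagonal_mul, Matrix.transpose_apply, Matrix.smul_apply,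
    smul_eq_mul] at h1
  have h2 : HT 1 K v e d = 0 := by
    unfold HT
    rw [if_neg (by omega)]
  rw [h2, mul_zero, zero_mul] at h1
  have h3 : kap v 1 K ≠ 0 := by
    intro h4
    have := kap_tt (K := K) hv 1
    rw [h4, zero_mul] at this
    exact zero_ne_one this
  exact (mul_eq_zero.1 h1.symm).resolve_left h3

lemma J1_eq (hv : v ≠ 0) (hK : Nz v K) : J1 v K = J0 v K := by
  ext d e
  by_cases h : (d : ℕ) + e = K
  · have hd := d.2
    have h1 := congrFun (congrFun (HT_T0 hv hK 1) d) e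
    have h2 := congrFun (congrFun (HT_T1 hv hK 1) d) e
    rw [Matrix.transpose_apply, Matrix.smul_apply, Matrix.mul_diagonal, Matrix.diagonal_mul,
      smul_eq_mul] at h1
    rw [Matrix.mul_diagonal, Matrix.diagonal_mul, Matrix.transpose_apply, Matrix.smul_apply,
      smul_eq_mul, h1] at h2
    have h3 := kap_tt (K := K) hv 1
    have h4 := GH (v := v) (b := 1) (K := K) hv d
    have h5 := GH (v := v) (b := 1) (K := K) hv e
    have h6 : tt v 1 K ^ (K - (d : ℕ)) * tt v 1 K ^ (K - (e : ℕ)) = tt v 1 K ^ K := by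
      rw [← pow_add]
      congr 1
      omega
    have hk : kap v 1 K ≠ 0 := by
      intro h7
      rw [h7, zero_mul] at h3
      exact zero_ne_one h3
    have h8 : kap v 1 K * (kap v 1 K * (Hv v K d * Gv v 1 K d * (Hv v K e * Gv v 1 K e)) *
        J0 v K d e - J1 v K d e) = 0 := by
      linear_combination h2
    have h9 := (mul_eq_zero.1 h8).resolve_left hk
    rw [h4, h5, h6, h3, one_mul] at h9
    exact (sub_eq_zero.1 h9).symm
  · rw [J0_anti hv hK h, J1_anti hv hK h]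

/-- the product of two entries -/
lemma J0_prod (hv1 : ‖v‖ = 1) (hv : v ≠ 0) (hK : Nz v K) : ∃ c : ℂ, ‖c‖ = 1 ∧
    ∀ d e : Fin (K + 1), (d : ℕ) + e = K → J0 v K d e * J0 v K e d = c := by
  have hn : ∀ n : ℤ, ‖v ^ n‖ = 1 := fun n => by rw [norm_zpow, hv1, _root_.one_zpow]
  have h3 := kap_tt (K := K) hv 1
  have hk : kap v 1 K ≠ 0 := by
    intro h7
    rw [h7, zero_mul] at h3
    exact zero_ne_one h3
  have hk1 : ‖kap v 1 K‖ = 1 := by
    unfold kap
    rw [norm_mul, hn, norm_pow, norm_neg, norm_one, one_pow, mul_one]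
  set σ : ℂ := v ^ (2 * (-2 * (K : ℤ) * K + (4 * ((1 : ℕ) : ℤ) - 2) * K) -
    2 * K * (((1 : ℕ) : ℤ) - K)) with hσ
  refine ⟨(kap v 1 K ^ 3)⁻¹ * σ, by
    rw [norm_mul, norm_inv, norm_pow, hk1, one_pow, inv_one, one_mul, hσ, hn], ?_⟩
  intro d e hde
  have h1 := congrFun (congrFun (HT_T0 hv hK 1) d) e
  have h2 := congrFun (congrFun (HT_T0 hv hK 1) e) d
  rw [Matrix.transpose_apply, Matrix.smul_apply, Matrix.mul_diagonal, Matrix.diagonal_mul,
    smul_eq_mul] at h1 h2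
  have h4 := GH (v := v) (b := 1) (K := K) hv d
  have h5 := GH (v := v) (b := 1) (K := K) hv e
  have h6 : tt v 1 K ^ (K - (d : ℕ)) * tt v 1 K ^ (K - (e : ℕ)) = tt v 1 K ^ K := by
    rw [← pow_add]
    congr 1
    omega
  have h7 : HT 1 K v e d * HT 1 K v d e = σ := by
    unfold HT
    rw [if_pos (by omega), if_pos hde, ← zpow_add₀ hv, hσ]
    congr 1
    have hz : (K : ℤ) = ((d : ℕ) : ℤ) + (e : ℕ) := by exact_mod_cast hde.symm
    rw [hz]
    ring
  rw [h1, h2] at h7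
  have h8 : kap v 1 K ^ 3 * (J0 v K d e * J0 v K e d) = σ := by
    have h9 : kap v 1 K ^ 4 * (Hv v K d * Gv v 1 K d * (Hv v K e * Gv v 1 K e)) *
        (J0 v K d e * J0 v K e d) = σ := by
      rw [← h7]
      ring
    rw [h4, h5, h6] at h9
    linear_combination h9 - (kap v 1 K ^ 3 * (J0 v K d e * J0 v K e d)) * h3
  rw [← h8]
  field_simp

/-! ### Units -/

/-- the dilation -/
noncomputable def Dg (v : ℂ) (K : ℕ) : Matrix (Fin (K + 1)) (Fin (K + 1)) ℂ :=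
  diagonal fun d : Fin (K + 1) => tp v K ^ (K - (d : ℕ))

lemma tp_ne (hv : v ≠ 0) : tp v K ≠ 0 := pow_ne_zero _ hv

lemma Dg_unit (hv : v ≠ 0) : IsUnit (Dg v K).det :=
  diag_unit fun _ => pow_ne_zero _ (tp_ne hv)

lemma T1_unit (hv : v ≠ 0) (hK : Nz v K) : IsUnit (T1 v K).det := by
  unfold T1
  rw [Matrix.det_mul]
  exact (X1_unit hv hK).mul (Dg_unit hv)

lemma T2_unit (hv : v ≠ 0) (hK : Nz v K) : IsUnit (T2 v K).det := by
  unfold T2
  rw [Matrix.det_mul]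
  exact (X2_unit hv hK).mul (Dg_unit hv)

/-- the unit of `s_2` -/
noncomputable def gB (hv : v ≠ 0) (hK : Nz v K) : (Matrix (Fin (K + 1)) (Fin (K + 1)) ℂ)ˣ where
  val := T1 v K
  inv := (T1 v K)⁻¹
  val_inv := Matrix.mul_nonsing_inv _ (T1_unit hv hK)
  inv_val := Matrix.nonsing_inv_mul _ (T1_unit hv hK)

/-- the unit of `s_1` -/
noncomputable def gA (hv : v ≠ 0) (hK : Nz v K) : (Matrix (Fin (K + 1)) (Fin (K + 1)) ℂ)ˣ where
  val := tp v K ^ K • (T2 v K)⁻¹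
  inv := (tp v K ^ K)⁻¹ • T2 v K
  val_inv := by
    rw [Matrix.smul_mul, Matrix.mul_smul, smul_smul, mul_inv_cancel₀ (pow_ne_zero _ (tp_ne hv)),
      one_smul, Matrix.nonsing_inv_mul _ (T2_unit hv hK)]
  inv_val := by
    rw [Matrix.smul_mul, Matrix.mul_smul, smul_smul, inv_mul_cancel₀ (pow_ne_zero _ (tp_ne hv)),
      one_smul, Matrix.mul_nonsing_inv _ (T2_unit hv hK)]

lemma Q1 (hv : v ≠ 0) (hK : Nz v K) : T2 v K * (T1 v K)⁻¹ * T2 v K = J0 v K * Dg v K := by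
  have hD := Dg_unit (K := K) hv
  have e1 : T1 v K = Xm v K true * Dg v K := rfl
  have e2 : T2 v K = Xm v K false * Dg v K := rfl
  rw [e1, e2, Matrix.mul_inv_rev]
  unfold J0
  calc Xm v K false * Dg v K * ((Dg v K)⁻¹ * (Xm v K true)⁻¹) * (Xm v K false * Dg v K)
      = Xm v K false * (Dg v K * (Dg v K)⁻¹) * (Xm v K true)⁻¹ * Xm v K false * Dg v K := by
        simp only [Matrix.mul_assoc]
    _ = _ := by
        rw [Matrix.mul_nonsing_inv _ hD, Matrix.mul_one]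

lemma Q2 (hv : v ≠ 0) (hK : Nz v K) : (T1 v K)⁻¹ * T2 v K * (T1 v K)⁻¹ =
    (Dg v K)⁻¹ * J0 v K := by
  have hD := Dg_unit (K := K) hv
  have e1 : T1 v K = Xm v K true * Dg v K := rfl
  have e2 : T2 v K = Xm v K false * Dg v K := rfl
  rw [e1, e2, Matrix.mul_inv_rev, ← J1_eq hv hK]
  unfold J1
  calc (Dg v K)⁻¹ * (Xm v K true)⁻¹ * (Xm v K false * Dg v K) * ((Dg v K)⁻¹ * (Xm v K true)⁻¹)
      = (Dg v K)⁻¹ * ((Xm v K true)⁻¹ * Xm v K false * (Dg v K * (Dg v K)⁻¹) * (Xm v K true)⁻¹) := by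
        simp only [Matrix.mul_assoc]
    _ = _ := by
        rw [Matrix.mul_nonsing_inv _ hD, Matrix.mul_one]

lemma Q12 (hv : v ≠ 0) (hK : Nz v K) : (Dg v K)⁻¹ * J0 v K =
    (tp v K ^ K)⁻¹ • (J0 v K * Dg v K) := by
  have ht := tp_ne (K := K) hv
  unfold Dg
  rw [diag_inv fun i => pow_ne_zero _ ht]
  ext d e
  have hd := d.2
  have he := e.2
  rw [Matrix.diagonal_mul, Matrix.smul_apply, Matrix.mul_diagonal, smul_eq_mul]
  by_cases h : (d : ℕ) + e = K
  · have e1 : tp v K ^ K = tp v K ^ (K - (d : ℕ)) * tp v K ^ (K - (e : ℕ)) := by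
      rw [← pow_add]
      congr 1
      omega
    rw [e1]
    have h1 := pow_ne_zero (K - (d : ℕ)) ht
    have h2 := pow_ne_zero (K - (e : ℕ)) ht
    field_simp
  · rw [J0_anti hv hK h]
    ring

/-- **the braid relation** -/
lemma g_rel (hv : v ≠ 0) (hK : Nz v K) : gA hv hK * gB hv hK * gA hv hK =
    gB hv hK * gA hv hK * gB hv hK := by
  have h2 : (gA hv hK)⁻¹ * (gB hv hK)⁻¹ * (gA hv hK)⁻¹ =
      (gB hv hK)⁻¹ * (gA hv hK)⁻¹ * (gB hv hK)⁻¹ := by
    ext1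
    rw [Units.val_mul, Units.val_mul, Units.val_mul, Units.val_mul]
    change ((tp v K ^ K)⁻¹ • T2 v K) * (T1 v K)⁻¹ * ((tp v K ^ K)⁻¹ • T2 v K) =
      (T1 v K)⁻¹ * ((tp v K ^ K)⁻¹ • T2 v K) * (T1 v K)⁻¹
    rw [Matrix.smul_mul, Matrix.smul_mul, Matrix.mul_smul, Matrix.mul_smul, Matrix.smul_mul,
      Q1 hv hK, Q2 hv hK, Q12 hv hK]
  have h3 := congrArg (fun x => x⁻¹) h2
  have h4 : gA hv hK * gB hv hK * gA hv hK =
      ((gA hv hK)⁻¹ * (gB hv hK)⁻¹ * (gA hv hK)⁻¹)⁻¹ := by group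
  have h5 : gB hv hK * gA hv hK * gB hv hK =
      ((gB hv hK)⁻¹ * (gA hv hK)⁻¹ * (gB hv hK)⁻¹)⁻¹ := by group
  rw [h4, h5]
  exact h3

lemma pow_smul_one {n : Type} [Fintype n] [DecidableEq n] (c : ℂ) (E : (Matrix n n ℂ)ˣ)
    (hE : (E : Matrix n n ℂ) = c • 1) (k : ℕ) :
    ((E ^ k : (Matrix n n ℂ)ˣ) : Matrix n n ℂ) = c ^ k • 1 := by
  induction k with
  | zero => simp
  | succ k ih =>
    rw [pow_succ, Units.val_mul, ih, hE, Matrix.smul_mul, Matrix.one_mul, smul_smul, pow_succ]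

/-- the square of the inverse half twist is a scalar -/
lemma g_sq (hv1 : ‖v‖ = 1) (hv : v ≠ 0) (hK : Nz v K) : ∃ σ : ℂ, ‖σ‖ = 1 ∧
    (((((gA hv hK * gB hv hK * gA hv hK)⁻¹) ^ 2 : (Matrix (Fin (K + 1)) (Fin (K + 1)) ℂ)ˣ)) :
      Matrix (Fin (K + 1)) (Fin (K + 1)) ℂ) = σ • 1 := by
  obtain ⟨c, hc, hc2⟩ := J0_prod hv1 hv hK
  have ht := tp_ne (K := K) hv
  have ht1 : ‖tp v K‖ = 1 := by
    unfold tp
    rw [norm_pow, hv1, one_pow]
  have h1 : (((gA hv hK * gB hv hK * gA hv hK)⁻¹ : (Matrix (Fin (K + 1)) (Fin (K + 1)) ℂ)ˣ) :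
      Matrix (Fin (K + 1)) (Fin (K + 1)) ℂ) =
      ((tp v K ^ K)⁻¹ * (tp v K ^ K)⁻¹) • (J0 v K * Dg v K) := by
    have h2 : (gA hv hK * gB hv hK * gA hv hK)⁻¹ =
        (gA hv hK)⁻¹ * (gB hv hK)⁻¹ * (gA hv hK)⁻¹ := by group
    rw [h2, Units.val_mul, Units.val_mul]
    change ((tp v K ^ K)⁻¹ • T2 v K) * (T1 v K)⁻¹ * ((tp v K ^ K)⁻¹ • T2 v K) = _
    rw [Matrix.smul_mul, Matrix.smul_mul, Matrix.mul_smul, Q1 hv hK, smul_smul]
  have h3 : J0 v K * Dg v K * (J0 v K * Dg v K) = (c * tp v K ^ K) • 1 := by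
    ext d e
    have hd := d.2
    have he := e.2
    rw [Matrix.mul_apply, Finset.sum_eq_single d.rev]
    · unfold Dg
      rw [Matrix.mul_diagonal, Matrix.mul_diagonal, Matrix.smul_apply, smul_eq_mul]
      have hr : (d.rev : ℕ) = K - d := by
        rw [Fin.val_rev]
        omega
      by_cases h : d = e
      · subst h
        rw [Matrix.one_apply_eq, mul_one]
        have h4 := hc2 d d.rev (by omega)
        have h5 : tp v K ^ (K - (d.rev : ℕ)) * tp v K ^ (K - (d : ℕ)) = tp v K ^ K := by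
          rw [← pow_add]
          congr 1
          omega
        rw [← h4, ← h5]
        ring
      · rw [Matrix.one_apply_ne h, mul_zero, J0_anti hv hK (d := d.rev) (e := e) (by
          intro h6
          apply h
          ext
          omega)]
        ring
    · intro j _ hj
      unfold Dg
      rw [Matrix.mul_diagonal, J0_anti hv hK (d := d) (e := j) (by
        intro h6
        apply hj
        ext
        rw [Fin.val_rev]
        omega)]
      ring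
    · intro h
      exact absurd (mem_univ _) h
  refine ⟨((tp v K ^ K)⁻¹ * (tp v K ^ K)⁻¹) * (((tp v K ^ K)⁻¹ * (tp v K ^ K)⁻¹) *
    (c * tp v K ^ K)), ?_, ?_⟩
  · simp only [norm_mul, norm_inv, norm_pow, ht1, hc, one_pow, inv_one, mul_one]
  · rw [pow_two, Units.val_mul, h1, Matrix.smul_mul, Matrix.mul_smul, h3, smul_smul, smul_smul]
    congr 1
    ring

/-- an even power of `Δ` is a scalar of absolute value one -/
lemma g_full (hv1 : ‖v‖ = 1) (hv : v ≠ 0) (hK : Nz v K) (i : ℤ) : ∃ c : ℂ, ‖c‖ = 1 ∧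
    (((gA hv hK * gB hv hK * gA hv hK) ^ (2 * i) :
      (Matrix (Fin (K + 1)) (Fin (K + 1)) ℂ)ˣ) : Matrix (Fin (K + 1)) (Fin (K + 1)) ℂ) =
      c • (1 : Matrix (Fin (K + 1)) (Fin (K + 1)) ℂ) := by
  set D := gA hv hK * gB hv hK * gA hv hK with hD
  obtain ⟨σ, hσ1, h1⟩ := g_sq hv1 hv hK
  rw [← hD] at h1
  have hσ0 : σ ≠ 0 := by
    intro h
    rw [h, norm_zero] at hσ1
    exact zero_ne_one hσ1
  have h2 : ((D ^ 2 : (Matrix (Fin (K + 1)) (Fin (K + 1)) ℂ)ˣ) :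
      Matrix (Fin (K + 1)) (Fin (K + 1)) ℂ) = σ⁻¹ • 1 := by
    have h3 : ((D ^ 2 * (D⁻¹) ^ 2 : (Matrix (Fin (K + 1)) (Fin (K + 1)) ℂ)ˣ) :
        Matrix (Fin (K + 1)) (Fin (K + 1)) ℂ) = 1 := by
      rw [inv_pow, mul_inv_cancel, Units.val_one]
    rw [Units.val_mul, h1, Matrix.mul_smul, Matrix.mul_one] at h3
    rw [← h3, smul_smul, inv_mul_cancel₀ hσ0, one_smul]
  rcases Int.eq_nat_or_neg i with ⟨n, rfl | rfl⟩
  · refine ⟨(σ⁻¹) ^ n, by rw [norm_pow, norm_inv, hσ1, inv_one, one_pow], ?_⟩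
    have h3 : D ^ (2 * (n : ℤ)) = (D ^ 2) ^ n := by
      rw [_root_.zpow_mul, zpow_natCast]
      rfl
    rw [h3, pow_smul_one _ _ h2]
  · refine ⟨σ ^ n, by rw [norm_pow, hσ1, one_pow], ?_⟩
    have h3 : D ^ (2 * (-(n : ℤ))) = ((D⁻¹) ^ 2) ^ n := by
      rw [_root_.zpow_mul, _root_.zpow_neg, zpow_natCast, ← inv_pow, inv_pow D 2]
      rfl
    rw [h3, pow_smul_one _ _ h1]

/-- the trace of a word -/
noncomputable def gT (hv : v ≠ 0) (hK : Nz v K) (w : List (Bool × Bool)) : ℂ :=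
  (((vlu (gA hv hK) (gB hv hK) w : (Matrix (Fin (K + 1)) (Fin (K + 1)) ℂ)ˣ)) :
    Matrix (Fin (K + 1)) (Fin (K + 1)) ℂ).trace

/-- **conjugate words** -/
theorem gT_conj (hv1 : ‖v‖ = 1) (hv : v ≠ 0) (hK : Nz v K) {u w : List (Bool × Bool)} {i : ℤ}
    (h : ∀ (G : Type) [Group G] (x y : G), x * y * x = y * x * y → ∃ g : G,
      vlu x y u = g * ((x * y * x) ^ (2 * i) * vlu x y w) * g⁻¹) :
    ‖gT hv hK u‖ = ‖gT hv hK w‖ := by
  obtain ⟨g, hg⟩ := h _ (gA hv hK) (gB hv hK) (g_rel hv hK)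
  obtain ⟨c, hc, hc2⟩ := g_full hv1 hv hK i
  unfold gT
  rw [hg, Units.val_mul, Matrix.trace_mul_comm, ← Units.val_mul,
    ← mul_assoc, inv_mul_cancel, one_mul, Units.val_mul, hc2, Matrix.smul_mul, Matrix.one_mul,
    Matrix.trace_smul, norm_smul, hc, one_mul]

end Pool.Agent.H62.TB
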