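import Pool.Agent.H62.TB.Com

/-!
The upper bidiagonal matrix is tridiagonal in the eigenbasis of the lower one.
-/

set_option autoImplicit false

namespace Pool.Agent.H62.TB

open Finset Matrix
open Pool.Agent.H550R3.Jones (br brf)
open Pool.Agent.Y482.CY (sb Nz)

variable {v : ℂ} {K : ℕ}

lemma la_sub (hv : v ≠ 0) (p q : ℤ) : la v p - la v q = br v (p - q) * br v (p + q + 1) := by
  unfold la br
  have hX : v ^ p ≠ 0 := zpow_ne_zero _ hv
  have hY : v ^ q ≠ 0 := zpow_ne_zero _ hv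
  simp only [mul_sub, mul_add, two_mul, neg_add_rev, neg_sub, zpow_add₀ hv, zpow_sub₀ hv,
    _root_.zpow_neg, _root_.zpow_one, mul_one]
  generalize v ^ p = X at *
  generalize v ^ q = Y at *
  field_simp
  ring

lemma br_neg (n : ℤ) : br v (-n) = -br v n := by
  unfold br
  rw [neg_neg]
  ring

lemma la_fac (hv : v ≠ 0) (p q : ℤ) : la v p ^ 2 - (v ^ 2 + (v ^ 2)⁻¹) * (la v p * la v q) +
    la v q ^ 2 + (v ^ 2 - (v ^ 2)⁻¹) ^ 2 =
    br v (p + q + 2) * br v (p + q) * (br v (p - q + 1) * br v (p - q - 1)) := by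
  unfold la br
  have hX : v ^ p ≠ 0 := zpow_ne_zero _ hv
  have hY : v ^ q ≠ 0 := zpow_ne_zero _ hv
  simp only [mul_sub, mul_add, two_mul, neg_add_rev, neg_sub, zpow_add₀ hv, zpow_sub₀ hv,
    _root_.zpow_neg, _root_.zpow_one, mul_one]
  have e2 : v ^ (2 : ℤ) = v ^ 2 := by norm_cast
  rw [e2]
  generalize v ^ p = X at *
  generalize v ^ q = Y at *
  field_simp
  ring

lemma brz_ne (hN : Nz v (2 * K + 2)) {n : ℤ} (h0 : n ≠ 0) (h1 : |n| ≤ 2 * K + 2) : br v n ≠ 0 := by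
  rcases lt_or_gt_of_ne h0 with h | h
  · have h2 := hN n.natAbs (by omega) (by
      rw [abs_of_neg h] at h1
      omega)
    have h3 : ((n.natAbs : ℕ) : ℤ) = -n := by omega
    rw [h3, br_neg] at h2
    exact fun h4 => h2 (by rw [h4, neg_zero])
  · have h2 := hN n.natAbs (by omega) (by
      rw [abs_of_pos h] at h1
      omega)
    have h3 : ((n.natAbs : ℕ) : ℤ) = n := by omega
    rw [h3] at h2
    exact h2

lemma la_ne (hv : v ≠ 0) (hN : Nz v (2 * K + 2)) {i e : ℕ} (hi : i ≤ K) (he : e ≤ K) (hne : i ≠ e) :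
    la v ((K : ℤ) - i) - la v ((K : ℤ) - e) ≠ 0 := by
  rw [la_sub hv]
  refine mul_ne_zero (brz_ne hN (by omega) ?_) (brz_ne hN (by omega) ?_)
  · rw [abs_le]; constructor <;> omega
  · rw [abs_le]; constructor <;> omega

/-- the eigenvectors of the lower matrix -/
noncomputable def Wm (v : ℂ) (K : ℕ) : Matrix (Fin (K + 1)) (Fin (K + 1)) ℂ := fun d i =>
  if (d : ℕ) < i then 0 else ∏ e ∈ Ico (i : ℕ) d,
    (lo v K ((e : ℤ) + 1) / (la v ((K : ℤ) - (i : ℕ)) - la v ((K : ℤ) - ((e : ℤ) + 1))))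

lemma Wm_diag (d : Fin (K + 1)) : Wm v K d d = 1 := by
  unfold Wm
  rw [if_neg (lt_irrefl _), Ico_self, prod_empty]

lemma Wm_lt {d i : Fin (K + 1)} (h : (d : ℕ) < i) : Wm v K d i = 0 := by
  unfold Wm
  rw [if_pos h]

lemma Wm_det : (Wm v K).det = 1 := by
  rw [Matrix.det_of_lowerTriangular]
  · exact Finset.prod_eq_one fun d _ => Wm_diag d
  · intro i j hij
    exact Wm_lt hij

lemma Lm_Wm (hv : v ≠ 0) (hN : Nz v (2 * K + 2)) :
    Lm v K * Wm v K = Wm v K * diagonal fun i : Fin (K + 1) => la v ((K : ℤ) - (i : ℕ)) := by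
  ext d i
  have hd := d.2
  have hi := i.2
  rw [Lm_mul, Matrix.mul_diagonal]
  rcases lt_trichotomy (d : ℕ) (i : ℕ) with h | h | h
  · rw [Wm_lt h]
    split_ifs with h0
    · rw [Wm_lt (by simp only; omega)]
      ring
    · ring
  · have : d = i := Fin.ext h
    subst this
    rw [Wm_diag]
    split_ifs with h0
    · rw [Wm_lt (by simp only; omega)]
      ring
    · ring
  · rw [dif_pos (by omega)]
    obtain ⟨k, hk⟩ : ∃ k, (d : ℕ) = k + 1 := ⟨d - 1, by omega⟩
    have h1 : Wm v K d i = Wm v K ⟨(d : ℕ) - 1, by omega⟩ i *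
        (lo v K ((k : ℤ) + 1) / (la v ((K : ℤ) - (i : ℕ)) - la v ((K : ℤ) - ((k : ℤ) + 1)))) := by
      unfold Wm
      simp only
      rw [if_neg (by omega), if_neg (by omega), hk, Nat.add_sub_cancel,
        prod_Ico_succ_top (by omega)]
    have h2 : la v ((K : ℤ) - (i : ℕ)) - la v ((K : ℤ) - ((k : ℤ) + 1)) ≠ 0 := by
      have := la_ne (K := K) hv hN (i := i) (e := k + 1) (by omega) (by omega) (by omega)
      push_cast at this
      exact this
    have h3 : ((d : ℕ) : ℤ) = (k : ℤ) + 1 := by omega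
    rw [h1, h3]
    field_simp
    ring

/-- the conjugated upper matrix -/
noncomputable def Vm (v : ℂ) (K : ℕ) : Matrix (Fin (K + 1)) (Fin (K + 1)) ℂ :=
  (Wm v K)⁻¹ * Um v K * Wm v K

lemma Wm_unit : IsUnit (Wm v K).det := by rw [Wm_det]; exact isUnit_one

lemma Um_Wm : Um v K * Wm v K = Wm v K * Vm v K := by
  unfold Vm
  rw [← Matrix.mul_assoc, ← Matrix.mul_assoc, Matrix.mul_nonsing_inv _ Wm_unit, Matrix.one_mul]

/-- the eigenvalues -/
noncomputable def Dl (v : ℂ) (K : ℕ) : Matrix (Fin (K + 1)) (Fin (K + 1)) ℂ :=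
  diagonal fun i : Fin (K + 1) => la v ((K : ℤ) - (i : ℕ))

lemma cnj {n : Type} [Fintype n] [DecidableEq n] {W A B A' B' : Matrix n n ℂ} (hW : IsUnit W.det)
    (hA : A * W = W * A') (hB : B * W = W * B') (s t : ℂ)
    (h : A * A * B - s • (A * B * A) + B * A * A = t • B) :
    A' * A' * B' - s • (A' * B' * A') + B' * A' * A' = t • B' := by
  have inj : ∀ X Y : Matrix n n ℂ, W * X = W * Y → X = Y := by
    intro X Y hXY
    have := congrArg (fun Z => W⁻¹ * Z) hXY
    simp only [← Matrix.mul_assoc, Matrix.nonsing_inv_mul _ hW, Matrix.one_mul] at this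
    exact this
  apply inj
  have h1 : ∀ X Y Z X' Y' Z' : Matrix n n ℂ, X * W = W * X' → Y * W = W * Y' → Z * W = W * Z' →
      W * (X' * Y' * Z') = X * Y * Z * W := by
    intro X Y Z X' Y' Z' hX hY hZ
    calc W * (X' * Y' * Z') = (W * X') * Y' * Z' := by simp only [Matrix.mul_assoc]
      _ = X * (W * Y') * Z' := by rw [← hX]; simp only [Matrix.mul_assoc]
      _ = X * Y * (W * Z') := by rw [← hY]; simp only [Matrix.mul_assoc]
      _ = X * Y * Z * W := by rw [← hZ]; simp only [Matrix.mul_assoc]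
  rw [Matrix.mul_add, Matrix.mul_sub, Matrix.mul_smul, Matrix.mul_smul, h1 _ _ _ _ _ _ hA hA hB,
    h1 _ _ _ _ _ _ hA hB hA, h1 _ _ _ _ _ _ hB hA hA, ← hB,
    show s • (A * B * A * W) = (s • (A * B * A)) * W from (Matrix.smul_mul _ _ _).symm,
    show t • (B * W) = (t • B) * W from (Matrix.smul_mul _ _ _).symm,
    ← Matrix.sub_mul, ← Matrix.add_mul, h]

lemma aw1' (hv : v ≠ 0) (hN : Nz v (2 * K + 2)) : Dl v K * Dl v K * Vm v K -
    (v ^ 2 + (v ^ 2)⁻¹) • (Dl v K * Vm v K * Dl v K) + Vm v K * Dl v K * Dl v K =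
    (-(v ^ 2 - (v ^ 2)⁻¹) ^ 2) • Vm v K :=
  cnj Wm_unit (Lm_Wm hv hN) Um_Wm _ _ (aw1 hv)

lemma aw2' (hv : v ≠ 0) (hN : Nz v (2 * K + 2)) : Vm v K * Vm v K * Dl v K -
    (v ^ 2 + (v ^ 2)⁻¹) • (Vm v K * Dl v K * Vm v K) + Dl v K * Vm v K * Vm v K =
    (-(v ^ 2 - (v ^ 2)⁻¹) ^ 2) • Dl v K :=
  cnj Wm_unit Um_Wm (Lm_Wm hv hN) _ _ (aw2 hv)

/-- tridiagonal -/
lemma Vm_zero (hv : v ≠ 0) (hN : Nz v (2 * K + 2)) {i j : Fin (K + 1)} (h1 : (i : ℕ) ≠ j + 1)
    (h2 : (i : ℕ) + 1 ≠ j) (h3 : ¬ (i = j ∧ (i : ℕ) = K)) : Vm v K i j = 0 := by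
  have hi := i.2
  have hj := j.2
  have h := congrFun (congrFun (aw1' hv hN) i) j
  unfold Dl at h
  rw [Matrix.add_apply, Matrix.sub_apply, Matrix.smul_apply, Matrix.smul_apply,
    Matrix.diagonal_mul_diagonal, Matrix.diagonal_mul, Matrix.mul_diagonal, Matrix.diagonal_mul,
    Matrix.mul_diagonal, Matrix.mul_diagonal, smul_eq_mul, smul_eq_mul] at h
  have h4 := la_fac hv ((K : ℤ) - (i : ℕ)) ((K : ℤ) - (j : ℕ))
  have h5 : (br v ((K : ℤ) - (i : ℕ) + ((K : ℤ) - (j : ℕ)) + 2) *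
      br v ((K : ℤ) - (i : ℕ) + ((K : ℤ) - (j : ℕ))) *
      (br v ((K : ℤ) - (i : ℕ) - ((K : ℤ) - (j : ℕ)) + 1) *
        br v ((K : ℤ) - (i : ℕ) - ((K : ℤ) - (j : ℕ)) - 1))) * Vm v K i j = 0 := by
    rw [← h4]
    linear_combination h
  rcases mul_eq_zero.1 h5 with h6 | h6
  · exfalso
    have hne : ¬ ((i : ℕ) = K ∧ (j : ℕ) = K) := fun h => h3 ⟨Fin.ext (by omega), h.1⟩
    rcases mul_eq_zero.1 h6 with h7 | h7
    · rcases mul_eq_zero.1 h7 with h8 | h8
      · refine brz_ne (K := K) hN (by omega) ?_ h8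
        rw [abs_le]; constructor <;> omega
      · refine brz_ne (K := K) hN (by omega) ?_ h8
        rw [abs_le]; constructor <;> omega
    · rcases mul_eq_zero.1 h7 with h8 | h8
      · refine brz_ne (K := K) hN (by omega) ?_ h8
        rw [abs_le]; constructor <;> omega
      · refine brz_ne (K := K) hN (by omega) ?_ h8
        rw [abs_le]; constructor <;> omega
  · exact h6

/-- the entries above the diagonal -/
lemma Vm_up (hv : v ≠ 0) (hN : Nz v (2 * K + 2)) {i j : Fin (K + 1)} (h : (i : ℕ) + 1 = j) :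
    Vm v K i j = hi v K (i : ℕ) := by
  have hj := j.2
  have h1 := congrFun (congrFun (Um_Wm (v := v) (K := K)) i) j
  rw [Um_mul, dif_pos (by omega)] at h1
  have h2 : (⟨(i : ℕ) + 1, by omega⟩ : Fin (K + 1)) = j := Fin.ext h
  rw [h2, Wm_diag, Wm_lt (by omega), mul_zero, zero_add, mul_one, Matrix.mul_apply,
    Finset.sum_eq_single i] at h1
  · rw [Wm_diag, one_mul] at h1
    exact h1.symm
  · intro e _ he
    rcases lt_or_ge (i : ℕ) e with h3 | h3
    · rw [Wm_lt h3, zero_mul]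
    · have h4 : (e : ℕ) ≠ i := fun h5 => he (Fin.ext h5)
      rw [Vm_zero hv hN (by omega) (by omega) (fun h5 => by
        have := congrArg Fin.val h5.1
        omega), mul_zero]
  · intro h
    exact absurd (mem_univ _) h

lemma la_sum (hv : v ≠ 0) (h1 : br v 1 ≠ 0) (n : ℕ) :
    ∑ d ∈ range n, la v (d : ℤ) = br v (2 * n) / br v 1 := by
  rw [eq_div_iff h1]
  induction n with
  | zero => simp [br_zero]
  | succ n ih =>
    rw [sum_range_succ, add_mul, ih]
    unfold la br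
    have hX : v ^ (n : ℤ) ≠ 0 := zpow_ne_zero _ hv
    push_cast
    simp only [mul_add, two_mul, neg_add_rev, zpow_add₀ hv, _root_.zpow_neg, _root_.zpow_one]
    generalize v ^ (n : ℤ) = X at *
    field_simp
    ring

/-- the last entry -/
lemma Vm_last (hv : v ≠ 0) (hN : Nz v (2 * K + 2)) :
    Vm v K (Fin.last K) (Fin.last K) = br v (2 * K + 2) / br v 1 := by
  have h1 : (Vm v K).trace = (Um v K).trace := by
    unfold Vm
    rw [Matrix.mul_assoc, Matrix.trace_mul_comm, Matrix.mul_assoc,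
      Matrix.mul_nonsing_inv _ Wm_unit, Matrix.mul_one]
  have h2 : (Um v K).trace = ∑ d ∈ range (K + 1), la v (d : ℤ) := by
    rw [Matrix.trace, ← Fin.sum_univ_eq_sum_range fun d => la v (d : ℤ)]
    refine Finset.sum_congr rfl fun d _ => ?_
    rw [Matrix.diag_apply]
    unfold Um
    rw [if_pos rfl]
  have h3 : (Vm v K).trace = Vm v K (Fin.last K) (Fin.last K) := by
    rw [Matrix.trace, Finset.sum_eq_single (Fin.last K)]
    · rfl
    · intro i _ hi
      rw [Matrix.diag_apply]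
      exact Vm_zero hv hN (by omega) (by omega) (fun h => hi (Fin.ext h.2))
    · intro h
      exact absurd (mem_univ _) h
  have h4 : br v 1 ≠ 0 := by
    have := hN 1 (by omega) (by omega)
    simpa using this
  rw [← h3, h1, h2, la_sum hv h4]
  push_cast
  congr 2

end Pool.Agent.H62.TB
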