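import Pool.Agent.H62.TB.Tri

/-!
The products of the entries beside the diagonal, and the equivalence with the curve operators.
-/

set_option autoImplicit false

namespace Pool.Agent.H62.TB

open Finset Matrix
open Pool.Agent.H550R3.Jones (br brf)
open Pool.Agent.Y482.CY (sb Nz)

variable {v : ℂ} {K : ℕ}

/-- the product of two entries -/
noncomputable def sp (v : ℂ) (K n : ℕ) : ℂ :=
  if h : n + 1 < K + 1 then Vm v K ⟨n, by omega⟩ ⟨n + 1, h⟩ * Vm v K ⟨n + 1, h⟩ ⟨n, by omega⟩ else 0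

/-- the diagonal entries of a product of three -/
lemma sum_tri (hv : v ≠ 0) (hN : Nz v (2 * K + 2)) (g : ℕ → ℂ) (i : Fin (K + 1)) :
    ∑ e : Fin (K + 1), Vm v K i e * g e * Vm v K e i =
      (if 0 < (i : ℕ) then sp v K (i - 1) * g (i - 1) else 0) + sp v K i * g (i + 1) +
      (if (i : ℕ) = K then (br v (2 * K + 2) / br v 1) ^ 2 * g K else 0) := by
  have hi := i.2
  have key : ∀ e : Fin (K + 1), Vm v K i e * g e * Vm v K e i =
      (if (e : ℕ) + 1 = i then sp v K (i - 1) * g (i - 1) else 0) +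
      (if (e : ℕ) = i + 1 then sp v K i * g (i + 1) else 0) +
      (if (e : ℕ) = i ∧ (i : ℕ) = K then (br v (2 * K + 2) / br v 1) ^ 2 * g K else 0) := by
    intro e
    have he := e.2
    by_cases h1 : (e : ℕ) + 1 = i
    · rw [if_pos h1, if_neg (by omega), if_neg (by omega), add_zero, add_zero]
      have h2 : (i : ℕ) - 1 = e := by omega
      rw [h2]
      unfold sp
      rw [dif_pos (by omega)]
      have h3 : (⟨(e : ℕ) + 1, by omega⟩ : Fin (K + 1)) = i := Fin.ext h1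
      rw [h3]
      ring
    · by_cases h2 : (e : ℕ) = i + 1
      · rw [if_neg h1, if_pos h2, if_neg (by omega), add_zero, zero_add]
        unfold sp
        rw [dif_pos (by omega)]
        have h3 : (⟨(i : ℕ) + 1, by omega⟩ : Fin (K + 1)) = e := Fin.ext h2.symm
        rw [h3, h2]
        ring
      · rw [if_neg h1, if_neg h2, zero_add, zero_add]
        by_cases h3 : (e : ℕ) = i ∧ (i : ℕ) = K
        · rw [if_pos h3]
          have h4 : e = Fin.last K := Fin.ext (by rw [h3.1, h3.2]; rfl)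
          have h5 : i = Fin.last K := Fin.ext (by rw [h3.2]; rfl)
          rw [h4, h5, Vm_last hv hN]
          simp only [Fin.val_last]
          ring
        · rw [if_neg h3, Vm_zero hv hN (i := i) (j := e) (by omega) (by omega)
            (fun h => h3 ⟨(congrArg Fin.val h.1).symm, h.2⟩), zero_mul, zero_mul]
  rw [Finset.sum_congr rfl fun e _ => key e, sum_add_distrib, sum_add_distrib]
  congr 1
  · congr 1
    · split_ifs with h
      · rw [Finset.sum_eq_single (⟨(i : ℕ) - 1, by omega⟩ : Fin (K + 1))]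
        · rw [if_pos (by simp only; omega)]
        · intro e _ he
          rw [if_neg]
          intro h2
          exact he (Fin.ext (by simp only; omega))
        · intro h
          exact absurd (mem_univ _) h
      · exact Finset.sum_eq_zero fun e _ => by rw [if_neg (by omega)]
    · by_cases h : (i : ℕ) + 1 < K + 1
      · rw [Finset.sum_eq_single (⟨(i : ℕ) + 1, h⟩ : Fin (K + 1))]
        · rw [if_pos rfl]
        · intro e _ he
          rw [if_neg]
          intro h2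
          exact he (Fin.ext h2)
        · intro h
          exact absurd (mem_univ _) h
      · have h2 : sp v K i = 0 := by
          unfold sp
          rw [dif_neg h]
        rw [h2]
        simp
  · split_ifs with h
    · rw [Finset.sum_eq_single i]
      · rw [if_pos ⟨rfl, h⟩]
      · intro e _ he
        rw [if_neg]
        intro h2
        exact he (Fin.ext h2.1)
      · intro h
        exact absurd (mem_univ _) h
    · exact Finset.sum_eq_zero fun e _ => by rw [if_neg (by tauto)]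

/-- the formula for the products -/
noncomputable def Pf (v : ℂ) (K : ℕ) (j : ℤ) : ℂ :=
  -(br v (2 * ((K : ℤ) - j)) * br v (2 * ((K : ℤ) + j + 2))) / (br v (2 * j + 1) * br v (2 * j + 3))

lemma diag_rel (hv : v ≠ 0) (hN : Nz v (2 * K + 2)) (i : Fin (K + 1)) :
    ∑ e : Fin (K + 1), Vm v K i e * (2 * la v ((K : ℤ) - (i : ℕ)) -
      (v ^ 2 + (v ^ 2)⁻¹) * la v ((K : ℤ) - (e : ℕ))) * Vm v K e i =
    -(v ^ 2 - (v ^ 2)⁻¹) ^ 2 * la v ((K : ℤ) - (i : ℕ)) := by
  have h := congrFun (congrFun (aw2' hv hN) i) i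
  unfold Dl at h
  rw [Matrix.add_apply, Matrix.sub_apply, Matrix.smul_apply, Matrix.smul_apply, Matrix.mul_diagonal,
    Matrix.mul_assoc (diagonal _), Matrix.diagonal_mul, Matrix.mul_apply, Matrix.mul_apply,
    Matrix.diagonal_apply_eq, smul_eq_mul, smul_eq_mul] at h
  simp only [Matrix.mul_diagonal] at h
  rw [← h, Finset.sum_mul, Finset.mul_sum, Finset.mul_sum, ← Finset.sum_sub_distrib,
    ← Finset.sum_add_distrib]
  refine Finset.sum_congr rfl fun e _ => ?_
  ring

lemma id1 (hv : v ≠ 0) (j : ℤ) : 2 * la v j - (v ^ 2 + (v ^ 2)⁻¹) * la v (j + 1) =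
    -(br v 2 * br v (2 * j + 3)) := by
  unfold la br
  have hX : v ^ j ≠ 0 := zpow_ne_zero _ hv
  have e2 : v ^ (2 : ℤ) = v ^ 2 := by norm_cast
  have e3 : v ^ (3 : ℤ) = v ^ 3 := by norm_cast
  simp only [mul_add, two_mul, neg_add_rev, zpow_add₀ hv, _root_.zpow_neg, _root_.zpow_one, e2, e3]
  generalize v ^ j = X at *
  field_simp
  ring

lemma id2 (hv : v ≠ 0) (j : ℤ) : 2 * la v j - (v ^ 2 + (v ^ 2)⁻¹) * la v (j - 1) =
    br v 2 * br v (2 * j - 1) := by
  unfold la br
  have hX : v ^ j ≠ 0 := zpow_ne_zero _ hv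
  have e2 : v ^ (2 : ℤ) = v ^ 2 := by norm_cast
  simp only [mul_sub, two_mul, neg_add_rev, neg_sub, zpow_add₀ hv, zpow_sub₀ hv, _root_.zpow_neg,
    _root_.zpow_one, e2, mul_one]
  generalize v ^ j = X at *
  field_simp
  ring

/-- **the products** -/
lemma sp_eq (hv : v ≠ 0) (hN : Nz v (2 * K + 2)) : ∀ j : ℕ, j < K → sp v K (K - 1 - j) = Pf v K j := by
  have hN1 : ∀ {n : ℤ}, n ≠ 0 → |n| ≤ 2 * K + 2 → br v n ≠ 0 := fun h0 h1 => brz_ne (K := K) hN h0 h1
  have b2 : br v 2 ^ 2 = (v ^ 2 - (v ^ 2)⁻¹) ^ 2 := by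
    unfold br
    rw [_root_.zpow_neg]
    norm_cast
  intro j
  induction j with
  | zero =>
    intro hK
    have h1 := diag_rel hv hN (Fin.last K)
    rw [sum_tri hv hN (fun e => 2 * la v ((K : ℤ) - ((Fin.last K : Fin (K + 1)) : ℕ)) -
      (v ^ 2 + (v ^ 2)⁻¹) * la v ((K : ℤ) - (e : ℕ))) (Fin.last K)] at h1
    simp only [Fin.val_last] at h1
    have h2 : sp v K K = 0 := by
      unfold sp
      rw [dif_neg (lt_irrefl _)]
    rw [if_pos hK, if_pos trivial, h2, zero_mul, add_zero, sub_self] at h1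
    have e1 : (K : ℤ) - ((K - 1 : ℕ) : ℤ) = 0 + 1 := by omega
    rw [e1, id1 hv 0, ← b2] at h1
    have n1 : br v 1 ≠ 0 := hN1 (by norm_num) (by rw [abs_one]; omega)
    have n2 : br v 2 ≠ 0 := hN1 (by norm_num) (by rw [abs_two]; omega)
    have n3 : br v 3 ≠ 0 := hN1 (by norm_num) (by
      rw [show |(3 : ℤ)| = 3 from rfl]; omega)
    unfold Pf
    simp only [Nat.sub_zero, Nat.cast_zero, mul_zero, zero_add, sub_zero, add_zero] at h1 ⊢
    rw [eq_div_iff (mul_ne_zero n1 n3)]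
    have key : br v (2 * (K : ℤ)) * br v (2 * ((K : ℤ) + 2)) * br v 2 * br v 1 =
        -(br v (2 * (K : ℤ) + 2) ^ 2 * (2 - (v ^ 2 + (v ^ 2)⁻¹)) * la v 0 +
          br v 2 ^ 2 * la v 0 * br v 1 ^ 2) := by
      unfold la br
      have hX : v ^ (K : ℤ) ≠ 0 := zpow_ne_zero _ hv
      have e2 : v ^ (2 : ℤ) = v ^ 2 := by norm_cast
      simp only [mul_add, two_mul, neg_add_rev, zpow_add₀ hv, _root_.zpow_neg, _root_.zpow_one, e2,
        mul_zero, add_zero, zero_add]
      generalize v ^ (K : ℤ) = X at *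
      field_simp
      ring
    have h3 : (sp v K (K - 1) * (br v 1 * br v 3) +
        br v (2 * (K : ℤ)) * br v (2 * ((K : ℤ) + 2))) * (br v 2 * br v 1) = 0 := by
      have h4 : br v 1 ^ 2 * (sp v K (K - 1) * -(br v 2 * br v 3) + (br v (2 * K + 2) / br v 1) ^ 2 *
          (2 * la v 0 - (v ^ 2 + (v ^ 2)⁻¹) * la v 0)) = br v 1 ^ 2 * (-br v 2 ^ 2 * la v 0) := by
        rw [h1]
      have h5 : br v 1 ^ 2 * (br v (2 * K + 2) / br v 1) ^ 2 = br v (2 * K + 2) ^ 2 := by
        field_simp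
      linear_combination (-1 : ℂ) * h4 + key +
        (2 * la v 0 - (v ^ 2 + (v ^ 2)⁻¹) * la v 0) * h5
    have h4 := (mul_eq_zero.1 h3).resolve_right (mul_ne_zero n2 n1)
    linear_combination h4
  | succ j ih =>
    intro hj
    have ih' := ih (by omega)
    set i : Fin (K + 1) := ⟨K - 1 - j, by omega⟩ with hi
    have h1 := diag_rel hv hN i
    rw [sum_tri hv hN (fun e => 2 * la v ((K : ℤ) - (i : ℕ)) -
      (v ^ 2 + (v ^ 2)⁻¹) * la v ((K : ℤ) - (e : ℕ))) i] at h1
    have hiv : (i : ℕ) = K - 1 - j := rfl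
    rw [hiv, if_pos (by omega), if_neg (by omega), add_zero, ih'] at h1
    have e1 : K - 1 - j - 1 = K - 1 - (j + 1) := by omega
    have e2 : (K : ℤ) - ((K - 1 - (j + 1) : ℕ) : ℤ) = ((j : ℤ) + 1) + 1 := by omega
    have e3 : (K : ℤ) - ((K - 1 - j : ℕ) : ℤ) = (j : ℤ) + 1 := by omega
    have e4 : (K : ℤ) - ((K - 1 - j + 1 : ℕ) : ℤ) = ((j : ℤ) + 1) - 1 := by omega
    rw [e1, e2, e3, e4, id1 hv, id2 hv, ← b2] at h1
    have n2 : br v 2 ≠ 0 := hN1 (by norm_num) (by rw [abs_two]; omega)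
    have m1 : br v (2 * (j : ℤ) + 1) ≠ 0 := hN1 (by omega) (by rw [abs_le]; constructor <;> omega)
    have m3 : br v (2 * (j : ℤ) + 3) ≠ 0 := hN1 (by omega) (by rw [abs_le]; constructor <;> omega)
    have m5 : br v (2 * (j : ℤ) + 5) ≠ 0 := hN1 (by omega) (by rw [abs_le]; constructor <;> omega)
    have f1 : 2 * ((j : ℤ) + 1) - 1 = 2 * (j : ℤ) + 1 := by ring
    have f2 : 2 * ((j : ℤ) + 1) + 3 = 2 * (j : ℤ) + 5 := by ring
    have f3 : 2 * ((j : ℤ) + 1) + 1 = 2 * (j : ℤ) + 3 := by ring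
    rw [f1, f2] at h1
    unfold Pf at h1 ⊢
    push_cast
    rw [f2, f3]
    rw [eq_div_iff (mul_ne_zero m3 m5)]
    have h2 : br v (2 * (j : ℤ) + 3) * (sp v K (K - 1 - (j + 1)) * -(br v 2 * br v (2 * (j : ℤ) + 5)) +
        -(br v (2 * ((K : ℤ) - j)) * br v (2 * ((K : ℤ) + j + 2))) /
          (br v (2 * (j : ℤ) + 1) * br v (2 * (j : ℤ) + 3)) * (br v 2 * br v (2 * (j : ℤ) + 1))) =
        br v (2 * (j : ℤ) + 3) * (-br v 2 ^ 2 * la v ((j : ℤ) + 1)) := by rw [h1]
    have h3 : br v (2 * (j : ℤ) + 3) * (-(br v (2 * ((K : ℤ) - j)) * br v (2 * ((K : ℤ) + j + 2))) /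
          (br v (2 * (j : ℤ) + 1) * br v (2 * (j : ℤ) + 3)) * (br v 2 * br v (2 * (j : ℤ) + 1))) =
        -(br v (2 * ((K : ℤ) - j)) * br v (2 * ((K : ℤ) + j + 2))) * br v 2 := by
      field_simp
    have key : br v (2 * ((K : ℤ) - j)) * br v (2 * ((K : ℤ) + j + 2)) -
        br v (2 * ((K : ℤ) - ((j : ℤ) + 1))) * br v (2 * ((K : ℤ) + ((j : ℤ) + 1) + 2)) =
        br v 2 * la v ((j : ℤ) + 1) * br v (2 * (j : ℤ) + 3) := by
      unfold la br
      have hX : v ^ (K : ℤ) ≠ 0 := zpow_ne_zero _ hv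
      have hY : v ^ (j : ℤ) ≠ 0 := zpow_ne_zero _ hv
      have e2 : v ^ (2 : ℤ) = v ^ 2 := by norm_cast
      have e3 : v ^ (3 : ℤ) = v ^ 3 := by norm_cast
      simp only [mul_sub, mul_add, two_mul, neg_add_rev, neg_sub, zpow_add₀ hv, zpow_sub₀ hv,
        _root_.zpow_neg, _root_.zpow_one, e2, e3, mul_one]
      generalize v ^ (K : ℤ) = X at *
      generalize v ^ (j : ℤ) = Y at *
      field_simp
      ring
    have h4 : (sp v K (K - 1 - (j + 1)) * (br v (2 * (j : ℤ) + 3) * br v (2 * (j : ℤ) + 5)) +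
        br v (2 * ((K : ℤ) - ((j : ℤ) + 1))) * br v (2 * ((K : ℤ) + ((j : ℤ) + 1) + 2))) * br v 2 =
        0 := by
      linear_combination (-1 : ℂ) * h2 + h3 - br v 2 * key
    have h5 := (mul_eq_zero.1 h4).resolve_right n2
    linear_combination h5

end Pool.Agent.H62.TB
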