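import Pool.Agent.H62.TB.Tri2

/-!
The equivalence of the two pairs of matrices.
-/

set_option autoImplicit false

namespace Pool.Agent.H62.TB

open Finset Matrix Polynomial
open Pool.Agent.H550R3.Jones (br brf)
open Pool.Agent.Y482.CY (sb Nz)
open Pool.Agent.H62.TV (qb qb_gt qb_self)

variable {v : ℂ} {K : ℕ}

/-- the tridiagonal matrix of the curve operator -/
noncomputable def Zt (v : ℂ) (K : ℕ) : Matrix (Fin (K + 1)) (Fin (K + 1)) ℂ := fun d e =>
  if (d : ℕ) = e + 1 then 1 else if (d : ℕ) + 1 = e then Pf v K ((K : ℤ) - 1 - (d : ℕ))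
  else if (d : ℕ) = e ∧ (d : ℕ) = K then br v (2 * K + 2) / br v 1 else 0

/-- the entries below the diagonal -/
noncomputable def lw (v : ℂ) (K n : ℕ) : ℂ :=
  if h : n + 1 < K + 1 then Vm v K ⟨n + 1, h⟩ ⟨n, by omega⟩ else 1

lemma Pf_ne (hN : Nz v (2 * K + 2)) (h2 : ∀ n : ℤ, n ≠ 0 → |n| ≤ 2 * K + 2 → br v (2 * n) ≠ 0)
    {j : ℤ} (h0 : 0 ≤ j) (h1 : j < K) : Pf v K j ≠ 0 := by
  unfold Pf
  refine div_ne_zero (neg_ne_zero.2 (mul_ne_zero (h2 _ (by omega) ?_) (h2 _ (by omega) ?_)))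
    (mul_ne_zero (brz_ne (K := K) hN (by omega) ?_) (brz_ne (K := K) hN (by omega) ?_))
  · rw [abs_le]; constructor <;> omega
  · rw [abs_le]; constructor <;> omega
  · rw [abs_le]; constructor <;> omega
  · rw [abs_le]; constructor <;> omega

lemma lw_ne (hv : v ≠ 0) (hN : Nz v (2 * K + 2))
    (h2 : ∀ n : ℤ, n ≠ 0 → |n| ≤ 2 * K + 2 → br v (2 * n) ≠ 0) (n : ℕ) : lw v K n ≠ 0 := by
  unfold lw
  split_ifs with h
  · intro h0
    have h1 := sp_eq hv hN (K - 1 - n) (by omega)
    have e1 : K - 1 - (K - 1 - n) = n := by omega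
    rw [e1] at h1
    unfold sp at h1
    rw [dif_pos h, h0, mul_zero] at h1
    exact Pf_ne hN h2 (by omega) (by omega) h1.symm
  · exact one_ne_zero

/-- the scaling -/
noncomputable def Ds (v : ℂ) (K n : ℕ) : ℂ := ∏ e ∈ range n, lw v K e

lemma Vm_Ds (hv : v ≠ 0) (hN : Nz v (2 * K + 2)) :
    Vm v K * diagonal (fun i : Fin (K + 1) => Ds v K i) =
      diagonal (fun i : Fin (K + 1) => Ds v K i) * Zt v K := by
  ext d e
  have hd := d.2
  have he := e.2
  rw [Matrix.mul_diagonal, Matrix.diagonal_mul]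
  unfold Zt
  by_cases h1 : (d : ℕ) = e + 1
  · rw [if_pos h1, mul_one, h1]
    unfold Ds
    rw [prod_range_succ, mul_comm]
    congr 1
    unfold lw
    rw [dif_pos (by omega)]
    congr 1
    exact Fin.ext h1
  · rw [if_neg h1]
    by_cases h2 : (d : ℕ) + 1 = e
    · rw [if_pos h2, ← h2]
      have h3 := sp_eq hv hN (K - 1 - d) (by omega)
      have e1 : K - 1 - (K - 1 - (d : ℕ)) = d := by omega
      have e2 : ((K - 1 - (d : ℕ) : ℕ) : ℤ) = (K : ℤ) - 1 - (d : ℕ) := by omega
      rw [e1, e2] at h3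
      rw [← h3]
      unfold sp
      rw [dif_pos (by omega)]
      have e3 : (⟨(d : ℕ) + 1, by omega⟩ : Fin (K + 1)) = e := Fin.ext h2
      have e4 : (⟨(d : ℕ), by omega⟩ : Fin (K + 1)) = d := rfl
      unfold Ds
      rw [prod_range_succ]
      have e5 : lw v K d = Vm v K e d := by
        unfold lw
        rw [dif_pos (by omega), e3]
      rw [e5, e3]
      ring
    · rw [if_neg h2]
      by_cases h3 : (d : ℕ) = e ∧ (d : ℕ) = K
      · rw [if_pos h3]
        have e1 : d = Fin.last K := Fin.ext h3.2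
        have e2 : e = Fin.last K := Fin.ext (by rw [← h3.1, h3.2]; rfl)
        rw [e1, e2, Vm_last hv hN]
        ring
      · rw [if_neg h3, Vm_zero hv hN h1 h2 (fun h => h3 ⟨congrArg Fin.val h.1, h.2⟩)]
        ring

/-- the change of the basis -/
noncomputable def Sm (v : ℂ) (K : ℕ) : Matrix (Fin (K + 1)) (Fin (K + 1)) ℂ :=
  Wm v K * diagonal fun i : Fin (K + 1) => Ds v K i

lemma Sm_unit (hv : v ≠ 0) (hN : Nz v (2 * K + 2))
    (h2 : ∀ n : ℤ, n ≠ 0 → |n| ≤ 2 * K + 2 → br v (2 * n) ≠ 0) : IsUnit (Sm v K).det := by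
  unfold Sm
  rw [Matrix.det_mul, Wm_det, one_mul, Matrix.det_diagonal, isUnit_iff_ne_zero]
  refine prod_ne_zero_iff.2 fun i _ => ?_
  unfold Ds
  exact prod_ne_zero_iff.2 fun e _ => lw_ne hv hN h2 e

lemma Um_Sm (hv : v ≠ 0) (hN : Nz v (2 * K + 2)) : Um v K * Sm v K = Sm v K * Zt v K := by
  unfold Sm
  rw [← Matrix.mul_assoc, Um_Wm, Matrix.mul_assoc, Vm_Ds hv hN, Matrix.mul_assoc]

lemma low_zero (hv : v ≠ 0) (hN : Nz v (2 * K + 2)) {X : Matrix (Fin (K + 1)) (Fin (K + 1)) ℂ}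
    (h1 : Lm v K * X = X * Dl v K) (h2 : ∀ d i : Fin (K + 1), (d : ℕ) ≤ i → X d i = 0) : X = 0 := by
  ext d i
  rw [Matrix.zero_apply]
  obtain ⟨n, hn⟩ := d
  induction n with
  | zero => exact h2 _ _ (Nat.zero_le _)
  | succ n ih =>
    have hi := i.2
    rcases Nat.lt_or_ge i (n + 1) with h | h
    · have h3 := congrFun (congrFun h1 ⟨n + 1, hn⟩) i
      unfold Dl at h3
      rw [Lm_mul, Matrix.mul_diagonal, dif_pos (by simp)] at h3
      have h4 : (⟨(⟨n + 1, hn⟩ : Fin (K + 1)) - 1, by omega⟩ : Fin (K + 1)) = ⟨n, by omega⟩ := rfl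
      simp only [Nat.add_sub_cancel] at h3
      rw [ih (by omega), mul_zero, add_zero] at h3
      have h5 := la_ne (K := K) hv hN (i := n + 1) (e := i) (by omega) (by omega) (by omega)
      have h6 : (la v ((K : ℤ) - ((n + 1 : ℕ) : ℤ)) - la v ((K : ℤ) - (i : ℕ))) *
          X ⟨n + 1, hn⟩ i = 0 := by linear_combination h3
      exact (mul_eq_zero.1 h6).resolve_left h5
    · exact h2 _ _ h

lemma T1_gt (hv : v ≠ 0) {d f : Fin (K + 1)} (h : (d : ℕ) < f) : T1 v K d f = 0 := by
  rw [T1_apply hv, qb_gt h, mul_zero]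

lemma T1_diag (hv : v ≠ 0) (hK : Nz v K) (d : Fin (K + 1)) :
    T1 v K d d = v ^ (((K : ℤ) - (d : ℕ)) * ((K : ℤ) - (d : ℕ) + 1)) := by
  have hd := d.2
  rw [T1_apply hv, qb_self (fun l h0 hl => hK l h0 (by omega)), mul_one]
  congr 1
  ring

lemma T2_lt (hv : v ≠ 0) {d f : Fin (K + 1)} (h : (f : ℕ) < d) : T2 v K d f = 0 := by
  have hd := d.2
  rw [T2_apply hv, qb_gt (by omega), mul_zero]

lemma T2_diag (hv : v ≠ 0) (hK : Nz v K) (d : Fin (K + 1)) :
    T2 v K d d = v ^ ((K : ℤ) * (K + 1) - ((d : ℕ) : ℤ) * ((d : ℕ) + 1)) := by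
  have hd := d.2
  rw [T2_apply hv, qb_self (fun l h0 hl => hK l h0 (by omega)), mul_one]
  congr 1
  ring

/-- **the first letter in the eigenbasis** -/
theorem T1_Sm (hv : v ≠ 0) (hN : Nz v (2 * K + 2)) :
    T1 v K * Sm v K = Sm v K * diagonal (fun i : Fin (K + 1) => T1 v K i i) := by
  have hK : Nz v K := fun l h0 hl => hN l h0 (by omega)
  have h1 : T1 v K * Wm v K - Wm v K * diagonal (fun i : Fin (K + 1) => T1 v K i i) = 0 := by
    apply low_zero hv hN
    · unfold Dl
      rw [Matrix.mul_sub, ← Matrix.mul_assoc, ← T1_comm hv hK, Matrix.mul_assoc, Lm_Wm hv hN,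
        ← Matrix.mul_assoc, ← Matrix.mul_assoc, Lm_Wm hv hN, Matrix.sub_mul, Matrix.mul_assoc _ _
        (diagonal fun i : Fin (K + 1) => T1 v K i i), Matrix.mul_assoc _
        (diagonal fun i : Fin (K + 1) => T1 v K i i), Matrix.diagonal_mul_diagonal,
        Matrix.diagonal_mul_diagonal]
      congr 3
      funext i
      ring
    · intro d i hdi
      rw [Matrix.sub_apply, Matrix.mul_diagonal, Matrix.mul_apply]
      rcases hdi.lt_or_eq with h | h
      · rw [Wm_lt h, zero_mul, sub_zero]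
        refine Finset.sum_eq_zero fun e _ => ?_
        rcases Nat.lt_or_ge d e with h2 | h2
        · rw [T1_gt hv h2, zero_mul]
        · rw [Wm_lt (by omega), mul_zero]
      · have : d = i := Fin.ext h
        subst this
        rw [Wm_diag, one_mul, Finset.sum_eq_single d, Wm_diag, mul_one, sub_self]
        · intro e _ he
          rcases Nat.lt_or_ge d e with h2 | h2
          · rw [T1_gt hv h2, zero_mul]
          · have : (e : ℕ) ≠ d := fun h3 => he (Fin.ext h3)
            rw [Wm_lt (by omega), mul_zero]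
        · intro h
          exact absurd (mem_univ _) h
  have h2 := sub_eq_zero.1 h1
  unfold Sm
  rw [← Matrix.mul_assoc, h2, Matrix.mul_assoc, Matrix.mul_assoc, Matrix.diagonal_mul_diagonal,
    Matrix.diagonal_mul_diagonal]
  congr 2
  funext i
  ring

lemma upp_zero (hv : v ≠ 0) (hN : Nz v (2 * K + 2)) {X : Matrix (Fin (K + 1)) (Fin (K + 1)) ℂ}
    (h1 : Um v K * X = X * Um v K) (h2 : ∀ d f : Fin (K + 1), (f : ℕ) ≤ d → X d f = 0) : X = 0 := by
  have key : ∀ n : ℕ, ∀ d f : Fin (K + 1), (f : ℕ) ≤ d + n → X d f = 0 := by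
    intro n
    induction n with
    | zero => intro d f h; exact h2 d f h
    | succ n ih =>
      intro d f hf
      have hd := d.2
      have hf2 := f.2
      rcases Nat.lt_or_ge d f with h | h
      · have h3 := congrFun (congrFun h1 d) f
        rw [Um_mul, mul_Um, dif_pos (by omega), dif_pos (by omega),
          ih ⟨(d : ℕ) + 1, by omega⟩ f (by simp only; omega),
          ih d ⟨(f : ℕ) - 1, by omega⟩ (by simp only; omega), mul_zero, zero_mul, add_zero,
          add_zero] at h3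
        have h5 : la v ((d : ℕ) : ℤ) - la v ((f : ℕ) : ℤ) ≠ 0 := by
          have := la_ne (K := K) hv hN (i := K - d) (e := K - f) (by omega) (by omega) (by omega)
          have e1 : (K : ℤ) - ((K - (d : ℕ) : ℕ) : ℤ) = (d : ℕ) := by omega
          have e2 : (K : ℤ) - ((K - (f : ℕ) : ℕ) : ℤ) = (f : ℕ) := by omega
          rwa [e1, e2] at this
        have h6 : (la v ((d : ℕ) : ℤ) - la v ((f : ℕ) : ℤ)) * X d f = 0 := by
          linear_combination h3
        exact (mul_eq_zero.1 h6).resolve_left h5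
      · exact h2 d f h
  ext d f
  rw [Matrix.zero_apply]
  have hf := f.2
  exact key K d f (by omega)

lemma Um_gt {d f : Fin (K + 1)} (h : (f : ℕ) < d) : Um v K d f = 0 := by
  unfold Um
  rw [if_neg (by omega), if_neg (by omega)]

lemma Um_diag (d : Fin (K + 1)) : Um v K d d = la v (d : ℕ) := by
  unfold Um
  rw [if_pos rfl]

/-- products of upper triangular matrices -/
lemma upp_mul {A B : Matrix (Fin (K + 1)) (Fin (K + 1)) ℂ}
    (hA : ∀ d f : Fin (K + 1), (f : ℕ) < d → A d f = 0)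
    (hB : ∀ d f : Fin (K + 1), (f : ℕ) < d → B d f = 0) :
    (∀ d f : Fin (K + 1), (f : ℕ) < d → (A * B) d f = 0) ∧
      ∀ d : Fin (K + 1), (A * B) d d = A d d * B d d := by
  constructor
  · intro d f h
    rw [Matrix.mul_apply]
    refine Finset.sum_eq_zero fun e _ => ?_
    rcases Nat.lt_or_ge e d with h2 | h2
    · rw [hA _ _ h2, zero_mul]
    · rw [hB _ _ (by omega), mul_zero]
  · intro d
    rw [Matrix.mul_apply, Finset.sum_eq_single d]
    · intro e _ he
      rcases Nat.lt_or_ge e d with h2 | h2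
      · rw [hA _ _ h2, zero_mul]
      · have : (e : ℕ) ≠ d := fun h3 => he (Fin.ext h3)
        rw [hB _ _ (by omega), mul_zero]
    · intro h
      exact absurd (mem_univ _) h

lemma Um_pow (n : ℕ) : (∀ d f : Fin (K + 1), (f : ℕ) < d → (Um v K ^ n) d f = 0) ∧
    ∀ d : Fin (K + 1), (Um v K ^ n) d d = la v (d : ℕ) ^ n := by
  induction n with
  | zero =>
    refine ⟨fun d f h => ?_, fun d => ?_⟩
    · rw [pow_zero, Matrix.one_apply_ne]
      intro h2
      rw [h2] at h
      exact lt_irrefl _ h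
    · rw [pow_zero, pow_zero, Matrix.one_apply_eq]
  | succ n ih =>
    have h := upp_mul ih.1 (fun d f h => Um_gt (v := v) h)
    rw [pow_succ]
    refine ⟨h.1, fun d => ?_⟩
    rw [h.2, ih.2, Um_diag, pow_succ]

lemma aeval_upp (P : ℂ[X]) : (∀ d f : Fin (K + 1), (f : ℕ) < d → (aeval (Um v K) P) d f = 0) ∧
    ∀ d : Fin (K + 1), (aeval (Um v K) P) d d = P.eval (la v (d : ℕ)) := by
  have h1 : aeval (Um v K) P = ∑ i ∈ range (P.natDegree + 1), P.coeff i • Um v K ^ i :=
    aeval_eq_sum_range _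
  rw [h1]
  refine ⟨fun d f h => ?_, fun d => ?_⟩
  · rw [Matrix.sum_apply]
    exact Finset.sum_eq_zero fun i _ => by rw [Matrix.smul_apply, (Um_pow i).1 d f h, smul_zero]
  · rw [Matrix.sum_apply, Polynomial.eval_eq_sum_range]
    exact Finset.sum_congr rfl fun i _ => by rw [Matrix.smul_apply, (Um_pow i).2 d, smul_eq_mul]

lemma aeval_conj {n : Type} [Fintype n] [DecidableEq n] {A B S : Matrix n n ℂ} (h : A * S = S * B)
    (P : ℂ[X]) : aeval A P * S = S * aeval B P := by
  have h1 : ∀ i : ℕ, A ^ i * S = S * B ^ i := by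
    intro i
    induction i with
    | zero => simp
    | succ i ih => rw [pow_succ, Matrix.mul_assoc, h, ← Matrix.mul_assoc, ih, Matrix.mul_assoc,
        ← pow_succ]
  rw [aeval_eq_sum_range, aeval_eq_sum_range, Finset.sum_mul, Finset.mul_sum]
  refine Finset.sum_congr rfl fun i _ => ?_
  rw [Matrix.smul_mul, h1, Matrix.mul_smul]

/-- **the second letter** -/
theorem T2_Sm (hv : v ≠ 0) (hN : Nz v (2 * K + 2)) {P : ℂ[X]} {ξ : ℂ}
    (hP : ∀ j : ℕ, j ≤ K → P.eval (la v j) = ξ * v ^ ((j : ℤ) * (j + 1))) :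
    T2 v K * aeval (Um v K) P = (ξ * v ^ ((K : ℤ) * (K + 1))) • 1 := by
  have hK : Nz v K := fun l h0 hl => hN l h0 (by omega)
  have hT := aeval_upp (v := v) (K := K) P
  have h1 := upp_mul (fun d f h => T2_lt (K := K) hv h) hT.1
  have h2 : T2 v K * aeval (Um v K) P -
      (ξ * v ^ ((K : ℤ) * (K + 1))) • (1 : Matrix (Fin (K + 1)) (Fin (K + 1)) ℂ) = 0 := by
    apply upp_zero hv hN
    · have hc : Um v K * aeval (Um v K) P = aeval (Um v K) P * Um v K := by
        have := aeval_conj (A := Um v K) (B := Um v K) (S := Um v K) rfl P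
        exact this.symm
      rw [Matrix.mul_sub, Matrix.sub_mul, ← Matrix.mul_assoc, T2_comm hv hK, Matrix.mul_assoc, hc,
        Matrix.mul_smul, Matrix.smul_mul, Matrix.mul_one, Matrix.one_mul, Matrix.mul_assoc]
    · intro d f hf
      rw [Matrix.sub_apply, Matrix.smul_apply]
      rcases hf.lt_or_eq with h | h
      · rw [h1.1 d f h, Matrix.one_apply_ne, smul_zero, sub_zero]
        intro h2
        rw [h2] at h
        exact lt_irrefl _ h
      · have : f = d := Fin.ext h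
        subst this
        have hf2 := f.2
        rw [h1.2, hT.2, T2_diag hv hK, hP f (by omega), Matrix.one_apply_eq, smul_eq_mul, mul_one,
          mul_left_comm, ← zpow_add₀ hv]
        have e1 : (K : ℤ) * (K + 1) - ((f : ℕ) : ℤ) * ((f : ℕ) + 1) +
          ((f : ℕ) : ℤ) * (((f : ℕ) : ℤ) + 1) = (K : ℤ) * (K + 1) := by ring
        rw [e1, sub_self]
  exact sub_eq_zero.1 h2

end Pool.Agent.H62.TB
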